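import Mathlib

/-! Basic facts about piecewise affine increasing homeomorphisms of the real line. -/

namespace TH960.PL

open Filter Topology Set

/-- `f` is affine near `x`. -/
def LocAff (f : ℝ → ℝ) (x : ℝ) : Prop := ∃ a b : ℝ, ∀ᶠ t in 𝓝 x, f t = a * t + b

/-- `f` is locally affine off a set without accumulation points. -/
def PLf (f : ℝ → ℝ) : Prop := ∀ x, ∀ᶠ y in 𝓝[≠] x, LocAff f y

theorem LocAff.congr {f g : ℝ → ℝ} {x : ℝ} (hf : LocAff f x) (h : ∀ᶠ t in 𝓝 x, g t = f t) :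
    LocAff g x := by
  obtain ⟨a, b, hab⟩ := hf
  refine ⟨a, b, ?_⟩
  filter_upwards [hab, h] with t h1 h2
  rw [h2, h1]

theorem LocAff.comp {f g : ℝ → ℝ} {x : ℝ} (hg : LocAff g x) (hf : LocAff f (g x))
    (hc : ContinuousAt g x) : LocAff (fun t => f (g t)) x := by
  obtain ⟨a, b, hab⟩ := hg
  obtain ⟨c, d, hcd⟩ := hf
  refine ⟨c * a, c * b + d, ?_⟩
  filter_upwards [hab, hc.eventually hcd] with t h1 h2
  rw [h2, h1]; ring

theorem isoCont (f : ℝ ≃o ℝ) : Continuous f := f.continuous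

theorem LocAff.inv {f : ℝ ≃o ℝ} {x : ℝ} (hf : LocAff f x) : LocAff (f⁻¹ : ℝ ≃o ℝ) (f x) := by
  obtain ⟨a, b, hab⟩ := hf
  have hfx : f x = a * x + b := hab.self_of_nhds
  have ha : a ≠ 0 := by
    intro h0
    have h1 : ∀ᶠ t in 𝓝[>] x, f t = a * t + b := hab.filter_mono nhdsWithin_le_nhds
    have h2 : ∀ᶠ t in 𝓝[>] x, x < t := eventually_mem_nhdsWithin
    obtain ⟨t, ht1, ht2⟩ := (h1.and h2).exists
    have h3 : f x < f t := f.strictMono ht2
    rw [ht1, hfx, h0] at h3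
    linarith
  have hc : ContinuousAt (f⁻¹ : ℝ ≃o ℝ) (f x) := (isoCont _).continuousAt
  have hx : (f⁻¹ : ℝ ≃o ℝ) (f x) = x := f.symm_apply_apply x
  have h4 : ∀ᶠ s in 𝓝 (f x), f ((f⁻¹ : ℝ ≃o ℝ) s) = a * ((f⁻¹ : ℝ ≃o ℝ) s) + b := by
    have hab' : ∀ᶠ t in 𝓝 ((f⁻¹ : ℝ ≃o ℝ) (f x)), f t = a * t + b := by rw [hx]; exact hab
    exact hc.tendsto.eventually hab'
  refine ⟨1 / a, - b / a, ?_⟩
  filter_upwards [h4] with s hs
  have h5 : f ((f⁻¹ : ℝ ≃o ℝ) s) = s := f.apply_symm_apply s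
  rw [h5] at hs
  field_simp
  linarith

theorem PLf.congr {f g : ℝ → ℝ} (hf : PLf f) (h : ∀ t, g t = f t) : PLf g := by
  intro x
  filter_upwards [hf x] with y hy
  exact hy.congr (Eventually.of_forall h)

theorem iso_punct (g : ℝ ≃o ℝ) (x : ℝ) : Tendsto g (𝓝[≠] x) (𝓝[≠] (g x)) :=
  tendsto_nhdsWithin_of_tendsto_nhds_of_eventually_within _
    ((isoCont g).continuousAt.tendsto.mono_left nhdsWithin_le_nhds)
    (by
      filter_upwards [self_mem_nhdsWithin] with y hy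
      exact fun h => hy (g.injective h))

theorem PLf.mul {f g : ℝ ≃o ℝ} (hf : PLf f) (hg : PLf g) : PLf (f * g : ℝ ≃o ℝ) := by
  intro x
  filter_upwards [hg x, (iso_punct g x).eventually (hf (g x))] with y h1 h2
  exact h1.comp h2 (isoCont g).continuousAt

theorem PLf.inv {f : ℝ ≃o ℝ} (hf : PLf f) : PLf (f⁻¹ : ℝ ≃o ℝ) := by
  intro x
  filter_upwards [(iso_punct f⁻¹ x).eventually (hf ((f⁻¹ : ℝ ≃o ℝ) x))] with y h1
  have h2 := h1.inv
  have h3 : f ((f⁻¹ : ℝ ≃o ℝ) y) = y := f.apply_symm_apply y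
  rwa [h3] at h2

theorem PLf.one : PLf (1 : ℝ ≃o ℝ) := by
  intro x
  refine Eventually.of_forall fun y => ⟨1, 0, Eventually.of_forall fun t => ?_⟩
  change t = 1 * t + 0
  ring

@[simp] theorem apply_inv (f : ℝ ≃o ℝ) (x : ℝ) : f ((f⁻¹ : ℝ ≃o ℝ) x) = x := f.apply_symm_apply x
@[simp] theorem inv_apply (f : ℝ ≃o ℝ) (x : ℝ) : (f⁻¹ : ℝ ≃o ℝ) (f x) = x := f.symm_apply_apply x
theorem mulapp (f g : ℝ ≃o ℝ) (x : ℝ) : (f * g) x = f (g x) := rfl

/-- the affine map `x ↦ y0 + s (x - x0)` -/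
noncomputable def aff (x0 y0 s : ℝ) (hs : 0 < s) : ℝ ≃o ℝ :=
  StrictMono.orderIsoOfSurjective (fun x => y0 + s * (x - x0))
    (by intro x y hxy; simp only; nlinarith)
    (by
      intro y
      refine ⟨x0 + (y - y0) / s, ?_⟩
      simp only
      field_simp
      ring)

@[simp] theorem aff_apply (x0 y0 s : ℝ) (hs : 0 < s) (x : ℝ) :
    aff x0 y0 s hs x = y0 + s * (x - x0) := rfl

theorem locAff_aff (x0 y0 s : ℝ) (hs : 0 < s) (x : ℝ) : LocAff (aff x0 y0 s hs) x :=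
  ⟨s, y0 - s * x0, Eventually.of_forall fun t => by rw [aff_apply]; ring⟩

theorem plf_aff (x0 y0 s : ℝ) (hs : 0 < s) : PLf (aff x0 y0 s hs) :=
  fun _ => Eventually.of_forall fun y => locAff_aff _ _ _ _ y

/-- gluing two increasing homeomorphisms which agree at `c` -/
noncomputable def glue (f g : ℝ ≃o ℝ) (c : ℝ) (h : f c = g c) : ℝ ≃o ℝ :=
  StrictMono.orderIsoOfSurjective (fun x => if x ≤ c then f x else g x)
    (by
      intro x y hxy
      simp only
      split_ifs with h1 h2 h2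
      · exact f.strictMono hxy
      · calc f x ≤ f c := f.monotone h1
          _ = g c := h
          _ < g y := g.strictMono (not_le.1 h2)
      · exact absurd (hxy.le.trans h2) h1
      · exact g.strictMono hxy)
    (by
      intro y
      by_cases hy : y ≤ f c
      · refine ⟨(f⁻¹ : ℝ ≃o ℝ) y, ?_⟩
        have : (f⁻¹ : ℝ ≃o ℝ) y ≤ c := by
          rw [← inv_apply f c]; exact (f⁻¹ : ℝ ≃o ℝ).monotone hy
        simp [this]
      · refine ⟨(g⁻¹ : ℝ ≃o ℝ) y, ?_⟩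
        have : ¬ (g⁻¹ : ℝ ≃o ℝ) y ≤ c := by
          rw [not_le, ← inv_apply g c]
          apply (g⁻¹ : ℝ ≃o ℝ).strictMono
          rw [← h]; exact not_le.1 hy
        simp [this])

theorem glue_le {f g : ℝ ≃o ℝ} {c : ℝ} (h : f c = g c) {x : ℝ} (hx : x ≤ c) :
    glue f g c h x = f x := by
  change (if x ≤ c then f x else g x) = f x
  rw [if_pos hx]

theorem glue_ge {f g : ℝ ≃o ℝ} {c : ℝ} (h : f c = g c) {x : ℝ} (hx : c ≤ x) :
    glue f g c h x = g x := by
  change (if x ≤ c then f x else g x) = g x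
  split_ifs with h1
  · have : x = c := le_antisymm h1 hx
    rw [this, h]
  · rfl

theorem glue_plf {f g : ℝ ≃o ℝ} {c : ℝ} (h : f c = g c) (hf : PLf f) (hg : PLf g) :
    PLf (glue f g c h) := by
  have hL : ∀ y < c, LocAff f y → LocAff (glue f g c h) y := by
    intro y hy h1
    refine h1.congr ?_
    filter_upwards [eventually_lt_nhds hy] with t ht
    exact glue_le h ht.le
  have hR : ∀ y, c < y → LocAff g y → LocAff (glue f g c h) y := by
    intro y hy h1
    refine h1.congr ?_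
    filter_upwards [eventually_gt_nhds hy] with t ht
    exact glue_ge h ht.le
  intro x
  rcases lt_trichotomy x c with hx | hx | hx
  · filter_upwards [hf x, nhdsWithin_le_nhds (eventually_lt_nhds hx)] with y h1 h2
    exact hL y h2 h1
  · subst hx
    filter_upwards [hf x, hg x, self_mem_nhdsWithin] with y h1 h2 h3
    rcases lt_or_gt_of_ne h3 with h4 | h4
    · exact hL y h4 h1
    · exact hR y h4 h2
  · filter_upwards [hg x, nhdsWithin_le_nhds (eventually_gt_nhds hx)] with y h1 h2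
    exact hR y h2 h1

end TH960.PL
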