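import Pool.Agent.TH960.PL.Core2

/-! Compactly supported homeomorphisms are commutators on a larger interval. -/

namespace TH960.PL

open Filter Topology Set

theorem compact_comm {g : ℝ ≃o ℝ} {γ sl ε : ℝ} (g0 : 0 < γ) (g1 : γ < 1) (hε : 0 < ε)
    (hsl : ∀ x ≤ sl, g x = x) (hpos : ∀ x, 0 ≤ x → g x = x)
    (hγ : ∀ x, -ε ≤ x → x ≤ 0 → g x = γ * x) (hg : PLf g) :
    ∃ (P Q : ℝ) (a h : ℝ ≃o ℝ), P < sl ∧ 0 < Q ∧ PLf a ∧ PLf h ∧ a P = P ∧ a Q = Q ∧
      h P = P ∧ h Q = Q ∧ ∀ x, P ≤ x → x ≤ Q → h (a x) = a ((g⁻¹ : ℝ ≃o ℝ) (h x)) := by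
  classical
  obtain ⟨z1, hz1⟩ : ∃ z1, z1 = -ε / 2 := ⟨_, rfl⟩
  have hz10 : z1 < 0 := by rw [hz1]; linarith
  have hz1ε : -ε ≤ z1 := by rw [hz1]; linarith
  have hgz1 : g z1 = γ * z1 := hγ z1 hz1ε hz10.le
  have hzz : z1 < γ * z1 := by nlinarith
  have hslz : sl < z1 := by
    by_contra h
    push Not at h
    have := hsl z1 h
    rw [hgz1] at this
    linarith
  obtain ⟨P, hP⟩ : ∃ P, P = sl - 1 := ⟨_, rfl⟩
  obtain ⟨lam, hlam⟩ : ∃ lam, lam = γ * z1 - P + 1 := ⟨_, rfl⟩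
  have hlam1 : 1 < lam := by rw [hlam]; linarith
  -- choose mu
  have hmuex : ∃ mu : ℝ, 0 < mu ∧ mu < 1 ∧ z1 < γ * z1 + mu * (sl - γ * z1) ∧
      z1 + mu * ((1 - mu) * (γ * z1 - z1) - z1) < γ * z1 + mu * (sl - γ * z1) := by
    have e1 : ∀ᶠ mu in 𝓝[>] (0:ℝ), mu < 1 :=
      nhdsWithin_le_nhds (eventually_lt_nhds one_pos)
    have e2 : ∀ᶠ mu in 𝓝[>] (0:ℝ), z1 < γ * z1 + mu * (sl - γ * z1) := by
      have : Tendsto (fun mu : ℝ => γ * z1 + mu * (sl - γ * z1)) (𝓝[>] 0) (𝓝 (γ * z1)) :=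
        (Continuous.tendsto' (by fun_prop) _ _ (by simp)).mono_left nhdsWithin_le_nhds
      exact this.eventually (eventually_gt_nhds hzz)
    have e3 : ∀ᶠ mu in 𝓝[>] (0:ℝ),
        0 < (γ * z1 + mu * (sl - γ * z1)) - (z1 + mu * ((1 - mu) * (γ * z1 - z1) - z1)) := by
      have : Tendsto (fun mu : ℝ => (γ * z1 + mu * (sl - γ * z1)) -
          (z1 + mu * ((1 - mu) * (γ * z1 - z1) - z1))) (𝓝[>] 0) (𝓝 (γ * z1 - z1)) :=
        (Continuous.tendsto' (by fun_prop) _ _ (by simp)).mono_left nhdsWithin_le_nhds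
      exact this.eventually (eventually_gt_nhds (by linarith))
    have e4 : ∀ᶠ mu in 𝓝[>] (0:ℝ), 0 < mu := eventually_mem_nhdsWithin
    obtain ⟨mu, h1, h2, h3, h4⟩ := (e4.and (e1.and (e2.and e3))).exists
    exact ⟨mu, h1, h2, h3, by linarith⟩
  obtain ⟨mu, mu0, mu1, hmuA, hmuB⟩ := hmuex
  have hgt0 : g 0 = (aff 0 0 γ g0) 0 := by rw [hpos 0 le_rfl, aff_apply]; ring
  obtain ⟨gt, hgt⟩ : ∃ gt, gt = glue g (aff 0 0 γ g0) 0 hgt0 := ⟨_, rfl⟩
  have gtpl : PLf gt := by rw [hgt]; exact glue_plf _ hg (plf_aff _ _ _ _)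
  have gtL : ∀ x ≤ 0, gt x = g x := fun x hx => by rw [hgt, glue_le hgt0 hx]
  have gtR : ∀ x, -ε ≤ x → gt x = γ * x := by
    intro x hx
    rcases le_total x 0 with h | h
    · rw [gtL x h, hγ x hx h]
    · rw [hgt, glue_ge hgt0 h, aff_apply]; ring
  have gtiL : ∀ y ≤ sl, (gt⁻¹ : ℝ ≃o ℝ) y = y := by
    intro y hy
    have h1 : gt y = y := by rw [gtL y (by linarith), hsl y hy]
    conv_lhs => rw [← h1, inv_apply]
  have gtiR : ∀ y, γ * z1 ≤ y → (gt⁻¹ : ℝ ≃o ℝ) y = y / γ := by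
    intro y hy
    have h1 : gt (y / γ) = y := by
      rw [gtR]
      · field_simp
      · refine hz1ε.trans ?_
        rw [le_div_iff₀ g0]; linarith
    conv_lhs => rw [← h1, inv_apply]
  obtain ⟨B, hB⟩ : ∃ B, B = aff (γ * z1) (γ * z1) mu mu0 := ⟨_, rfl⟩
  have Ba : ∀ x, B x = γ * z1 + mu * (x - γ * z1) := fun x => by rw [hB, aff_apply]
  have Bpl : PLf B := by rw [hB]; exact plf_aff _ _ _ _
  have Bi : ∀ x, (B⁻¹ : ℝ ≃o ℝ) x = γ * z1 + (x - γ * z1) / mu := by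
    intro x
    have h1 : B (γ * z1 + (x - γ * z1) / mu) = x := by rw [Ba]; field_simp; ring
    conv_lhs => rw [← h1, inv_apply]
  have hBsl1 : z1 < B sl := by rw [Ba]; exact hmuA
  have hslB : sl ≤ B sl := by rw [Ba]; nlinarith
  obtain ⟨h0, hh0⟩ : ∃ h0, h0 = B * gt⁻¹ * B⁻¹ := ⟨_, rfl⟩
  have h0a : ∀ x, h0 x = B ((gt⁻¹ : ℝ ≃o ℝ) ((B⁻¹ : ℝ ≃o ℝ) x)) := fun x => by
    rw [hh0]; rfl
  have h0pl : PLf h0 := by rw [hh0]; exact (Bpl.mul gtpl.inv).mul Bpl.inv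
  have h0L : ∀ x ≤ B sl, h0 x = x := by
    intro x hx
    have h1 : (B⁻¹ : ℝ ≃o ℝ) x ≤ sl := by
      rw [← inv_apply B sl]; exact (B⁻¹ : ℝ ≃o ℝ).monotone hx
    rw [h0a, gtiL _ h1, apply_inv]
  have h0R : ∀ x, γ * z1 ≤ x → h0 x = γ * z1 + mu * ((γ * z1 + (x - γ * z1) / mu) / γ - γ * z1) := by
    intro x hx
    have h1 : γ * z1 ≤ (B⁻¹ : ℝ ≃o ℝ) x := by
      rw [Bi]
      have : 0 ≤ (x - γ * z1) / mu := div_nonneg (by linarith) mu0.le
      linarith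
    rw [h0a, gtiR _ h1, Bi, Ba]
  have h0z1 : h0 z1 = z1 := h0L z1 hBsl1.le
  have h0q : h0 (γ * z1) = B z1 := by
    rw [h0R _ le_rfl, Ba]; field_simp; ring
  have hD : 0 < lam - mu := by linarith
  obtain ⟨y1, hy1⟩ : ∃ y1, y1 = (γ * z1 * (1 - mu) + P * (lam - 1)) / (lam - mu) := ⟨_, rfl⟩
  have hy1E : y1 * (lam - mu) = γ * z1 * (1 - mu) + P * (lam - 1) := by
    rw [hy1, div_mul_cancel₀ _ hD.ne']
  have hy1sl : y1 < sl := by
    rw [hy1, div_lt_iff₀ hD]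
    have : lam * (sl - P) = γ * z1 - P + 1 := by rw [hP]; rw [hlam, hP]; ring
    nlinarith
  have hl0 : 0 < lam := by linarith
  have hgb : (aff P P lam hl0) y1 = B y1 := by
    rw [aff_apply, Ba]; linear_combination hy1E
  obtain ⟨b, hb⟩ : ∃ b, b = glue (aff P P lam hl0) B y1 hgb := ⟨_, rfl⟩
  have bpl : PLf b := by rw [hb]; exact glue_plf _ (plf_aff _ _ _ _) Bpl
  have bL : ∀ x ≤ y1, b x = P + lam * (x - P) := fun x hx => by
    rw [hb, glue_le hgb hx, aff_apply]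
  have bR : ∀ x, y1 ≤ x → b x = B x := fun x hx => by rw [hb, glue_ge hgb hx]
  have hPy1 : P < y1 := by
    have h1 : P * (lam - mu) < y1 * (lam - mu) := by rw [hy1E]; nlinarith
    exact lt_of_mul_lt_mul_right h1 hD.le
  have bP : b P = P := by rw [bL P hPy1.le]; ring
  -- the key conjugacy relation
  have hclaim : ∀ x, x ≤ z1 → h0 (b (g x)) = b (h0 x) := by
    intro x hx
    rcases le_total x sl with h1 | h1
    · rw [hsl x h1, h0L x (h1.trans hslB)]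
      apply h0L
      have := b.monotone h1
      rwa [bR sl hy1sl.le] at this
    · have h2 : sl ≤ g x := by rw [← hsl sl le_rfl]; exact g.monotone h1
      rw [bR _ (hy1sl.le.trans h2), h0L x (hx.trans hBsl1.le), bR _ (hy1sl.le.trans h1), h0a,
        inv_apply, ← gtL x (hx.trans hz10.le), inv_apply]
  have F : Fin γ z1 mu 1 h0 b := by
    refine ⟨g0, g1, hz10, mu0, mu1, one_pos, h0pl, bpl, ?_, ?_, ?_, ?_, ?_, ?_⟩
    · intro x hx
      rw [h0R x hx, h0R _ le_rfl]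
      field_simp
      ring
    · refine ⟨B sl, hBsl1, fun x hx hx2 => ?_⟩
      rw [h0L x hx2, h0z1]; ring
    · intro y hy
      rw [h0z1] at hy
      rw [bR y (by linarith), Ba]
    · rw [h0z1, bR z1 (by linarith), h0q]
    · rw [h0z1]; exact hzz
    · intro x hx hx0
      rw [h0z1, div_one]
      rcases le_total x (B sl) with h1 | h1
      · rw [h0L x h1]; nlinarith
      · have h2 : h0 x ≤ h0 0 := h0.monotone hx0
        have h3 : h0 0 = (1 - mu) * (γ * z1 - z1) := by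
          rw [h0R 0 (by nlinarith)]; field_simp; ring
        rw [h3] at h2
        have h4 : mu * (h0 x - z1) ≤ mu * ((1 - mu) * (γ * z1 - z1) - z1) :=
          mul_le_mul_of_nonneg_left (by linarith) mu0.le
        rw [Ba] at h1
        linarith
  have hfin := finite_breaks h0pl z1 (γ * z1)
  obtain ⟨sh, Ψh, V, hSt, -, hΨh⟩ := F.exists_state hfin.toFinset hfin.toFinset (by
    intro x hx hx2 hxW
    by_contra hcon
    apply hxW
    simp only [Set.Finite.mem_toFinset]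
    exact ⟨⟨hx.le, hx2⟩, hcon⟩) (fun w hw => Or.inl hw)
  have hC := core g0 g1 _ _ _ _ _ _ _ hSt le_rfl
  obtain ⟨Q, a, h, hQ, hapl, hhpl, haQ, hhQ, hA, hH, hR⟩ := F.transfer hSt hΨh hC
  have hPz1 : P < z1 := by rw [hP]; linarith
  have hz1p : z1 ≤ F.p' := (F.zlt.trans F.p_gt).le
  have hPp : P ≤ F.p' := hPz1.le.trans hz1p
  have h0P : h0 P = P := h0L P (by rw [hP]; linarith)
  have haP : a P = P := by
    apply h0.injective
    rw [hA P hPp, h0P, bP]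
  have hgP : g P = P := hsl P (by rw [hP]; linarith)
  have hgiP : (g⁻¹ : ℝ ≃o ℝ) P = P := by conv_lhs => rw [← hgP, inv_apply]
  have hgiq : (g⁻¹ : ℝ ≃o ℝ) (γ * z1) = z1 := by rw [← hgz1, inv_apply]
  refine ⟨P, Q, a, h, by rw [hP]; linarith, hQ, hapl, hhpl, haP, haQ, ?_, hhQ, ?_⟩
  · rw [hH P hPp, h0P]
  · intro x hx hxQ
    rcases le_total x F.p' with h1 | h1
    · have hax : a x ≤ F.p' := by
        have h2 : h0 (a x) ≤ h0 F.p' := by
          rw [hA x h1, F.h0p]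
          have h3 : b (h0 x) ≤ b (h0 F.p') := b.monotone (h0.monotone h1)
          rw [F.h0p, F.hb _ F.hlt.le] at h3
          linarith
        exact h0.le_iff_le.1 h2
      rw [hH _ hax, hA x h1, hH x h1]
      have hy1' : P ≤ h0 x := by rw [← h0P]; exact h0.monotone hx
      have hy2 : h0 x ≤ γ * z1 := by rw [← F.h0p]; exact h0.monotone h1
      have ht2 : (g⁻¹ : ℝ ≃o ℝ) (h0 x) ≤ z1 := by
        rw [← hgiq]; exact (g⁻¹ : ℝ ≃o ℝ).monotone hy2
      have h4 := hclaim _ ht2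
      have h5 := hA ((g⁻¹ : ℝ ≃o ℝ) (h0 x)) (ht2.trans hz1p)
      rw [← h4] at h5
      have h6 := h0.injective h5
      rw [h6, apply_inv]
    · rw [hR x h1 hxQ]
      congr 1
      have hy : γ * z1 ≤ h x := by
        rw [← F.h0p, ← hH _ le_rfl]; exact h.monotone h1
      rcases le_total (h x) 0 with h2 | h2
      · rw [G_inv_neg g0 h2]
        have h3 : g (h x / γ) = h x := by
          rw [hγ]
          · field_simp
          · refine hz1ε.trans ?_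
            rw [le_div_iff₀ g0]; linarith
          · exact div_nonpos_of_nonpos_of_nonneg h2 g0.le
        conv_rhs => rw [← h3, inv_apply]
      · rw [G_inv_pos g0 h2]
        conv_rhs => rw [← hpos _ h2, inv_apply]

end TH960.PL
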