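import Pool.Agent.TH960.PL.Germs

/-! Gluing along a bi-infinite sequence; reversible elements. -/

namespace TH960.PL

open Filter Topology Set

theorem exists_index {Q : ℤ → ℝ} (hQ : StrictMono Q) (htop : ∀ y, ∃ n, y < Q n)
    (hbot : ∀ y, ∃ n, Q n ≤ y) (y : ℝ) : ∃ n, Q n ≤ y ∧ y < Q (n + 1) := by
  obtain ⟨m, hm⟩ := htop y
  obtain ⟨n, hn1, hn2⟩ := Int.exists_greatest_of_bdd (P := fun k => Q k ≤ y)
    ⟨m, fun k hk => by
      by_contra h
      push Not at h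
      have := hQ h
      linarith⟩ (hbot y)
  refine ⟨n, hn1, ?_⟩
  by_contra h
  push Not at h
  have := hn2 (n + 1) h
  omega

theorem zglue (P : ℤ → ℝ) (hP : StrictMono P) (hPtop : ∀ y, ∃ n, y < P n)
    (hPbot : ∀ y, ∃ n, P n ≤ y) (F : ℤ → (ℝ ≃o ℝ))
    (hF : ∀ n, F n (P (n + 1)) = F (n + 1) (P (n + 1)))
    (htop : ∀ y, ∃ n, y < F n (P n)) (hbot : ∀ y, ∃ n, F n (P n) ≤ y) :
    ∃ H : ℝ ≃o ℝ, (∀ n x, P n ≤ x → x ≤ P (n + 1) → H x = F n x) ∧
      ((∀ n, PLf (F n)) → PLf H) := by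
  classical
  have hQ : StrictMono (fun n => F n (P n)) := by
    apply strictMono_int_of_lt_succ
    intro n
    rw [← hF]
    exact (F n).strictMono (hP (lt_add_one n))
  choose idx hidx1 hidx2 using exists_index hP hPtop hPbot
  have huniq : ∀ n x, P n ≤ x → x < P (n + 1) → idx x = n := by
    intro n x h1 h2
    have h3 : n < idx x + 1 := hP.lt_iff_lt.1 (h1.trans_lt (hidx2 x))
    have h4 : idx x < n + 1 := hP.lt_iff_lt.1 ((hidx1 x).trans_lt h2)
    omega
  set H : ℝ → ℝ := fun x => F (idx x) x with hH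
  have hmono : StrictMono H := by
    intro x y hxy
    have h1 : idx x ≤ idx y := by
      by_contra h
      push Not at h
      have h2 : P (idx y + 1) ≤ P (idx x) := hP.monotone (by omega)
      have h3 := hidx1 x
      have h4 := hidx2 y
      linarith
    rcases eq_or_lt_of_le h1 with h2 | h2
    · simp only [hH]
      rw [h2]; exact (F (idx y)).strictMono hxy
    · simp only [hH]
      calc F (idx x) x < F (idx x) (P (idx x + 1)) := (F _).strictMono (hidx2 x)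
        _ = F (idx x + 1) (P (idx x + 1)) := hF _
        _ ≤ F (idx y) (P (idx y)) := hQ.monotone (by omega)
        _ ≤ F (idx y) y := (F _).monotone (hidx1 y)
  have hsurj : Function.Surjective H := by
    intro y
    obtain ⟨n, h1, h2⟩ := exists_index hQ htop hbot y
    refine ⟨(F n)⁻¹ y, ?_⟩
    have h3 : P n ≤ (F n)⁻¹ y := by
      rw [← inv_apply (F n) (P n)]; exact (F n)⁻¹.monotone h1
    have h4 : (F n)⁻¹ y < P (n + 1) := by
      rw [← inv_apply (F n) (P (n + 1))]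
      apply (F n)⁻¹.strictMono
      rw [hF]; exact h2
    simp only [hH]
    rw [huniq n _ h3 h4, apply_inv]
  have hval : ∀ n x, P n ≤ x → x ≤ P (n + 1) → H x = F n x := by
    intro n x h1 h2
    rcases lt_or_eq_of_le h2 with h3 | h3
    · simp only [hH]
      rw [huniq n x h1 h3]
    · simp only [hH]
      have h4 : idx x = n + 1 := huniq (n + 1) x h3.ge (by rw [h3]; exact hP (by omega))
      rw [h4, h3, hF]
  refine ⟨StrictMono.orderIsoOfSurjective H hmono hsurj, hval, ?_⟩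
  intro hpl
  have hloc : ∀ n x, P n < x → x < P (n + 1) → LocAff (F n) x → LocAff H x := by
    intro n x h1 h2 h3
    refine h3.congr ?_
    filter_upwards [eventually_gt_nhds h1, eventually_lt_nhds h2] with t h4 h5
    exact hval n t h4.le h5.le
  change PLf H
  intro x
  obtain ⟨n, h1, h2⟩ := exists_index hP hPtop hPbot x
  rcases lt_or_eq_of_le h1 with h3 | h3
  · filter_upwards [hpl n x, nhdsWithin_le_nhds (eventually_gt_nhds h3),
      nhdsWithin_le_nhds (eventually_lt_nhds h2)] with y h4 h5 h6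
    exact hloc n y h5 h6 h4
  · subst h3
    have h3 : P (n - 1) < P n := hP (by omega)
    filter_upwards [hpl n (P n), hpl (n - 1) (P n), nhdsWithin_le_nhds (eventually_gt_nhds h3),
      nhdsWithin_le_nhds (eventually_lt_nhds h2), self_mem_nhdsWithin] with y h4 h5 h6 h7 h8
    rcases lt_or_gt_of_ne h8 with h9 | h9
    · exact hloc (n - 1) y h6 (by simpa using h9) h5
    · exact hloc n y h9 h7 h4

/-- reversible in the group of piecewise affine increasing homeomorphisms -/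
def Rev (f : ℝ ≃o ℝ) : Prop := ∃ h : ℝ ≃o ℝ, PLf h ∧ h * f * h⁻¹ = f⁻¹

def Two (g : ℝ ≃o ℝ) : Prop := ∃ r1 r2 : ℝ ≃o ℝ, PLf r1 ∧ PLf r2 ∧ Rev r1 ∧ Rev r2 ∧ g = r1 * r2

theorem rev_of_eq {f h : ℝ ≃o ℝ} (hh : PLf h) (H : ∀ x, f (h (f x)) = h x) : Rev f := by
  refine ⟨h, hh, ?_⟩
  have h1 : f * h * f = h := by ext x; exact H x
  have h2 : f * (h * f * h⁻¹) = 1 := by
    calc f * (h * f * h⁻¹) = (f * h * f) * h⁻¹ := by group
      _ = 1 := by rw [h1]; group
  exact eq_inv_of_mul_eq_one_right h2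

theorem Rev.inv {f : ℝ ≃o ℝ} (hf : Rev f) : Rev f⁻¹ := by
  obtain ⟨h, h1, h2⟩ := hf
  refine ⟨h, h1, ?_⟩
  have : (h * f * h⁻¹)⁻¹ = f⁻¹⁻¹ := by rw [h2]
  rw [← this]; group

theorem Rev.conj {f k : ℝ ≃o ℝ} (hf : Rev f) (hk : PLf k) : Rev (k * f * k⁻¹) := by
  obtain ⟨h, h1, h2⟩ := hf
  refine ⟨k * h * k⁻¹, (hk.mul h1).mul hk.inv, ?_⟩
  have : (k * h * k⁻¹) * (k * f * k⁻¹) * (k * h * k⁻¹)⁻¹ = k * (h * f * h⁻¹) * k⁻¹ := by group
  rw [this, h2]; group

theorem Two.inv {g : ℝ ≃o ℝ} (hg : Two g) : Two g⁻¹ := by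
  obtain ⟨r1, r2, h1, h2, h3, h4, rfl⟩ := hg
  exact ⟨r2⁻¹, r1⁻¹, h2.inv, h1.inv, h4.inv, h3.inv, by group⟩

theorem Two.conj {g k : ℝ ≃o ℝ} (hg : Two g) (hk : PLf k) : Two (k * g * k⁻¹) := by
  obtain ⟨r1, r2, h1, h2, h3, h4, rfl⟩ := hg
  exact ⟨k * r1 * k⁻¹, k * r2 * k⁻¹, (hk.mul h1).mul hk.inv, (hk.mul h2).mul hk.inv,
    h3.conj hk, h4.conj hk, by group⟩

end TH960.PL
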