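import Pool.Agent.TH960.PL.Compact
import Pool.Agent.TH960.PL.ZGlue

/-! Compactly supported elements are products of two reversible elements. -/

namespace TH960.PL

open Filter Topology Set

theorem periodic_ext {a : ℝ ≃o ℝ} (ha : PLf a) {P Q : ℝ} (hPQ : P < Q) (haP : a P = P)
    (haQ : a Q = Q) : ∃ f : ℝ ≃o ℝ, PLf f ∧ Rev f ∧ ∀ x, P ≤ x → x ≤ Q → f x = a x := by
  classical
  set L := Q - P with hL
  have hL0 : 0 < L := by rw [hL]; linarith
  have haP' : (a⁻¹ : ℝ ≃o ℝ) P = P := by conv_lhs => rw [← haP, inv_apply]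
  have haQ' : (a⁻¹ : ℝ ≃o ℝ) Q = Q := by conv_lhs => rw [← haQ, inv_apply]
  set A : ℤ → (ℝ ≃o ℝ) := fun n => if Even n then a else a⁻¹ with hA
  have hAP : ∀ n, A n P = P := by
    intro n; simp only [hA]; split_ifs <;> assumption
  have hAQ : ∀ n, A n Q = Q := by
    intro n; simp only [hA]; split_ifs <;> assumption
  have hApl : ∀ n, PLf (A n) := by
    intro n; simp only [hA]; split_ifs
    · exact ha
    · exact ha.inv
  have hAA : ∀ n x, A (n + 1) (A n x) = x := by
    intro n x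
    simp only [hA]
    by_cases h : Even n
    · have h2 : ¬ Even (n + 1) := by rw [Int.even_add_one]; exact fun h' => h' h
      rw [if_pos h, if_neg h2, inv_apply]
    · have h2 : Even (n + 1) := by rw [Int.even_add_one]; exact h
      rw [if_neg h, if_pos h2, apply_inv]
  set F : ℤ → (ℝ ≃o ℝ) := fun n => aff 0 (n * L) 1 one_pos * A n * aff 0 (-(n * L)) 1 one_pos
    with hF
  have hFa : ∀ n x, F n x = n * L + A n (x - n * L) := by
    intro n x
    simp only [hF, mulapp, aff_apply]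
    have : -(n * L) + 1 * (x - 0) = x - n * L := by ring
    rw [this]; ring
  have hFpl : ∀ n, PLf (F n) := fun n => ((plf_aff _ _ _ _).mul (hApl n)).mul (plf_aff _ _ _ _)
  set Pn : ℤ → ℝ := fun n => P + n * L with hPn
  have hPmono : StrictMono Pn := by
    apply strictMono_int_of_lt_succ
    intro n; simp only [hPn]; push_cast; linarith
  have hPtop : ∀ y, ∃ n, y < Pn n := by
    intro y
    obtain ⟨n, hn⟩ := exists_int_gt ((y - P) / L)
    refine ⟨n, ?_⟩
    rw [div_lt_iff₀ hL0] at hn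
    simp only [hPn]; linarith
  have hPbot : ∀ y, ∃ n, Pn n ≤ y := by
    intro y
    obtain ⟨n, hn⟩ := exists_int_lt ((y - P) / L)
    refine ⟨n, ?_⟩
    rw [lt_div_iff₀ hL0] at hn
    simp only [hPn]; linarith
  have hF1 : ∀ n, F n (Pn n) = Pn n := by
    intro n
    rw [hFa]
    have : Pn n - n * L = P := by simp only [hPn]; ring
    rw [this, hAP]; simp only [hPn]; ring
  have hF2 : ∀ n, F n (Pn (n + 1)) = Pn (n + 1) := by
    intro n
    rw [hFa]
    have : Pn (n + 1) - n * L = Q := by simp only [hPn, hL]; push_cast; ring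
    rw [this, hAQ]; simp only [hPn, hL]; push_cast; ring
  obtain ⟨f, hf1, hf2⟩ := zglue Pn hPmono hPtop hPbot F (fun n => by rw [hF2, hF1])
    (fun y => by obtain ⟨n, hn⟩ := hPtop y; exact ⟨n, by rw [hF1]; exact hn⟩)
    (fun y => by obtain ⟨n, hn⟩ := hPbot y; exact ⟨n, by rw [hF1]; exact hn⟩)
  refine ⟨f, hf2 hFpl, ?_, ?_⟩
  · apply rev_of_eq (h := aff 0 L 1 one_pos) (plf_aff _ _ _ _)
    intro x
    simp only [aff_apply]
    obtain ⟨n, h1, h2⟩ := exists_index hPmono hPtop hPbot x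
    have h3 : f x = F n x := hf1 n x h1 h2.le
    have h4 : Pn n ≤ F n x := by rw [← hF1 n]; exact (F n).monotone h1
    have h5 : F n x ≤ Pn (n + 1) := by rw [← hF2 n]; exact (F n).monotone h2.le
    have e1 : Pn (n + 1) = Pn n + L := by simp only [hPn]; push_cast; ring
    have e2 : Pn (n + 1 + 1) = Pn (n + 1) + L := by simp only [hPn]; push_cast; ring
    rw [h3, hf1 (n + 1) _ (by linarith) (by linarith), hFa]
    have e3 : L + 1 * (F n x - 0) - ((n + 1 : ℤ) : ℝ) * L = A n (x - n * L) := by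
      rw [hFa]; push_cast; ring
    rw [e3, hAA]; push_cast; ring
  · intro x h1 h2
    have e0 : Pn 0 = P := by simp [hPn]
    have e1 : Pn (0 + 1) = Q := by simp [hPn, hL]
    rw [hf1 0 x (by rw [e0]; exact h1) (by rw [e1]; exact h2), hFa]
    simp [hA]

theorem two_of_comm {g a h : ℝ ≃o ℝ} {P Q : ℝ} (hg : PLf g) (ha : PLf a) (hh : PLf h) (hPQ : P < Q)
    (hgL : ∀ x ≤ P, g x = x) (hgR : ∀ x, Q ≤ x → g x = x)
    (haP : a P = P) (haQ : a Q = Q) (hhP : h P = P) (hhQ : h Q = Q)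
    (H : ∀ x, P ≤ x → x ≤ Q → h (a x) = a ((g⁻¹ : ℝ ≃o ℝ) (h x))) : Two g := by
  obtain ⟨f, hf, hrev, hfa⟩ := periodic_ext ha hPQ haP haQ
  -- extend h by the identity
  have e1 : (1 : ℝ ≃o ℝ) P = h P := by rw [hhP]; rfl
  have e2 : (glue 1 h P e1) Q = (1 : ℝ ≃o ℝ) Q := by rw [glue_ge e1 hPQ.le, hhQ]; rfl
  set k := glue (glue 1 h P e1) 1 Q e2 with hk
  have hkpl : PLf k := glue_plf _ (glue_plf _ PLf.one hh) PLf.one
  have kL : ∀ x ≤ P, k x = x := by
    intro x hx
    rw [hk, glue_le e2 (hx.trans hPQ.le), glue_le e1 hx]; rfl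
  have kM : ∀ x, P ≤ x → x ≤ Q → k x = h x := by
    intro x h1 h2
    rw [hk, glue_le e2 h2, glue_ge e1 h1]
  have kR : ∀ x, Q ≤ x → k x = x := by
    intro x hx
    rw [hk, glue_ge e2 hx]; rfl
  have hfP : f P = P := by rw [hfa P le_rfl hPQ.le, haP]
  have hfQ : f Q = Q := by rw [hfa Q hPQ.le le_rfl, haQ]
  -- claim : k f = f g⁻¹ k, i.e. g = f⁻¹... 
  have hkey : k * f = f * g⁻¹ * k := by
    ext x
    simp only [mulapp]
    have hgiL : ∀ x ≤ P, (g⁻¹ : ℝ ≃o ℝ) x = x := fun x hx => by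
      conv_lhs => rw [← hgL x hx, inv_apply]
    have hgiR : ∀ x, Q ≤ x → (g⁻¹ : ℝ ≃o ℝ) x = x := fun x hx => by
      conv_lhs => rw [← hgR x hx, inv_apply]
    rcases le_total x P with h1 | h1
    · have h2 : f x ≤ P := by rw [← hfP]; exact f.monotone h1
      rw [kL x h1, kL _ h2, hgiL x h1]
    rcases le_total x Q with h2 | h2
    · have h3 : P ≤ f x := by rw [← hfP]; exact f.monotone h1
      have h4 : f x ≤ Q := by rw [← hfQ]; exact f.monotone h2
      rw [kM x h1 h2, kM _ h3 h4]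
      have h5 : P ≤ h x := by rw [← hhP]; exact h.monotone h1
      have h6 : h x ≤ Q := by rw [← hhQ]; exact h.monotone h2
      have h7 : P ≤ (g⁻¹ : ℝ ≃o ℝ) (h x) := by
        rw [← hgiL P le_rfl]; exact (g⁻¹ : ℝ ≃o ℝ).monotone h5
      have h8 : (g⁻¹ : ℝ ≃o ℝ) (h x) ≤ Q := by
        rw [← hgiR Q le_rfl]; exact (g⁻¹ : ℝ ≃o ℝ).monotone h6
      rw [hfa x h1 h2, hfa _ h7 h8, H x h1 h2]
    · have h3 : Q ≤ f x := by rw [← hfQ]; exact f.monotone h2
      rw [kR x h2, kR _ h3, hgiR x h2]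
  have hg2 : g = (k * f⁻¹ * k⁻¹) * f := by
    have : k * f * k⁻¹ = f * g⁻¹ := by rw [hkey]; group
    calc g = (f * g⁻¹)⁻¹ * f := by group
      _ = (k * f * k⁻¹)⁻¹ * f := by rw [this]
      _ = (k * f⁻¹ * k⁻¹) * f := by group
  exact ⟨k * f⁻¹ * k⁻¹, f, (hkpl.mul hf.inv).mul hkpl.inv, hf, hrev.inv.conj hkpl, hrev, hg2⟩

end TH960.PL

namespace TH960.PL

open Filter Topology Set

theorem Two.one : Two 1 :=
  ⟨1, 1, PLf.one, PLf.one, ⟨1, PLf.one, by group⟩, ⟨1, PLf.one, by group⟩, by group⟩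

theorem two_of_germ {g : ℝ ≃o ℝ} {γ R t y : ℝ} (hg : PLf g) (g0 : 0 < γ) (g1 : γ < 1)
    (hL : ∀ x ≤ R, g x = x) (hR : ∀ x, t ≤ x → g x = x) (hyt : y < t)
    (hγ : ∀ x, y ≤ x → x ≤ t → g x = t + γ * (x - t)) : Two g := by
  set k := aff 0 t 1 one_pos with hk
  have ka : ∀ x, k x = t + x := fun x => by rw [hk, aff_apply]; ring
  have ki : ∀ x, (k⁻¹ : ℝ ≃o ℝ) x = x - t := by
    intro x
    have h1 : k (x - t) = x := by rw [ka]; ring
    conv_lhs => rw [← h1, inv_apply]
  have kpl : PLf k := plf_aff _ _ _ _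
  set g' := k⁻¹ * g * k with hg'
  have ga : ∀ x, g' x = g (t + x) - t := by
    intro x; simp only [hg', mulapp]; rw [ka, ki]
  have gpl : PLf g' := (kpl.inv.mul hg).mul kpl
  have h1 : Two g' := by
    obtain ⟨P, Q, a, h, hP, hQ, hapl, hhpl, haP, haQ, hhP, hhQ, H⟩ :=
      compact_comm (g := g') (γ := γ) (sl := min (R - t) (-1)) (ε := t - y) g0 g1 (by linarith)
        (by
          intro x hx
          have := hx.trans (min_le_left _ _)
          rw [ga, hL _ (by linarith)]; ring)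
        (by intro x hx; rw [ga, hR _ (by linarith)]; ring)
        (by intro x hx hx2; rw [ga, hγ _ (by linarith) (by linarith)]; ring) gpl
    have hP1 : P < -1 := hP.trans_le (min_le_right _ _)
    refine two_of_comm gpl hapl hhpl (by linarith) ?_ ?_ haP haQ hhP hhQ H
    · intro x hx
      have := (hx.trans hP.le).trans (min_le_left _ _)
      rw [ga, hL _ (by linarith)]; ring
    · intro x hx
      rw [ga, hR _ (by linarith)]; ring
  have h2 := h1.conj kpl
  have h3 : k * g' * k⁻¹ = g := by rw [hg']; group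
  rwa [h3] at h2

theorem two_of_compact {g : ℝ ≃o ℝ} {R : ℝ} (hg : PLf g)
    (hL : ∀ x ≤ -R, g x = x) (hR : ∀ x, R ≤ x → g x = x) : Two g := by
  classical
  by_cases h1 : ∀ x, g x = x
  · have : g = 1 := by ext x; exact h1 x
    rw [this]; exact Two.one
  push Not at h1
  obtain ⟨x0, hx0⟩ := h1
  set A : Set ℝ := {x | g x ≠ x} with hA
  have hAne : A.Nonempty := ⟨x0, hx0⟩
  have hAb : BddAbove A := ⟨R, fun x hx => by
    by_contra h
    push Not at h
    exact hx (hR x h.le)⟩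
  set t := sSup A with ht
  have hR1 : ∀ x, t < x → g x = x := by
    intro x hx
    by_contra h
    exact absurd (le_csSup hAb (show x ∈ A from h)) (not_le.2 hx)
  have hR2 : ∀ x, t ≤ x → g x = x := by
    intro x hx
    have hcl : IsClosed {x | g x = x} := isClosed_eq (isoCont g) continuous_id
    have h2 : Icc t (t + 1) ⊆ {x | g x = x} := by
      rw [← closure_Ioc (by linarith : t ≠ t + 1)]
      exact closure_minimal (fun x hx => hR1 x hx.1) hcl
    rcases lt_or_eq_of_le hx with h3 | h3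
    · exact hR1 x h3
    · rw [← h3]; exact h2 ⟨le_rfl, by linarith⟩
  obtain ⟨a, y, hy, hgerm⟩ := left_germ (isoCont g) hg t
  have ha : 0 < a := germ_slope_pos' hy hgerm
  have hgt : g t = t := hR2 t le_rfl
  rw [hgt] at hgerm
  have ha1 : a ≠ 1 := by
    rintro rfl
    have h2 : sSup A ≤ y := by
      apply csSup_le hAne
      intro x hx
      by_contra h
      push Not at h
      apply hx
      rcases le_total x t with h3 | h3
      · rw [hgerm x ⟨h.le, h3⟩]; ring
      · exact hR2 x h3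
    linarith
  rcases lt_or_gt_of_ne ha1 with h2 | h2
  · exact two_of_germ hg ha h2 hL hR2 hy (fun x hx hx2 => hgerm x ⟨hx, hx2⟩)
  · have h3 : Two g⁻¹ := by
      apply two_of_germ (γ := 1 / a) (R := -R) (t := t) (y := g y) hg.inv (by positivity)
      · rw [div_lt_one ha]; exact h2
      · intro x hx
        conv_lhs => rw [← hL x hx, inv_apply]
      · intro x hx
        conv_lhs => rw [← hR2 x hx, inv_apply]
      · rw [← hgt]; exact g.strictMono hy
      · intro x hx hx2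
        have e1 : y ≤ (g⁻¹ : ℝ ≃o ℝ) x := by
          rw [← inv_apply g y]; exact (g⁻¹ : ℝ ≃o ℝ).monotone hx
        have e2 : (g⁻¹ : ℝ ≃o ℝ) x ≤ t := by
          rw [← inv_apply g t, hgt]; exact (g⁻¹ : ℝ ≃o ℝ).monotone hx2
        have e3 := hgerm _ ⟨e1, e2⟩
        rw [apply_inv] at e3
        field_simp
        linarith
    have h4 := h3.inv
    rwa [inv_inv] at h4

end TH960.PL
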