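import Pool.Agent.TH960.PL.Germs

/-! Extending conjugacies, linearization at a repelling fixed point. -/

namespace TH960.PL

open Filter Topology Set

theorem iter_exceeds {f : ℝ ≃o ℝ} {x1 x0 : ℝ}
    (hf : ∀ x, x1 ≤ x → x ≤ x0 → x < f x) : ∃ n : ℕ, x0 ≤ f^[n] x1 := by
  by_cases h10 : x0 ≤ x1
  · exact ⟨0, h10⟩
  push Not at h10
  have hc : ContinuousOn (fun x => f x - x) (Icc x1 x0) :=
    ((isoCont f).sub continuous_id).continuousOn
  obtain ⟨m, hm, hmin⟩ := isCompact_Icc.exists_isMinOn (nonempty_Icc.2 h10.le) hc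
  set δ := f m - m with hδ
  have hδpos : 0 < δ := by
    have := hf m hm.1 hm.2
    rw [hδ]; linarith
  have hstep : ∀ x, x1 ≤ x → x ≤ x0 → x + δ ≤ f x := by
    intro x h1 h2
    have h3 : f m - m ≤ f x - x := hmin ⟨h1, h2⟩
    rw [← hδ] at h3
    linarith
  have key : ∀ n : ℕ, min x0 (x1 + n * δ) ≤ f^[n] x1 := by
    intro n
    induction n with
    | zero => simp
    | succ n ih =>
      rw [Function.iterate_succ_apply']
      have hn : (0:ℝ) ≤ n * δ := by positivity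
      have h1 : f (min x0 (x1 + n * δ)) ≤ f (f^[n] x1) := f.monotone ih
      have h2 := hstep (min x0 (x1 + n * δ)) (le_min h10.le (by linarith)) (min_le_left _ _)
      refine le_trans ?_ (le_trans h2 h1)
      push_cast
      rcases le_total x0 (x1 + n * δ) with h3 | h3
      · rw [min_eq_left h3]
        exact (min_le_left _ _).trans (by linarith)
      · rw [min_eq_right h3]
        exact (min_le_right _ _).trans (by linarith)
  obtain ⟨n, hn⟩ := exists_nat_gt ((x0 - x1) / δ)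
  refine ⟨n, le_trans ?_ (key n)⟩
  rw [div_lt_iff₀ hδpos] at hn
  exact le_min (le_refl _) (by linarith)

theorem conj_iter {f b h1 : ℝ ≃o ℝ} (hf : PLf f) (hb : PLf b) (hh1 : PLf h1) {p x1 : ℝ}
    (hpx1 : p ≤ x1) (hx1 : x1 ≤ f x1)
    (h1eq : ∀ x, p ≤ x → x ≤ x1 → h1 (f x) = b (h1 x)) (n : ℕ) :
    ∃ h : ℝ ≃o ℝ, PLf h ∧ (∀ x ≤ x1, h x = h1 x) ∧
      ∀ x, p ≤ x → x ≤ f^[n] x1 → h (f x) = b (h x) := by
  have hmono : ∀ n : ℕ, x1 ≤ f^[n] x1 := by
    intro n
    induction n with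
    | zero => simp
    | succ n ih =>
      rw [Function.iterate_succ_apply']
      exact hx1.trans (f.monotone ih)
  have hmono2 : ∀ n : ℕ, f^[n] x1 ≤ f (f^[n] x1) := by
    intro n
    induction n with
    | zero => simpa using hx1
    | succ n ih =>
      rw [Function.iterate_succ_apply']
      exact f.monotone ih
  induction n with
  | zero => exact ⟨h1, hh1, fun _ _ => rfl, fun x hx hx2 => h1eq x hx hx2⟩
  | succ n ih =>
    obtain ⟨h, hpl, hh, heq⟩ := ih
    set xn := f^[n] x1 with hxn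
    have hpx : p ≤ xn := hpx1.trans (hmono n)
    have hg : h (f xn) = (b * h * f⁻¹) (f xn) := by
      simp only [mulapp, inv_apply]
      exact heq xn hpx (le_refl _)
    refine ⟨glue h (b * h * f⁻¹) (f xn) hg, glue_plf hg hpl ((hb.mul hpl).mul hf.inv), ?_, ?_⟩
    · intro x hx
      rw [glue_le hg, hh x hx]
      exact hx.trans ((hmono n).trans (hmono2 n))
    · intro x hx1' hx2
      rw [Function.iterate_succ_apply', ← hxn] at hx2
      rw [glue_le hg hx2]
      rcases le_total x xn with h3 | h3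
      · rw [glue_le hg (f.monotone h3)]
        exact heq x hx1' h3
      · rw [glue_ge hg (f.monotone h3)]
        simp only [mulapp, inv_apply]

/-- Extension of a conjugacy defined near the left end of a region where `f > id`. -/
theorem conj_extend {f b h1 : ℝ ≃o ℝ} (hf : PLf f) (hb : PLf b) (hh1 : PLf h1) {p x1 x0 : ℝ}
    (hpx1 : p ≤ x1) (hx1 : x1 ≤ f x1) (hfx : ∀ x, x1 ≤ x → x ≤ x0 → x < f x)
    (h1eq : ∀ x, p ≤ x → x ≤ x1 → h1 (f x) = b (h1 x)) :
    ∃ h : ℝ ≃o ℝ, PLf h ∧ (∀ x ≤ x1, h x = h1 x) ∧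
      ∀ x, p ≤ x → x ≤ x0 → h (f x) = b (h x) := by
  obtain ⟨n, hn⟩ := iter_exceeds hfx
  obtain ⟨h, h2, h3, h4⟩ := conj_iter hf hb hh1 hpx1 hx1 h1eq n
  exact ⟨h, h2, h3, fun x hx hx2 => h4 x hx (hx2.trans hn)⟩

/-- Linearization at a repelling fixed point (to the right). -/
theorem linearize {f : ℝ ≃o ℝ} (hf : PLf f) {p x0 y lam : ℝ} (hlam : 1 < lam) (hy : p < y)
    (hlin : ∀ x, p ≤ x → x ≤ y → f x = p + lam * (x - p))
    (hfx : ∀ x, p < x → x ≤ x0 → x < f x) :
    ∃ φ : ℝ ≃o ℝ, PLf φ ∧ (∀ x ≤ y, φ x = x - p) ∧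
      ∀ x, p ≤ x → x ≤ x0 → φ (f x) = lam * φ x := by
  have hl0 : 0 < lam := by linarith
  obtain ⟨φ, h3, h4, h5⟩ := conj_extend (p := p) (x1 := y) (x0 := x0) hf
    (plf_aff 0 0 lam hl0) (plf_aff p 0 1 one_pos) hy.le
    (by rw [hlin y hy.le le_rfl]; nlinarith)
    (fun x hx hx2 => hfx x (lt_of_lt_of_le hy hx) hx2)
    (by
      intro x hx hx2
      rw [hlin x hx hx2]
      simp only [aff_apply]; ring)
  refine ⟨φ, h3, fun x hx => by rw [h4 x hx, aff_apply]; ring, fun x hx hx2 => ?_⟩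
  rw [h5 x hx hx2, aff_apply]; ring

end TH960.PL
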