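import Pool.Agent.TH960.PL.Step

/-! The base case and the induction on the number of breaks. -/

namespace TH960.PL

open Filter Topology Set

theorem State.nonempty {γ p z lam s : ℝ} {Ψ : ℝ ≃o ℝ} {W : Finset ℝ} (g0 : 0 < γ) (g1 : γ < 1)
    (S : State γ p z lam s Ψ W) : W.Nonempty := by
  rw [Finset.nonempty_iff_ne_empty]
  rintro rfl
  have hs := S.hs
  have hzz : z < γ * z := by have := S.hz; nlinarith
  -- affine on `[z, γ z + 1]`
  have h1 := affine_slope (f := Ψ) (v := γ * z + 1) (by linarith) (by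
    intro x hx
    rcases le_or_gt x (γ * z) with h2 | h2
    · exact S.locaff x hx.1 h2 (by simp)
    · refine ⟨s / γ, Ψ (γ * z) - s / γ * (γ * z), ?_⟩
      filter_upwards [eventually_gt_nhds h2] with t ht
      rw [S.right t ht.le]; ring) S.slope
  have h2 := h1 (γ * z) hzz.le (by linarith)
  have h3 := h1 (γ * z + 1) (by linarith) le_rfl
  have h4 := S.right (γ * z + 1) (by linarith)
  have h5 : s = s / γ := by
    rw [h3, h2] at h4
    linarith
  rw [eq_div_iff g0.ne'] at h5
  nlinarith

/-- when `W = {w}`, `Ψ` is affine to the right of `w` -/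
theorem State.right_one {γ p z lam s w : ℝ} {Ψ : ℝ ≃o ℝ}
    (S : State γ p z lam s Ψ {w}) : ∀ x, w ≤ x → Ψ x = Ψ w + s / γ * (x - w) := by
  have hw := S.hW w (by simp)
  -- affine on `[w, γ z + 1]`
  obtain ⟨a, b, hab⟩ := affine_Icc (isoCont Ψ) (u := w) (v := γ * z + 1) (by
    intro x hx
    rcases le_or_gt x (γ * z) with h2 | h2
    · exact S.locaff x (hw.1.trans hx.1) h2 (by simpa using hx.1.ne')
    · refine ⟨s / γ, Ψ (γ * z) - s / γ * (γ * z), ?_⟩
      filter_upwards [eventually_gt_nhds h2] with t ht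
      rw [S.right t ht.le]; ring) (by linarith)
  have h1 := hab (γ * z) ⟨hw.2, by linarith⟩
  have h2 := hab (γ * z + 1) ⟨by linarith, le_rfl⟩
  have h3 := S.right (γ * z + 1) (by linarith)
  have h4 : a = s / γ := by rw [h2, h1] at h3; linarith
  have h5 := hab w ⟨le_rfl, by linarith⟩
  intro x hx
  rcases le_or_gt x (γ * z + 1) with h6 | h6
  · rw [hab x ⟨hx, h6⟩, h5, h4]; ring
  · rw [S.right x (by linarith), h1, h5, h4]; ring

theorem base {γ p z lam s w : ℝ} {Ψ : ℝ ≃o ℝ} (g0 : 0 < γ) (g1 : γ < 1)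
    (S : State γ p z lam s Ψ {w}) (hlg : lam * γ < 1) : Completable γ g0 p z lam Ψ := by
  have hs := S.hs
  have hlam := S.hlam
  have hz := S.hz
  have hw := S.hW w (by simp)
  have hzz : z < γ * z := by nlinarith
  have hΨz : 0 < Ψ z := by rw [← S.hp]; exact Ψ.strictMono S.hpz
  have hright := S.right_one
  have hleft := S.lin hw.1 hw.2 (by simp)
  have hΨw : Ψ w = Ψ z + s * (w - z) := hleft w hw.1.le le_rfl
  have hΨw' : 0 < Ψ w := hΨz.trans (Ψ.strictMono hw.1)
  have hw0 : w < 0 := by nlinarith [hw.2]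
  have hgz : γ * z < 0 := by nlinarith
  have hlg0 : 0 < lam * γ := by positivity
  -- relation
  have hrel : lam * Ψ z = Ψ w + s / γ * (γ * z - w) := by
    rw [← S.hq]; exact hright _ hw.2
  have hrel2 : γ * (lam - 1) * Ψ z = s * w * (γ - 1) := by
    have h1 : γ * (lam * Ψ z) = γ * Ψ w + s * (γ * z - w) := by
      rw [hrel]; field_simp
    rw [hΨw] at h1
    linear_combination h1
  obtain ⟨c0, hc0pos, hc0E⟩ : ∃ c0 : ℝ, 0 < c0 ∧ c0 * Ψ w = -(γ * z) :=
    ⟨-(γ * z) / Ψ w, div_pos (by linarith) hΨw', by field_simp⟩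
  set h0 : ℝ ≃o ℝ := aff 0 (γ * z) c0 hc0pos * Ψ with hh0
  have h0a : ∀ x, h0 x = γ * z + c0 * Ψ x := by
    intro x; rw [hh0, mulapp, aff_apply]; ring
  have hl0 : 0 < lam := by linarith
  have hga : (Ψ⁻¹ * aff 0 0 lam hl0 * Ψ) z = (aff z (γ * z) (lam * γ) hlg0) z := by
    simp only [mulapp, aff_apply]
    have : 0 + lam * (Ψ z - 0) = Ψ (γ * z) := by rw [S.hq]; ring
    rw [this, inv_apply]; ring
  set a := glue (Ψ⁻¹ * aff 0 0 lam hl0 * Ψ) (aff z (γ * z) (lam * γ) hlg0) z hga with ha
  have aL : ∀ x, x ≤ z → Ψ (a x) = lam * Ψ x := by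
    intro x hx
    rw [ha, glue_le hga hx]
    simp only [mulapp, apply_inv, aff_apply]; ring
  have aR : ∀ x, z ≤ x → a x = γ * z + lam * γ * (x - z) := by
    intro x hx
    rw [ha, glue_ge hga hx, aff_apply]
  set Q := γ * z * (1 - lam) / (1 - lam * γ) with hQ
  have hden : 0 < 1 - lam * γ := by linarith
  have hQE : Q * (1 - lam * γ) = γ * z * (1 - lam) := by
    rw [hQ, div_mul_cancel₀ _ hden.ne']
  have hQ0 : 0 < Q := by
    apply div_pos _ hden
    nlinarith
  have hwQ : w ≤ Q := (hw0.trans hQ0).le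
  have haQ : a Q = Q := by
    rw [aR Q (hz.trans hQ0).le]
    linear_combination (-1) * hQE
  have h0R : ∀ x, w ≤ x → h0 x = c0 * s / γ * (x - w) := by
    intro x hx
    rw [h0a, hright x hx]
    field_simp
    linear_combination γ * hc0E
  have hkey : c0 * s * (lam - 1) = (lam - 1) * (c0 * s) := by ring
  have h0Q : h0 Q = Q := by
    rw [h0R Q hwQ]
    -- c0 s (Q - w) = γ Q
    have h1 : c0 * s * (Q - w) = γ * Q := by
      have hlm : (0:ℝ) < (lam - 1) := by linarith
      have h2 : (1 - lam * γ) * (lam - 1) * Ψ w * (c0 * s * (Q - w))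
          = (1 - lam * γ) * (lam - 1) * Ψ w * (γ * Q) := by
        have e1 : (lam - 1) * γ * Ψ w = s * w * (γ - 1) + (lam - 1) * γ * (s * (w - z)) := by
          rw [hΨw]; linear_combination hrel2
        -- expand
        have e2 : (1 - lam * γ) * (lam - 1) * Ψ w * (c0 * s * (Q - w))
            = (c0 * Ψ w) * s * (lam - 1) * (Q * (1 - lam * γ) - w * (1 - lam * γ)) := by ring
        have e3 : (1 - lam * γ) * (lam - 1) * Ψ w * (γ * Q)
            = ((lam - 1) * γ * Ψ w) * (Q * (1 - lam * γ)) := by ring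
        rw [e2, e3, hc0E, e1, hQE]
        ring
      have h3 : (1 - lam * γ) * (lam - 1) * Ψ w ≠ 0 := by positivity
      exact mul_left_cancel₀ h3 h2
    field_simp
    linear_combination h1
  refine ⟨Q, a, h0, hQ0, glue_plf _ ((S.pl.inv.mul (plf_aff _ _ _ _)).mul S.pl)
    (plf_aff _ _ _ _), (plf_aff _ _ _ _).mul S.pl, haQ, ?_, h0Q, fun x _ hx => aL x hx, ?_⟩
  · rw [h0a, S.hp]; ring
  · intro x hx hxQ
    rcases le_total x w with h1 | h1
    · have hneg : h0 x ≤ 0 := by
        have := h0.monotone h1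
        rw [h0R w le_rfl] at this
        linarith
      have hge : γ * z ≤ h0 x := by
        rw [h0a]
        have : 0 ≤ Ψ x := by rw [← S.hp]; exact Ψ.monotone hx
        have := mul_nonneg hc0pos.le this
        linarith
      rw [G_inv_neg g0 hneg, aR (h0 x / γ) (by rw [le_div_iff₀ g0]; linarith)]
      have h2 : Ψ (a x) = lam * Ψ x := by
        rcases le_total x z with h3 | h3
        · exact aL x h3
        · rw [aR x h3, S.right _ (by nlinarith), S.hq, hleft x h3 h1]
          field_simp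
          ring
      rw [h0a, h2, h0a]
      field_simp
      ring
    · have hpos : 0 ≤ h0 x := by
        rw [h0R x h1]
        have : 0 ≤ x - w := by linarith
        positivity
      rw [G_inv_pos g0 hpos, aR (h0 x) (by linarith), aR x (hw.1.le.trans h1), h0a,
        S.right _ (by nlinarith), S.hq, h0R x h1]
      -- everything explicit
      have e1 := hc0E
      rw [hΨw] at e1
      have e2 : s / γ * (γ * z + lam * γ * (x - z) - γ * z) = s * lam * (x - z) := by
        field_simp; ring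
      have e3 : lam * γ * (c0 * s / γ * (x - w) - z) = lam * c0 * s * (x - w) - lam * γ * z := by
        field_simp
      rw [e2, e3]
      linear_combination lam * e1

end TH960.PL
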