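import Pool.Agent.TH960.PL.Core

/-! The induction on the number of breaks. -/

namespace TH960.PL

open Filter Topology Set

theorem one_case {γ p z lam s w : ℝ} {Ψ : ℝ ≃o ℝ} (g0 : 0 < γ) (g1 : γ < 1)
    (S : State γ p z lam s Ψ {w}) : Completable γ g0 p z lam Ψ := by
  by_cases hlg : lam * γ < 1
  · exact base g0 g1 S hlg
  have hw := S.hW w (by simp)
  have hz := S.hz
  have hs := S.hs
  have hleft := S.lin hw.1 hw.2 (by simp)
  have hright := S.right_one
  have hgz : γ * z < 0 := by nlinarith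
  have hw0 : w < 0 := hw.2.trans_lt hgz
  obtain ⟨z1, hz1, hz1w⟩ := exists_between hw.1
  have hK : 0 < (w - z1) - w / γ := by
    have : w / γ < 0 := div_neg_of_neg_of_pos hw0 g0
    linarith
  -- choose mu
  have hmuex : ∃ mu, γ < mu ∧ mu < 1 ∧ mu * ((w - z1) - w / γ) < -z1 := by
    have h1 : γ * ((w - z1) - w / γ) < -z1 := by
      have : γ * ((w - z1) - w / γ) = γ * (w - z1) - w := by field_simp
      rw [this]
      nlinarith
    have h2 : γ < -z1 / ((w - z1) - w / γ) := by rw [lt_div_iff₀ hK]; exact h1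
    obtain ⟨mu, h3, h4⟩ := exists_between (lt_min g1 h2)
    refine ⟨mu, h3, h4.trans_le (min_le_left _ _), ?_⟩
    have h5 := h4.trans_le (min_le_right _ _)
    rwa [lt_div_iff₀ hK] at h5
  obtain ⟨mu, hmu1, hmu2, hmu3⟩ := hmuex
  have mu0 : 0 < mu := g0.trans hmu1
  have hΨz1 : Ψ z1 = Ψ z + s * (z1 - z) := hleft z1 hz1.le hz1w.le
  have hΨw : Ψ w = Ψ z + s * (w - z) := hleft w hw.1.le le_rfl
  refine step g0 g1 S hz1 hz1w (hz1w.trans hw0) hleft mu0 hmu2 ?_ {w}
    (fun w' hw' => Or.inl hw') ?_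
  · intro x hx hx0
    rcases le_total x w with h1 | h1
    · rw [hleft x (hz1.trans hx).le h1, hΨz1]
      have : mu / s * (Ψ z + s * (x - z) - (Ψ z + s * (z1 - z))) = mu * (x - z1) := by
        field_simp; ring
      rw [this]; nlinarith
    · rw [hright x h1, hΨz1, hΨw]
      have h2 : mu / s * (Ψ z + s * (w - z) + s / γ * (x - w) - (Ψ z + s * (z1 - z)))
          = mu * (w - z1) + mu / γ * (x - w) := by
        field_simp; ring
      rw [h2]
      have h3 : mu * ((w - z1) - w / γ) = mu * (w - z1) - mu / γ * w := by ring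
      rw [h3] at hmu3
      have h4 : 1 < mu / γ := by rw [lt_div_iff₀ g0]; linarith
      nlinarith
  · intro zh sh Ψh V hSt hV
    have h1 : V.card ≤ 1 := by simpa using hV
    obtain ⟨w', hw'⟩ := hSt.nonempty g0 g1
    have h2 : V = {w'} := by
      rw [Finset.eq_singleton_iff_unique_mem]
      exact ⟨hw', fun x hx => Finset.card_le_one.1 h1 x hx w' hw'⟩
    subst h2
    apply base g0 g1 hSt
    rw [div_mul_eq_mul_div, one_mul, div_lt_one mu0]
    exact hmu1

theorem core {γ : ℝ} (g0 : 0 < γ) (g1 : γ < 1) (n : ℕ) :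
    ∀ (p z lam s : ℝ) (Ψ : ℝ ≃o ℝ) (W : Finset ℝ), State γ p z lam s Ψ W → W.card ≤ n →
      Completable γ g0 p z lam Ψ := by
  classical
  induction n with
  | zero =>
    intro p z lam s Ψ W S hW
    have := S.nonempty g0 g1
    rw [Finset.card_eq_zero.1 (Nat.le_zero.1 hW)] at this
    exact absurd this (by simp)
  | succ n ih =>
    intro p z lam s Ψ W S hWn
    have hne := S.nonempty g0 g1
    set w1 := W.min' hne with hw1
    have hw1W : w1 ∈ W := W.min'_mem hne
    have hmin : ∀ w ∈ W, w1 ≤ w := fun w hw => W.min'_le w hw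
    by_cases hcard : (W.erase w1).Nonempty
    swap
    · have h1 : W = {w1} := by
        rw [Finset.eq_singleton_iff_unique_mem]
        refine ⟨hw1W, fun x hx => ?_⟩
        by_contra hne'
        exact hcard ⟨x, Finset.mem_erase.2 ⟨hne', hx⟩⟩
      rw [h1] at S
      exact one_case g0 g1 S
    obtain ⟨w2, hw2⟩ := hcard
    have hw2W : w2 ∈ W := Finset.mem_of_mem_erase hw2
    have hw12 : w1 < w2 := lt_of_le_of_ne (hmin w2 hw2W) (Finset.ne_of_mem_erase hw2).symm
    have hz := S.hz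
    have hs := S.hs
    have hw1' := S.hW w1 hw1W
    have hw2' := S.hW w2 hw2W
    have hgz : γ * z < 0 := by nlinarith
    have hw10 : w1 < 0 := hw1'.2.trans_lt hgz
    have hlin := S.lin hw1'.1 hw1'.2 hmin
    have hΨw1 : Ψ w1 = Ψ z + s * (w1 - z) := hlin w1 hw1'.1.le le_rfl
    obtain ⟨s1, y, hy, hgerm⟩ := right_germ (isoCont Ψ) S.pl w1
    have hs1 : 0 < s1 := germ_slope_pos hy hgerm
    have hd : 0 < Ψ w2 - Ψ w1 := sub_pos.2 (Ψ.strictMono hw12)
    set κ := s / (Ψ w2 - Ψ w1) with hκ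
    have hκ0 : 0 < κ := div_pos hs hd
    set K := (Ψ 0 - Ψ z) / (Ψ w2 - Ψ w1) with hK
    -- choose δ
    have hδex : ∃ δ : ℝ, 0 < δ ∧ z < w1 - δ ∧ κ * δ < 1 ∧ κ * δ * (s1 / s) < 1 ∧
        w1 - δ + K * δ < y := by
      have e1 : ∀ᶠ δ in 𝓝[>] (0:ℝ), z < w1 - δ := by
        have : Tendsto (fun δ : ℝ => w1 - δ) (𝓝[>] 0) (𝓝 w1) :=
          (Continuous.tendsto' (by fun_prop) _ _ (by simp)).mono_left nhdsWithin_le_nhds
        exact this.eventually (eventually_gt_nhds hw1'.1)
      have e2 : ∀ᶠ δ in 𝓝[>] (0:ℝ), κ * δ < 1 := by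
        have : Tendsto (fun δ : ℝ => κ * δ) (𝓝[>] 0) (𝓝 0) :=
          (Continuous.tendsto' (by fun_prop) _ _ (by simp)).mono_left nhdsWithin_le_nhds
        exact this.eventually (eventually_lt_nhds one_pos)
      have e3 : ∀ᶠ δ in 𝓝[>] (0:ℝ), κ * δ * (s1 / s) < 1 := by
        have : Tendsto (fun δ : ℝ => κ * δ * (s1 / s)) (𝓝[>] 0) (𝓝 0) :=
          (Continuous.tendsto' (by fun_prop) _ _ (by simp)).mono_left nhdsWithin_le_nhds
        exact this.eventually (eventually_lt_nhds one_pos)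
      have e4 : ∀ᶠ δ in 𝓝[>] (0:ℝ), w1 - δ + K * δ < y := by
        have : Tendsto (fun δ : ℝ => w1 - δ + K * δ) (𝓝[>] 0) (𝓝 w1) :=
          (Continuous.tendsto' (by fun_prop) _ _ (by simp)).mono_left nhdsWithin_le_nhds
        exact this.eventually (eventually_lt_nhds hy)
      have e5 : ∀ᶠ δ in 𝓝[>] (0:ℝ), 0 < δ := eventually_mem_nhdsWithin
      obtain ⟨δ, h1, h2, h3, h4, h5⟩ := (e5.and (e1.and (e2.and (e3.and e4)))).exists
      exact ⟨δ, h1, h2, h3, h4, h5⟩
    obtain ⟨δ, hδ0, hδ1, hδ2, hδ3, hδ4⟩ := hδex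
    set z1 := w1 - δ with hz1
    have hz1w : z1 < w1 := by rw [hz1]; linarith
    have hΨz1 : Ψ z1 = Ψ z + s * (z1 - z) := hlin z1 hδ1.le hz1w.le
    have hd1 : 0 < Ψ w2 - Ψ z1 := sub_pos.2 (Ψ.strictMono (hz1w.trans hw12))
    have hd2 : Ψ w2 - Ψ w1 < Ψ w2 - Ψ z1 := by
      have := Ψ.strictMono hz1w; linarith
    obtain ⟨mu, hmu⟩ : ∃ mu, mu = s * δ / (Ψ w2 - Ψ z1) := ⟨_, rfl⟩
    have mu0 : 0 < mu := by rw [hmu]; positivity
    have hmuκ : mu < κ * δ := by
      rw [hmu, hκ, div_mul_eq_mul_div]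
      exact div_lt_div_of_pos_left (by positivity) hd hd2
    have mu1 : mu < 1 := hmuκ.trans hδ2
    have hmuE : mu / s * (Ψ w2 - Ψ z1) = δ := by
      rw [hmu]; field_simp
    have hΨ0 : Ψ z < Ψ 0 := Ψ.strictMono hz
    refine step g0 g1 S hδ1 hz1w (hz1w.trans hw10) hlin mu0 mu1 ?_ (W.erase w1) ?_ ?_
    · intro x hx hx0
      rcases le_total x w1 with h1 | h1
      · rw [hlin x (hδ1.trans hx).le h1, hΨz1]
        have : mu / s * (Ψ z + s * (x - z) - (Ψ z + s * (z1 - z))) = mu * (x - z1) := by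
          field_simp; ring
        rw [this]; nlinarith
      · rcases le_total x y with h2 | h2
        · rw [hgerm x ⟨h1, h2⟩, hΨw1, hΨz1]
          have e1 : mu / s * (Ψ z + s * (w1 - z) + s1 * (x - w1) - (Ψ z + s * (z1 - z)))
              = mu * (w1 - z1) + mu * (s1 / s) * (x - w1) := by
            field_simp; ring
          rw [e1]
          have e2 : mu * (s1 / s) ≤ 1 := by
            have : mu * (s1 / s) ≤ κ * δ * (s1 / s) :=
              mul_le_mul_of_nonneg_right hmuκ.le (by positivity)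
            linarith
          have e3 : mu * (s1 / s) * (x - w1) ≤ x - w1 := by
            have := mul_le_mul_of_nonneg_right e2 (sub_nonneg.2 h1)
            linarith
          have e4 : mu * (w1 - z1) < w1 - z1 := by nlinarith
          linarith
        · have e1 : Ψ x - Ψ z1 ≤ Ψ 0 - Ψ z := by
            have := Ψ.monotone hx0
            have := Ψ.strictMono hδ1
            linarith
          have e2 : mu / s * (Ψ x - Ψ z1) ≤ K * δ := by
            have e3 : mu / s ≤ δ / (Ψ w2 - Ψ w1) := by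
              rw [div_le_iff₀ hs]
              have : δ / (Ψ w2 - Ψ w1) * s = κ * δ := by rw [hκ]; ring
              rw [this]; exact hmuκ.le
            have e4 : mu / s * (Ψ x - Ψ z1) ≤ mu / s * (Ψ 0 - Ψ z) :=
              mul_le_mul_of_nonneg_left e1 (by positivity)
            have e5 : mu / s * (Ψ 0 - Ψ z) ≤ δ / (Ψ w2 - Ψ w1) * (Ψ 0 - Ψ z) :=
              mul_le_mul_of_nonneg_right e3 (by linarith)
            have e6 : δ / (Ψ w2 - Ψ w1) * (Ψ 0 - Ψ z) = K * δ := by rw [hK]; ring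
            linarith
          linarith
    · intro w hw
      by_cases h1 : w = w1
      · right
        refine ⟨w2, hw2, ?_, ?_⟩
        · rw [hmuE, h1, hz1]; ring
        · have : γ * z ≤ γ * z1 := mul_le_mul_of_nonneg_left hδ1.le g0.le
          exact hw2'.2.trans this
      · left
        exact Finset.mem_erase.2 ⟨h1, hw⟩
    · intro zh sh Ψh V hSt hV
      apply ih _ _ _ _ _ _ hSt
      have h1 := Finset.card_erase_of_mem hw1W
      omega

end TH960.PL
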