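import Pool.Agent.TH960.PL.State

/-! States, completability, the finishing lemma. -/

namespace TH960.PL

open Filter Topology Set

theorem G_aux (γ : ℝ) (h : 0 < γ) : (aff 0 0 γ h) 0 = (1 : ℝ ≃o ℝ) 0 := by
  rw [aff_apply]; change _ = (0 : ℝ); ring

/-- the map `x ↦ γ x` for `x ≤ 0` and `x ↦ x` for `x ≥ 0` -/
noncomputable def G (γ : ℝ) (h : 0 < γ) : ℝ ≃o ℝ :=
  glue (aff 0 0 γ h) 1 0 (G_aux γ h)

theorem G_neg {γ : ℝ} (h : 0 < γ) {x : ℝ} (hx : x ≤ 0) : G γ h x = γ * x := by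
  rw [G, glue_le _ hx, aff_apply]; ring

theorem G_pos {γ : ℝ} (h : 0 < γ) {x : ℝ} (hx : 0 ≤ x) : G γ h x = x := by
  rw [G, glue_ge _ hx]; rfl

theorem G_plf {γ : ℝ} (h : 0 < γ) : PLf (G γ h) := glue_plf _ (plf_aff _ _ _ _) PLf.one

structure State (γ p z lam s : ℝ) (Ψ : ℝ ≃o ℝ) (W : Finset ℝ) : Prop where
  hpz : p < z
  hz : z < 0
  hlam : 1 < lam
  hs : 0 < s
  pl : PLf Ψ
  hp : Ψ p = 0
  hq : Ψ (γ * z) = lam * Ψ z
  right : ∀ x, γ * z ≤ x → Ψ x = Ψ (γ * z) + s / γ * (x - γ * z)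
  slope : ∃ y, z < y ∧ ∀ x, z ≤ x → x ≤ y → Ψ x = Ψ z + s * (x - z)
  hW : ∀ w ∈ W, z < w ∧ w ≤ γ * z
  locaff : ∀ x, z < x → x ≤ γ * z → x ∉ W → LocAff Ψ x

def Completable (γ : ℝ) (hγ : 0 < γ) (p z lam : ℝ) (Ψ : ℝ ≃o ℝ) : Prop :=
  ∃ (Q : ℝ) (a h : ℝ ≃o ℝ), 0 < Q ∧ PLf a ∧ PLf h ∧ a Q = Q ∧ h p = γ * z ∧ h Q = Q ∧
    (∀ x, p ≤ x → x ≤ z → Ψ (a x) = lam * Ψ x) ∧
    (∀ x, p ≤ x → x ≤ Q → h (a x) = a ((G γ hγ)⁻¹ (h x)))

/-- Data entering the finishing lemma. -/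
structure Fin (γ z mu s : ℝ) (h0 b : ℝ ≃o ℝ) : Prop where
  g0 : 0 < γ
  g1 : γ < 1
  hz : z < 0
  mu0 : 0 < mu
  mu1 : mu < 1
  hs : 0 < s
  plh : PLf h0
  plb : PLf b
  right : ∀ x, γ * z ≤ x → h0 x = h0 (γ * z) + s / γ * (x - γ * z)
  slope : ∃ y, z < y ∧ ∀ x, z ≤ x → x ≤ y → h0 x = h0 z + s * (x - z)
  hb : ∀ y, h0 z ≤ y → b y = γ * z + mu * (y - γ * z)
  hbz : b (h0 z) = h0 (γ * z)
  hlt : h0 z < γ * z
  hc : ∀ x, z < x → x ≤ 0 → z + mu / s * (h0 x - h0 z) < x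

namespace Fin

variable {γ z mu s : ℝ} {h0 b : ℝ ≃o ℝ}

/-- the contraction -/
noncomputable def c (F : Fin γ z mu s h0 b) : ℝ ≃o ℝ :=
  aff (h0 z) z (mu / s) (div_pos F.mu0 F.hs) * h0

theorem c_apply (F : Fin γ z mu s h0 b) (x : ℝ) : F.c x = z + mu / s * (h0 x - h0 z) := rfl

theorem c_plf (F : Fin γ z mu s h0 b) : PLf F.c := (plf_aff _ _ _ _).mul F.plh

theorem c_z (F : Fin γ z mu s h0 b) : F.c z = z := by rw [c_apply]; ring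

theorem c_lt (F : Fin γ z mu s h0 b) : ∀ x, z < x → x ≤ 0 → F.c x < x := F.hc

theorem c_lin (F : Fin γ z mu s h0 b) :
    ∃ y, z < y ∧ ∀ x, z ≤ x → x ≤ y → F.c x = z + mu * (x - z) := by
  obtain ⟨y, h1, h2⟩ := F.slope
  refine ⟨y, h1, fun x hx hx2 => ?_⟩
  rw [c_apply, h2 x hx hx2]
  have := F.hs.ne'
  field_simp
  ring

theorem zlt (F : Fin γ z mu s h0 b) : z < γ * z := by
  have := F.g1; have := F.hz; nlinarith

theorem gz_neg (F : Fin γ z mu s h0 b) : γ * z < 0 := by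
  have := F.g0; have := F.hz; nlinarith

theorem conj_eq (F : Fin γ z mu s h0 b) {x : ℝ} (hx : z ≤ x) : h0 (γ * F.c x) = b (h0 x) := by
  have h1 : z ≤ F.c x := by
    conv_lhs => rw [← F.c_z]
    exact F.c.monotone hx
  have h2 : γ * z ≤ γ * F.c x := mul_le_mul_of_nonneg_left h1 F.g0.le
  rw [F.right _ h2, F.hb _ (h0.monotone hx), ← F.hbz, F.hb _ le_rfl, c_apply]
  have := F.hs.ne'
  have := F.g0.ne'
  field_simp
  ring

/-- the next fixed point of `a` -/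
noncomputable def p' (_ : Fin γ z mu s h0 b) : ℝ := (h0⁻¹ : ℝ ≃o ℝ) (γ * z)

theorem h0p (F : Fin γ z mu s h0 b) : h0 F.p' = γ * z := by rw [p', apply_inv]

theorem p_gt (F : Fin γ z mu s h0 b) : γ * z < F.p' := by
  have h1 : h0 (γ * z) < h0 F.p' := by
    rw [F.h0p, ← F.hbz, F.hb _ le_rfl]
    have := F.hlt; have := F.mu0; nlinarith
  exact h0.lt_iff_lt.1 h1

theorem c_p (F : Fin γ z mu s h0 b) : γ * F.c F.p' = F.p' := by
  have h1 := F.conj_eq (x := F.p') (F.zlt.trans F.p_gt).le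
  rw [F.h0p, F.hb _ F.hlt.le] at h1
  have h2 : h0 (γ * F.c F.p') = h0 F.p' := by rw [h1, F.h0p]; ring
  exact h0.injective h2

theorem p_neg (F : Fin γ z mu s h0 b) : F.p' < 0 := by
  by_contra hcon
  push Not at hcon
  have h1 := F.c_lt 0 F.hz le_rfl
  have h2 := F.conj_eq (x := 0) F.hz.le
  have h3 : h0 0 ≤ γ * z := by rw [← F.h0p]; exact h0.monotone hcon
  have h4 : h0 z ≤ h0 0 := h0.monotone F.hz.le
  rw [F.hb _ h4] at h2
  have h5 : h0 0 ≤ h0 (γ * F.c 0) := by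
    rw [h2]; have := F.mu1; nlinarith
  have h6 : 0 ≤ γ * F.c 0 := h0.le_iff_le.1 h5
  have := F.g0
  nlinarith

/-- the next `z` -/
noncomputable def zh (F : Fin γ z mu s h0 b) : ℝ := F.p' / γ

theorem gzh (F : Fin γ z mu s h0 b) : γ * F.zh = F.p' := by
  rw [zh]; have := F.g0.ne'; field_simp

theorem c_p' (F : Fin γ z mu s h0 b) : F.c F.p' = F.zh := by
  have h1 := F.c_p
  have h2 := F.gzh
  have h3 : γ * F.c F.p' = γ * F.zh := by rw [h1, h2]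
  exact mul_left_cancel₀ F.g0.ne' h3

theorem zh_gt (F : Fin γ z mu s h0 b) : z < F.zh := by
  rw [← F.c_p']
  conv_lhs => rw [← F.c_z]
  exact F.c.strictMono (F.zlt.trans F.p_gt)

theorem zh_lt (F : Fin γ z mu s h0 b) : F.zh < F.p' := by
  rw [← F.c_p']
  exact F.c_lt _ (F.zlt.trans F.p_gt) F.p_neg.le

theorem zh_neg (F : Fin γ z mu s h0 b) : F.zh < 0 := F.zh_lt.trans F.p_neg

end Fin

end TH960.PL
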