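import Pool.Agent.TH960.PL.Finish

/-! The next state, and transfer of completions. -/

namespace TH960.PL

open Filter Topology Set

namespace Fin

variable {γ z mu s : ℝ} {h0 b : ℝ ≃o ℝ}

theorem exists_state (F : Fin γ z mu s h0 b) (W0 T : Finset ℝ)
    (hloc : ∀ x, z < x → x ≤ γ * z → x ∉ W0 → LocAff h0 x)
    (hT : ∀ w ∈ W0, w ∈ T ∨ ∃ w2 ∈ T, F.c w2 = w ∧ w2 ≤ γ * z) :
    ∃ (sh : ℝ) (Ψ : ℝ ≃o ℝ) (V : Finset ℝ), State γ z F.zh (1 / mu) sh Ψ V ∧
      V.card ≤ T.card ∧ (∀ x, z ≤ x → x ≤ F.p' → Ψ (F.c x) = mu * Ψ x) := by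
  classical
  obtain ⟨y, hzy, hlin⟩ := F.c_lin
  obtain ⟨φ, hφpl, hφlin, hφeq⟩ := lin_contr F.c_plf F.mu0 F.mu1 hzy hlin F.c_lt F.hz
  have hy' : z < z + mu * (y - z) := by have := F.mu0; nlinarith
  have hφz : φ z = 0 := by rw [hφlin z hy'.le]; ring
  obtain ⟨sh, y3, hy3, hgerm⟩ := right_germ (isoCont φ) hφpl F.zh
  have hsh : 0 < sh := germ_slope_pos hy3 hgerm
  have hg : φ F.p' = (aff F.p' (φ F.p') (sh / γ) (div_pos hsh F.g0)) F.p' := by
    rw [aff_apply]; ring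
  set Ψ := glue φ (aff F.p' (φ F.p') (sh / γ) (div_pos hsh F.g0)) F.p' hg with hΨ
  -- the set of breaks
  set S : Set ℝ := {x | F.zh < x ∧ x ≤ F.p' ∧ ∃ k : ℕ, F.c^[k] x ∈ W0} with hS
  obtain ⟨V, hV1, hV2⟩ := count_reps F.c_z F.c_lt F.zh_gt F.p_neg.le F.c_p' T S
    (fun x hx => ⟨hx.1, hx.2.1⟩)
    (by
      rintro x ⟨hx1, hx2, k, hk⟩
      rcases hT _ hk with h1 | ⟨w2, h1, h2, h3⟩
      · exact ⟨k, h1⟩
      · cases k with
        | zero =>
          exfalso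
          simp only [Function.iterate_zero, id] at h2
          have h4 : F.c w2 ≤ F.zh := by
            rw [← F.c_p']; exact F.c.monotone (h3.trans F.p_gt.le)
          rw [h2] at h4
          linarith
        | succ k =>
          rw [Function.iterate_succ_apply'] at h2
          have := F.c.injective h2
          exact ⟨k, this ▸ h1⟩)
  have hlocc : ∀ x, z < x → x < 0 → x ∉ (W0 : Set ℝ) → LocAff F.c x := by
    intro x hx hx0 hxW
    have h1 : LocAff h0 x := by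
      rcases le_or_gt x (γ * z) with h2 | h2
      · exact hloc x hx h2 hxW
      · refine ⟨s / γ, h0 (γ * z) - s / γ * (γ * z), ?_⟩
        filter_upwards [eventually_gt_nhds h2] with t ht
        rw [F.right t ht.le]; ring
    have h2 := h1.comp (f := aff (h0 z) z (mu / s) (div_pos F.mu0 F.hs))
      (locAff_aff _ _ _ _ _) (isoCont h0).continuousAt
    exact h2
  have hφloc : ∀ x, z < x → x < 0 → (∀ k : ℕ, F.c^[k] x ∉ (W0 : Set ℝ)) → LocAff φ x := by
    intro x hx hx0 hk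
    exact lin_locAff F.c_z F.mu0 F.c_lt hy' hφlin hφeq hlocc hx hx0 hk
  have hΨp : Ψ F.p' = φ F.p' := glue_le hg le_rfl
  refine ⟨sh, Ψ, V, ?_, hV2, ?_⟩
  · refine ⟨F.zh_gt, F.zh_neg, ?_, hsh, glue_plf _ hφpl (plf_aff _ _ _ _), ?_, ?_, ?_, ?_, ?_, ?_⟩
    · rw [lt_div_iff₀ F.mu0]; linarith [F.mu1]
    · rw [hΨ, glue_le hg (F.zlt.trans F.p_gt).le, hφz]
    · rw [F.gzh, hΨp, hΨ, glue_le hg F.zh_lt.le, ← F.c_p', hφeq _ (F.zlt.trans F.p_gt).le F.p_neg.le]
      have := F.mu0.ne'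
      field_simp
    · intro x hx
      rw [F.gzh] at hx ⊢
      rw [hΨp, hΨ, glue_ge hg hx, aff_apply]
    · refine ⟨min y3 F.p', lt_min hy3 F.zh_lt, fun x hx hx2 => ?_⟩
      rw [hΨ, glue_le hg (hx2.trans (min_le_right _ _)), glue_le hg F.zh_lt.le]
      exact hgerm x ⟨hx, hx2.trans (min_le_left _ _)⟩
    · intro w hw
      have : w ∈ S := by rw [← hV1]; exact hw
      rw [F.gzh]
      exact ⟨this.1, this.2.1⟩
    · intro x hx hx2 hxV
      rw [F.gzh] at hx2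
      have hxS : ∀ k : ℕ, F.c^[k] x ∉ (W0 : Set ℝ) := by
        intro k hk
        apply hxV
        have : x ∈ S := ⟨hx, hx2, k, hk⟩
        rw [← hV1] at this
        exact this
      have h1 : LocAff φ x := hφloc x (F.zh_gt.trans hx) (hx2.trans_lt F.p_neg) hxS
      rcases lt_or_eq_of_le hx2 with h2 | h2
      · refine h1.congr ?_
        filter_upwards [eventually_lt_nhds h2] with t ht
        exact glue_le hg ht.le
      · subst h2
        refine h1.congr ?_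
        -- near `p'`
        have hcc : Tendsto F.c (𝓝 F.p') (𝓝 F.zh) := by
          have := (isoCont F.c).tendsto F.p'
          rwa [F.c_p'] at this
        filter_upwards [eventually_lt_nhds F.p_neg, hcc.eventually (eventually_lt_nhds hy3)]
          with t ht1 ht2
        rcases le_total t F.p' with h3 | h3
        · exact glue_le hg h3
        · rw [hΨ, glue_ge hg h3, aff_apply]
          have e1 := hφeq t ((F.zlt.trans F.p_gt).le.trans h3) ht1.le
          have e2 := hφeq F.p' (F.zlt.trans F.p_gt).le F.p_neg.le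
          have h4 : F.zh ≤ F.c t := by rw [← F.c_p']; exact F.c.monotone h3
          have e3 := hgerm (F.c t) ⟨h4, ht2.le⟩
          have e4 : F.c t = F.zh + mu / γ * (t - F.p') := by
            rw [← F.c_p', F.c_apply, F.c_apply, F.right t (F.p_gt.le.trans h3),
              F.right F.p' F.p_gt.le]
            have := F.hs.ne'; have := F.g0.ne'
            field_simp
            ring
          rw [F.c_p'] at e2
          rw [e3, e4, e2] at e1
          have hm := F.mu0.ne'; have hg0 := F.g0.ne'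
          apply mul_left_cancel₀ hm
          rw [← e1]
          field_simp
          ring
  · intro x hx hx2
    have h1 : F.c x ≤ F.p' := by
      refine le_trans ?_ F.zh_lt.le
      rw [← F.c_p']; exact F.c.monotone hx2
    rw [hΨ, glue_le hg hx2, glue_le hg h1]
    exact hφeq x hx (hx2.trans F.p_neg.le)

/-- transfer of completions -/
theorem transfer (F : Fin γ z mu s h0 b) {Ψ : ℝ ≃o ℝ} {sh : ℝ} {V : Finset ℝ}
    (hSt : State γ z F.zh (1 / mu) sh Ψ V)
    (hΨ : ∀ x, z ≤ x → x ≤ F.p' → Ψ (F.c x) = mu * Ψ x)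
    (hC : Completable γ F.g0 z F.zh (1 / mu) Ψ) :
    ∃ (Q : ℝ) (a h : ℝ ≃o ℝ), 0 < Q ∧ PLf a ∧ PLf h ∧ a Q = Q ∧ h Q = Q ∧
      (∀ x ≤ F.p', h0 (a x) = b (h0 x)) ∧ (∀ x ≤ F.p', h x = h0 x) ∧
      (∀ x, F.p' ≤ x → x ≤ Q → h (a x) = a ((G γ F.g0)⁻¹ (h x))) := by
  obtain ⟨Q, ah, hh, hQ, hap, hhp, haQ, hhz, hhQ, hlin, hcon⟩ := hC
  have hmu := F.mu0.ne'
  have haz : ah z = z := by
    have h1 := hlin z le_rfl F.zh_gt.le
    rw [hSt.hp] at h1
    apply Ψ.injective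
    rw [h1, hSt.hp]; ring
  have haz' : (ah⁻¹ : ℝ ≃o ℝ) z = z := by conv_lhs => rw [← haz, inv_apply]
  have haQ' : (ah⁻¹ : ℝ ≃o ℝ) Q = Q := by conv_lhs => rw [← haQ, inv_apply]
  have hhQ' : (hh⁻¹ : ℝ ≃o ℝ) Q = Q := by conv_lhs => rw [← hhQ, inv_apply]
  rw [F.gzh] at hhz
  have hhz' : (hh⁻¹ : ℝ ≃o ℝ) F.p' = z := by rw [← hhz, inv_apply]
  have ga : (h0⁻¹ * b * h0) z = (G γ F.g0 * ah⁻¹) z := by
    simp only [mulapp]
    rw [F.hbz, inv_apply, haz', G_neg F.g0 F.hz.le]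
  have gh : h0 F.p' = (G γ F.g0 * hh⁻¹) F.p' := by
    simp only [mulapp]
    rw [hhz', F.h0p, G_neg F.g0 F.hz.le]
  have hA : ∀ x ≤ F.p', h0 (glue (h0⁻¹ * b * h0) (G γ F.g0 * ah⁻¹) z ga x) = b (h0 x) := by
    intro x hx
    rcases le_total x z with h1 | h1
    · rw [glue_le ga h1]; simp only [mulapp, apply_inv]
    · rw [glue_ge ga h1]; simp only [mulapp]
      have h2 : ah (F.c x) = x := by
        apply Ψ.injective
        have h3 : z ≤ F.c x := by
          conv_lhs => rw [← F.c_z]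
          exact F.c.monotone h1
        have h4 : F.c x ≤ F.zh := by rw [← F.c_p']; exact F.c.monotone hx
        rw [hlin _ h3 h4, hΨ x h1 hx]
        field_simp
      have h5 : (ah⁻¹ : ℝ ≃o ℝ) x = F.c x := by conv_lhs => rw [← h2, inv_apply]
      rw [h5]
      have h4 : F.c x ≤ F.zh := by rw [← F.c_p']; exact F.c.monotone hx
      rw [G_neg F.g0 (h4.trans F.zh_neg.le), F.conj_eq h1]
  have hpQ : F.p' ≤ Q := F.p_neg.le.trans hQ.le
  refine ⟨Q, glue (h0⁻¹ * b * h0) (G γ F.g0 * ah⁻¹) z ga,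
    glue h0 (G γ F.g0 * hh⁻¹) F.p' gh, hQ,
    glue_plf _ ((F.plh.inv.mul F.plb).mul F.plh) ((G_plf _).mul hap.inv),
    glue_plf _ F.plh ((G_plf _).mul hhp.inv), ?_, ?_, hA, fun x hx => glue_le gh hx, ?_⟩
  · rw [glue_ge ga (F.hz.trans hQ).le]; simp only [mulapp]
    rw [haQ', G_pos F.g0 hQ.le]
  · rw [glue_ge gh hpQ]; simp only [mulapp]
    rw [hhQ', G_pos F.g0 hQ.le]
  · intro x hx hxQ
    set u := (hh⁻¹ : ℝ ≃o ℝ) x with hu
    have hxu : x = hh u := by rw [hu, apply_inv]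
    have hu1 : z ≤ u := by rw [← hhz', hu]; exact (hh⁻¹ : ℝ ≃o ℝ).monotone hx
    have hu2 : u ≤ Q := by rw [← hhQ', hu]; exact (hh⁻¹ : ℝ ≃o ℝ).monotone hxQ
    set v := (ah⁻¹ : ℝ ≃o ℝ) u with hv
    have huv : u = ah v := by rw [hv, apply_inv]
    have hv1 : z ≤ v := by rw [← haz', hv]; exact (ah⁻¹ : ℝ ≃o ℝ).monotone hu1
    have hv2 : v ≤ Q := by rw [← haQ', hv]; exact (ah⁻¹ : ℝ ≃o ℝ).monotone hu2
    have h1 := hcon v hv1 hv2
    rw [← huv, ← hxu] at h1
    have hx1 : z ≤ x := (F.zlt.trans F.p_gt).le.trans hx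
    have h2 : glue (h0⁻¹ * b * h0) (G γ F.g0 * ah⁻¹) z ga x = hh v := by
      rw [glue_ge ga hx1]; simp only [mulapp]
      rw [h1, inv_apply, apply_inv]
    have h3 : F.p' ≤ hh v := by rw [← hhz]; exact hh.monotone hv1
    rw [h2, glue_ge gh h3, glue_ge gh hx]
    simp only [mulapp, inv_apply]
    rw [glue_ge ga (show z ≤ (hh⁻¹ : ℝ ≃o ℝ) x from hu1)]
    simp only [mulapp]
    rw [← hu, ← hv]

end Fin

end TH960.PL
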