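import Pool.Agent.TH960.PL.Basic

/-! One-sided germs, affine pieces, minima. -/

namespace TH960.PL

open Filter Topology Set

theorem affine_Ioo {f : ℝ → ℝ} {u v : ℝ} (h : ∀ x ∈ Ioo u v, LocAff f x) (huv : u < v) :
    ∃ a b : ℝ, ∀ x ∈ Ioo u v, f x = a * x + b := by
  have hd : ∀ x ∈ Ioo u v, ∃ a, ∀ᶠ t in 𝓝 x, HasDerivAt f a t := by
    intro x hx
    obtain ⟨a, b, hab⟩ := h x hx
    refine ⟨a, ?_⟩
    filter_upwards [hab.eventually_nhds] with t ht
    have h1 : HasDerivAt (fun t : ℝ => a * t + b) a t := by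
      simpa using ((hasDerivAt_id t).const_mul a).add_const b
    exact h1.congr_of_eventuallyEq ht
  have hdiff : DifferentiableOn ℝ f (Ioo u v) := fun x hx => by
    obtain ⟨a, ha⟩ := hd x hx
    exact ha.self_of_nhds.differentiableAt.differentiableWithinAt
  have hderiv : ∀ x ∈ Ioo u v, ∃ a, ∀ᶠ t in 𝓝 x, deriv f t = a := by
    intro x hx
    obtain ⟨a, ha⟩ := hd x hx
    exact ⟨a, ha.mono fun t ht => ht.deriv⟩
  have hm : (u + v) / 2 ∈ Ioo u v := ⟨by linarith, by linarith⟩
  set m := (u + v) / 2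
  set A := deriv f m
  have hconst : ∀ x ∈ Ioo u v, deriv f x = A := by
    intro x hx
    apply isOpen_Ioo.is_const_of_deriv_eq_zero isPreconnected_Ioo (f := deriv f)
    · intro y hy
      obtain ⟨a, ha⟩ := hderiv y hy
      have : HasDerivAt (deriv f) 0 y :=
        (hasDerivAt_const y a).congr_of_eventuallyEq ha
      exact this.differentiableAt.differentiableWithinAt
    · intro y hy
      obtain ⟨a, ha⟩ := hderiv y hy
      have : HasDerivAt (deriv f) 0 y :=
        (hasDerivAt_const y a).congr_of_eventuallyEq ha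
      exact this.deriv
    · exact hx
    · exact hm
  refine ⟨A, f m - A * m, ?_⟩
  intro x hx
  have key : (fun y => f y - A * y) x = (fun y => f y - A * y) m := by
    apply isOpen_Ioo.is_const_of_deriv_eq_zero isPreconnected_Ioo (f := fun y => f y - A * y)
    · exact hdiff.sub (differentiableOn_id.const_mul A)
    · intro y hy
      obtain ⟨a, ha⟩ := hd y hy
      have h1 : HasDerivAt f A y := by
        have := ha.self_of_nhds
        have h2 : deriv f y = A := hconst y hy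
        rw [← h2, this.deriv]; exact this
      have h3 : HasDerivAt (fun y => f y - A * y) (A - A * 1) y :=
        h1.sub ((hasDerivAt_id y).const_mul A)
      rw [h3.deriv]; simp
    · exact hx
    · exact hm
  simp only at key
  linarith

theorem affine_Icc {f : ℝ → ℝ} (hc : Continuous f) {u v : ℝ}
    (h : ∀ x ∈ Ioo u v, LocAff f x) (huv : u < v) :
    ∃ a b : ℝ, ∀ x ∈ Icc u v, f x = a * x + b := by
  obtain ⟨a, b, hab⟩ := affine_Ioo h huv
  refine ⟨a, b, ?_⟩
  have hcl : closure (Ioo u v) = Icc u v := closure_Ioo huv.ne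
  intro x hx
  rw [← hcl] at hx
  have h1 : IsClosed {x | f x = a * x + b} := isClosed_eq hc (by fun_prop)
  exact closure_minimal (fun y hy => hab y hy) h1 hx

theorem right_germ {f : ℝ → ℝ} (hc : Continuous f) (hf : PLf f) (x : ℝ) :
    ∃ a y, x < y ∧ ∀ t ∈ Icc x y, f t = f x + a * (t - x) := by
  have h1 : ∀ᶠ y in 𝓝[>] x, LocAff f y := (hf x).filter_mono (nhdsWithin_mono _ (by
    intro y hy; exact ne_of_gt hy))
  obtain ⟨y, hy, hy2⟩ := (mem_nhdsGT_iff_exists_Ioo_subset).1 h1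
  obtain ⟨a, b, hab⟩ := affine_Icc hc (fun t ht => hy2 ht) hy
  refine ⟨a, y, hy, fun t ht => ?_⟩
  rw [hab t ht, hab x ⟨le_refl _, le_of_lt hy⟩]; ring

theorem left_germ {f : ℝ → ℝ} (hc : Continuous f) (hf : PLf f) (x : ℝ) :
    ∃ a y, y < x ∧ ∀ t ∈ Icc y x, f t = f x + a * (t - x) := by
  have h1 : ∀ᶠ y in 𝓝[<] x, LocAff f y := (hf x).filter_mono (nhdsWithin_mono _ (by
    intro y hy; exact ne_of_lt hy))
  obtain ⟨y, hy, hy2⟩ := (mem_nhdsLT_iff_exists_Ioo_subset).1 h1
  obtain ⟨a, b, hab⟩ := affine_Icc hc (fun t ht => hy2 ht) hy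
  refine ⟨a, y, hy, fun t ht => ?_⟩
  rw [hab t ht, hab x ⟨le_of_lt hy, le_refl _⟩]; ring

theorem germ_slope_pos {f : ℝ ≃o ℝ} {x y a : ℝ} (hxy : x < y)
    (h : ∀ t ∈ Icc x y, f t = f x + a * (t - x)) : 0 < a := by
  have h1 := h y ⟨hxy.le, le_refl _⟩
  have h2 := f.strictMono hxy
  by_contra h3
  push Not at h3
  nlinarith

theorem germ_slope_pos' {f : ℝ ≃o ℝ} {x y a : ℝ} (hxy : y < x)
    (h : ∀ t ∈ Icc y x, f t = f x + a * (t - x)) : 0 < a := by
  have h1 := h y ⟨le_refl _, hxy.le⟩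
  have h2 := f.strictMono hxy
  by_contra h3
  push Not at h3
  nlinarith

theorem finite_breaks {f : ℝ → ℝ} (hf : PLf f) (u v : ℝ) :
    {x | x ∈ Icc u v ∧ ¬ LocAff f x}.Finite := by
  by_contra hinf
  obtain ⟨x, -, hx⟩ := Set.Infinite.exists_accPt_of_subset_isCompact hinf
    (isCompact_Icc (a := u) (b := v)) (fun x hx => hx.1)
  rw [accPt_iff_frequently] at hx
  apply hx
  have := hf x
  rw [eventually_nhdsWithin_iff] at this
  filter_upwards [this] with y hy h2
  exact h2.2.2 (hy h2.1)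

end TH960.PL
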