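import Pool.Agent.TH960.PL.StepU

/-! Passing to the limit. -/

namespace TH960.PL

open Filter Topology Set

theorem limit_iso (a : ℕ → (ℝ ≃o ℝ)) (hpl : ∀ n, PLf (a n))
    (hst : ∀ (n : ℕ) (x : ℝ), x ≤ n → a (n + 1) x = a n x)
    (hsurj : ∀ y, ∃ n : ℕ, y ≤ a n n) :
    ∃ A : ℝ ≃o ℝ, PLf A ∧ ∀ (n : ℕ) (x : ℝ), x ≤ n → A x = a n x := by
  have hst2 : ∀ (n m : ℕ) (x : ℝ), x ≤ n → a (n + m) x = a n x := by
    intro n m x hx
    induction m with
    | zero => rfl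
    | succ m ih =>
      rw [← add_assoc, hst (n + m) x, ih]
      push_cast
      have : (0:ℝ) ≤ m := Nat.cast_nonneg m
      linarith
  set F : ℝ → ℝ := fun x => a ⌈x⌉₊ x with hF
  have hFn : ∀ (n : ℕ) (x : ℝ), x ≤ n → F x = a n x := by
    intro n x hx
    have h1 : ⌈x⌉₊ ≤ n := Nat.ceil_le.2 hx
    obtain ⟨m, rfl⟩ := Nat.exists_eq_add_of_le h1
    simp only [hF]
    rw [hst2 _ _ _ (Nat.le_ceil x)]
  have hmono : StrictMono F := by
    intro x y hxy
    have h1 := Nat.le_ceil y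
    rw [hFn ⌈y⌉₊ x (hxy.le.trans h1), hFn ⌈y⌉₊ y h1]
    exact (a _).strictMono hxy
  have hs : Function.Surjective F := by
    intro y
    obtain ⟨n, hn⟩ := hsurj y
    refine ⟨(a n)⁻¹ y, ?_⟩
    have h1 : (a n)⁻¹ y ≤ n := by
      rw [← inv_apply (a n) n]; exact (a n)⁻¹.monotone hn
    rw [hFn n _ h1, apply_inv]
  refine ⟨StrictMono.orderIsoOfSurjective F hmono hs, ?_, hFn⟩
  intro x
  have h1 : x < (⌈x⌉₊ + 1 : ℕ) := by push_cast; linarith [Nat.le_ceil x]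
  filter_upwards [hpl (⌈x⌉₊ + 1) x, nhdsWithin_le_nhds (eventually_lt_nhds h1)] with y h2 h3
  refine h2.congr ?_
  filter_upwards [eventually_lt_nhds h3] with t ht
  exact hFn _ t ht.le

theorem right_ext {g a b : ℝ ≃o ℝ} {p q : ℝ} (hg : PLf g) (U : Up g a b p q) (hm : Mode g p q) :
    ∃ (A B : ℝ ≃o ℝ) (P Q : ℕ → ℝ), PLf A ∧ PLf B ∧ A = B * g ∧ P 0 = p ∧ Q 0 = q ∧
      (∀ n, DStd A (P n) (P (n + 1))) ∧ (∀ n, DStd B (Q n) (Q (n + 1))) ∧
      (∀ y, ∃ n, y < P n) ∧ (∀ y, ∃ n, y < Q n) ∧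
      (∀ x ≤ max p q, A x = a x) ∧ (∀ x ≤ max p q, B x = b x) := by
  classical
  let StT := {t : (ℝ ≃o ℝ) × (ℝ ≃o ℝ) × ℝ × ℝ //
    Up g t.1 t.2.1 t.2.2.1 t.2.2.2 ∧ Mode g t.2.2.1 t.2.2.2}
  let NN : ℕ → StT → ℝ := fun n t => max n (max t.1.2.2.1 t.1.2.2.2)
  have hnext : ∀ (n : ℕ) (t : StT), ∃ t' : StT, DStd t'.1.1 t.1.2.2.1 t'.1.2.2.1 ∧
      DStd t'.1.2.1 t.1.2.2.2 t'.1.2.2.2 ∧ NN n t < t'.1.2.2.1 ∧ NN n t < t'.1.2.2.2 ∧
      (∀ x ≤ NN n t, t'.1.1 x = t.1.1 x) ∧ (∀ x ≤ NN n t, t'.1.2.1 x = t.1.2.1 x) := by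
    intro n t
    obtain ⟨a', b', p', q', h1, h2, h3, h4, h5, h6, h7, h8⟩ :=
      macro_step (NN n t) hg t.2.1 t.2.2
    exact ⟨⟨(a', b', p', q'), h1, h2⟩, h3, h4, h5, h6, h7, h8⟩
  choose nxt hn1 hn2 hn3 hn4 hn5 hn6 using hnext
  let t0 : StT := ⟨(a, b, p, q), U, hm⟩
  let S : ℕ → StT := fun n => Nat.rec t0 (fun n t => nxt n t) n
  have hS0 : S 0 = t0 := rfl
  have hSs : ∀ n, S (n + 1) = nxt n (S n) := fun n => rfl
  obtain ⟨an, han⟩ : ∃ an : ℕ → (ℝ ≃o ℝ), an = fun n => (S n).1.1 := ⟨_, rfl⟩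
  obtain ⟨bn, hbn⟩ : ∃ bn : ℕ → (ℝ ≃o ℝ), bn = fun n => (S n).1.2.1 := ⟨_, rfl⟩
  obtain ⟨pn, hpn⟩ : ∃ pn : ℕ → ℝ, pn = fun n => (S n).1.2.2.1 := ⟨_, rfl⟩
  obtain ⟨qn, hqn⟩ : ∃ qn : ℕ → ℝ, qn = fun n => (S n).1.2.2.2 := ⟨_, rfl⟩
  have hU : ∀ n, Up g (an n) (bn n) (pn n) (qn n) := fun n => by
    rw [han, hbn, hpn, hqn]; exact (S n).2.1
  have hD1 : ∀ n, DStd (an (n + 1)) (pn n) (pn (n + 1)) := fun n => by
    rw [han, hpn]; exact hn1 n (S n)
  have hD2 : ∀ n, DStd (bn (n + 1)) (qn n) (qn (n + 1)) := fun n => by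
    rw [hbn, hqn]; exact hn2 n (S n)
  have hN1 : ∀ n : ℕ, max (n:ℝ) (max (pn n) (qn n)) < pn (n + 1) := fun n => by
    rw [hpn, hqn]; exact hn3 n (S n)
  have hN2 : ∀ n : ℕ, max (n:ℝ) (max (pn n) (qn n)) < qn (n + 1) := fun n => by
    rw [hpn, hqn]; exact hn4 n (S n)
  have hA : ∀ (n : ℕ) (x : ℝ), x ≤ max (n:ℝ) (max (pn n) (qn n)) → an (n + 1) x = an n x := by
    rw [han, hpn, hqn]; exact fun n => hn5 n (S n)
  have hB : ∀ (n : ℕ) (x : ℝ), x ≤ max (n:ℝ) (max (pn n) (qn n)) → bn (n + 1) x = bn n x := by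
    rw [hbn, hpn, hqn]; exact fun n => hn6 n (S n)
  have ha0 : an 0 = a := by rw [han]; rfl
  have hb0 : bn 0 = b := by rw [hbn]; rfl
  have hp0 : pn 0 = p := by rw [hpn]; rfl
  have hq0 : qn 0 = q := by rw [hqn]; rfl
  clear_value S
  -- monotonicity of r n = max (pn n) (qn n)
  have hr : ∀ n m : ℕ, max (pn n) (qn n) ≤ max (pn (n + m)) (qn (n + m)) := by
    intro n m
    induction m with
    | zero => exact le_rfl
    | succ m ih =>
      refine ih.trans ?_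
      rw [← add_assoc]
      exact (le_max_right _ _).trans ((hN1 (n + m)).le.trans (le_max_left _ _))
  have hAr : ∀ (n m : ℕ) (x : ℝ), x ≤ max (pn n) (qn n) → an (n + m) x = an n x := by
    intro n m x hx
    induction m with
    | zero => rfl
    | succ m ih =>
      rw [← add_assoc, hA (n + m) x, ih]
      exact (hx.trans (hr n m)).trans (le_max_right _ _)
  have hBr : ∀ (n m : ℕ) (x : ℝ), x ≤ max (pn n) (qn n) → bn (n + m) x = bn n x := by
    intro n m x hx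
    induction m with
    | zero => rfl
    | succ m ih =>
      rw [← add_assoc, hB (n + m) x, ih]
      exact (hx.trans (hr n m)).trans (le_max_right _ _)
  have hptop : ∀ y, ∃ n, y < pn n := by
    intro y
    obtain ⟨n, hn⟩ := exists_nat_gt y
    exact ⟨n + 1, hn.trans ((le_max_left _ _).trans_lt (hN1 n))⟩
  have hqtop : ∀ y, ∃ n, y < qn n := by
    intro y
    obtain ⟨n, hn⟩ := exists_nat_gt y
    exact ⟨n + 1, hn.trans ((le_max_left _ _).trans_lt (hN2 n))⟩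
  obtain ⟨A, hApl, hAn⟩ := limit_iso an (fun n => (hU n).pla)
    (fun n x hx => hA n x (hx.trans (le_max_left _ _)))
    (by
      intro y
      obtain ⟨j, hj⟩ := hptop y
      obtain ⟨k, hk⟩ := exists_nat_gt (pn j)
      refine ⟨j + k, ?_⟩
      have h1 : an (j + k) (pn j) = pn j := by
        rw [hAr j k _ (le_max_left _ _)]; exact (hU j).ra.fix
      have h2 : pn j ≤ ((j + k : ℕ) : ℝ) := by
        push_cast
        have : (0:ℝ) ≤ j := Nat.cast_nonneg j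
        linarith
      have h3 := (an (j + k)).monotone h2
      rw [h1] at h3
      linarith)
  obtain ⟨B, hBpl, hBn⟩ := limit_iso bn (fun n => (hU n).plb)
    (fun n x hx => hB n x (hx.trans (le_max_left _ _)))
    (by
      intro y
      obtain ⟨j, hj⟩ := hqtop y
      obtain ⟨k, hk⟩ := exists_nat_gt (qn j)
      refine ⟨j + k, ?_⟩
      have h1 : bn (j + k) (qn j) = qn j := by
        rw [hBr j k _ (le_max_right _ _)]; exact (hU j).rb.fix
      have h2 : qn j ≤ ((j + k : ℕ) : ℝ) := by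
        push_cast
        have : (0:ℝ) ≤ j := Nat.cast_nonneg j
        linarith
      have h3 := (bn (j + k)).monotone h2
      rw [h1] at h3
      linarith)
  have hAv : ∀ (n : ℕ) (x : ℝ), x ≤ max (pn n) (qn n) → A x = an n x := by
    intro n x hx
    obtain ⟨k, hk⟩ := exists_nat_gt x
    rw [hAn (n + k) x, hAr n k x hx]
    push_cast
    have : (0:ℝ) ≤ n := Nat.cast_nonneg n
    linarith
  have hBv : ∀ (n : ℕ) (x : ℝ), x ≤ max (pn n) (qn n) → B x = bn n x := by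
    intro n x hx
    obtain ⟨k, hk⟩ := exists_nat_gt x
    rw [hBn (n + k) x, hBr n k x hx]
    push_cast
    have : (0:ℝ) ≤ n := Nat.cast_nonneg n
    linarith
  refine ⟨A, B, pn, qn, hApl, hBpl, ?_, hp0, hq0, ?_, ?_, hptop, hqtop, ?_, ?_⟩
  · ext x
    obtain ⟨n, hn⟩ := exists_nat_gt x
    obtain ⟨m, hm'⟩ := exists_nat_gt (g x)
    have h1 : x ≤ ((n + m : ℕ) : ℝ) := by
      push_cast
      have : (0:ℝ) ≤ m := Nat.cast_nonneg m
      linarith
    have h2 : g x ≤ ((n + m : ℕ) : ℝ) := by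
      push_cast
      have : (0:ℝ) ≤ n := Nat.cast_nonneg n
      linarith
    simp only [mulapp]
    rw [hAn _ x h1, hBn _ _ h2, (hU (n + m)).hab]; rfl
  · intro n
    exact (hD1 n).congr (fun x _ hx2 => hAv (n + 1) x (hx2.trans (le_max_left _ _)))
  · intro n
    exact (hD2 n).congr (fun x _ hx2 => hBv (n + 1) x (hx2.trans (le_max_right _ _)))
  · intro x hx
    rw [← hp0, ← hq0] at hx
    rw [hAv 0 x hx, ha0]
  · intro x hx
    rw [← hp0, ← hq0] at hx
    rw [hBv 0 x hx, hb0]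

theorem rev_of_two_chains {f : ℝ ≃o ℝ} (P P' : ℕ → ℝ) (h0 : P' 0 = -P 0)
    (h1 : ∀ n, DStd f (P n) (P (n + 1))) (h2 : ∀ n, DStd f (-P' (n + 1)) (-P' n))
    (ht : ∀ y, ∃ n, y < P n) (ht' : ∀ y, ∃ n, y < P' n) : Rev f := by
  classical
  set R : ℤ → ℝ := fun k => if 0 ≤ k then P k.toNat else -P' (-k).toNat with hR
  have Rpos : ∀ n : ℕ, R n = P n := fun n => by simp [hR]
  have Rneg : ∀ n : ℕ, R (-(n : ℤ)) = -P' n := by
    intro n
    rcases Nat.eq_zero_or_pos n with h | h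
    · subst h; simp [hR, h0]
    · have : ¬ (0 : ℤ) ≤ -(n : ℤ) := by omega
      simp only [hR]
      rw [if_neg this]; simp
  apply rev_of_chain R
  · intro y
    obtain ⟨n, hn⟩ := ht y
    exact ⟨n, by rw [Rpos]; exact hn⟩
  · intro y
    obtain ⟨n, hn⟩ := ht' (-y)
    exact ⟨-(n : ℤ), by rw [Rneg]; linarith⟩
  · intro k
    rcases le_or_gt 0 k with h | h
    · obtain ⟨n, rfl⟩ := Int.eq_ofNat_of_zero_le h
      have e : ((n : ℤ) + 1) = ((n + 1 : ℕ) : ℤ) := by push_cast; ring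
      rw [Rpos, e, Rpos]; exact h1 n
    · obtain ⟨n, hn⟩ := Int.eq_ofNat_of_zero_le (show 0 ≤ -k - 1 by omega)
      have e1 : k = -((n + 1 : ℕ) : ℤ) := by push_cast; omega
      have e2 : k + 1 = -(n : ℤ) := by omega
      rw [e2, Rneg, e1, Rneg]; exact h2 n

theorem two_of_start {g a b : ℝ ≃o ℝ} {p q : ℝ} (hg : PLf g) (U : Up g a b p q)
    (hm : Mode g p q) (U' : Up (nc g) (nc a) (nc b) (-p) (-q)) (hm' : Mode (nc g) (-p) (-q)) :
    Two g := by
  obtain ⟨A, B, P, Q, hA, hB, hAB, hP0, hQ0, hDA, hDB, htP, htQ, agA, agB⟩ := right_ext hg U hm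
  have eA : ∀ x, -p ≤ x → nc A x = nc a x := by
    intro x hx
    rw [nc_apply, nc_apply, agA _ ((by linarith : -x ≤ p).trans (le_max_left _ _))]
  have eB : ∀ x, -q ≤ x → nc B x = nc b x := by
    intro x hx
    rw [nc_apply, nc_apply, agB _ ((by linarith : -x ≤ q).trans (le_max_right _ _))]
  have U2 : Up (nc g) (nc A) (nc B) (-p) (-q) := by
    refine ⟨by rw [hAB, nc_mul], nc_plf hA, nc_plf hB, ?_, ?_, ?_, ?_⟩
    · intro x hx; rw [eA x hx.le]; exact U'.ha x hx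
    · intro x hx; rw [eB x hx.le]; exact U'.hb x hx
    · exact U'.ra.congr (lt_add_one _) (fun x hx _ => eA x hx)
    · exact U'.rb.congr (lt_add_one _) (fun x hx _ => eB x hx)
  obtain ⟨A', B', P', Q', hA', hB', hAB', hP0', hQ0', hDA', hDB', htP', htQ', agA', agB'⟩ :=
    right_ext (nc_plf hg) U2 hm'
  have fA : ∀ x, p ≤ x → nc A' x = A x := by
    intro x hx
    rw [nc_apply, agA' _ ((by linarith : -x ≤ -p).trans (le_max_left _ _)), nc_apply]; simp
  have fB : ∀ x, q ≤ x → nc B' x = B x := by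
    intro x hx
    rw [nc_apply, agB' _ ((by linarith : -x ≤ -q).trans (le_max_right _ _)), nc_apply]; simp
  have hPm : ∀ n, p ≤ P n := by
    intro n
    induction n with
    | zero => exact hP0.ge
    | succ n ih => exact ih.trans (hDA n).lt.le
  have hQm : ∀ n, q ≤ Q n := by
    intro n
    induction n with
    | zero => exact hQ0.ge
    | succ n ih => exact ih.trans (hDB n).lt.le
  have RA : Rev (nc A') := by
    apply rev_of_two_chains P P' (by rw [hP0', hP0])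
    · intro n
      exact (hDA n).congr (fun x hx _ => fA x ((hPm n).trans hx))
    · intro n
      apply DStd.refl
      rw [nc_nc]; exact hDA' n
    · exact htP
    · exact htP'
  have RB : Rev (nc B') := by
    apply rev_of_two_chains Q Q' (by rw [hQ0', hQ0])
    · intro n
      exact (hDB n).congr (fun x hx _ => fB x ((hQm n).trans hx))
    · intro n
      apply DStd.refl
      rw [nc_nc]; exact hDB' n
    · exact htQ
    · exact htQ'
  have hg2 : nc A' = nc B' * g := by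
    rw [hAB', nc_mul, nc_nc]
  refine ⟨(nc B')⁻¹, nc A', (nc_plf hB').inv, nc_plf hA', RB.inv, RA, ?_⟩
  rw [hg2]; group

end TH960.PL
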