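import Pool.Agent.TH960.PL.ZGlue

/-! Minimum, maximum, reflection. -/

namespace TH960.PL

open Filter Topology Set

noncomputable def minIso (f g : ℝ ≃o ℝ) : ℝ ≃o ℝ :=
  StrictMono.orderIsoOfSurjective (fun x => min (f x) (g x))
    (fun x y hxy => min_lt_min (f.strictMono hxy) (g.strictMono hxy))
    (by
      intro y
      rcases le_total ((f⁻¹ : ℝ ≃o ℝ) y) ((g⁻¹ : ℝ ≃o ℝ) y) with h | h
      · refine ⟨(g⁻¹ : ℝ ≃o ℝ) y, ?_⟩
        have : y ≤ f ((g⁻¹ : ℝ ≃o ℝ) y) := by
          conv_lhs => rw [← apply_inv f y]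
          exact f.monotone h
        simp [this]
      · refine ⟨(f⁻¹ : ℝ ≃o ℝ) y, ?_⟩
        have : y ≤ g ((f⁻¹ : ℝ ≃o ℝ) y) := by
          conv_lhs => rw [← apply_inv g y]
          exact g.monotone h
        simp [this])

theorem minIso_apply (f g : ℝ ≃o ℝ) (x : ℝ) : minIso f g x = min (f x) (g x) := rfl

noncomputable def maxIso (f g : ℝ ≃o ℝ) : ℝ ≃o ℝ :=
  StrictMono.orderIsoOfSurjective (fun x => max (f x) (g x))
    (fun x y hxy => max_lt_max (f.strictMono hxy) (g.strictMono hxy))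
    (by
      intro y
      rcases le_total ((f⁻¹ : ℝ ≃o ℝ) y) ((g⁻¹ : ℝ ≃o ℝ) y) with h | h
      · refine ⟨(f⁻¹ : ℝ ≃o ℝ) y, ?_⟩
        have : g ((f⁻¹ : ℝ ≃o ℝ) y) ≤ y := by
          conv_rhs => rw [← apply_inv g y]
          exact g.monotone h
        simp [this]
      · refine ⟨(g⁻¹ : ℝ ≃o ℝ) y, ?_⟩
        have : f ((g⁻¹ : ℝ ≃o ℝ) y) ≤ y := by
          conv_rhs => rw [← apply_inv f y]
          exact f.monotone h
        simp [this])

theorem maxIso_apply (f g : ℝ ≃o ℝ) (x : ℝ) : maxIso f g x = max (f x) (g x) := rfl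

theorem pl_of_sel {f g A B : ℝ ≃o ℝ} {h : ℝ → ℝ} (hf : PLf f) (hg : PLf g) (hA : PLf A)
    (hB : PLf B) (h1 : ∀ t, f t < g t → h t = A t) (h2 : ∀ t, g t < f t → h t = B t)
    (h3 : ∀ t, f t = g t → h t = f t) : PLf h := by
  have key1 : ∀ t, f t < g t → LocAff A t → LocAff h t := by
    intro t ht hAt
    refine hAt.congr ?_
    have : ∀ᶠ s in 𝓝 t, f s < g s :=
      (isoCont f).continuousAt.eventually_lt (isoCont g).continuousAt ht
    filter_upwards [this] with s hs using h1 s hs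
  have key2 : ∀ t, g t < f t → LocAff B t → LocAff h t := by
    intro t ht hBt
    refine hBt.congr ?_
    have : ∀ᶠ s in 𝓝 t, g s < f s :=
      (isoCont g).continuousAt.eventually_lt (isoCont f).continuousAt ht
    filter_upwards [this] with s hs using h2 s hs
  have key3 : ∀ u v, (∀ t ∈ Ioo u v, f t = g t) → ∀ t ∈ Ioo u v, LocAff f t → LocAff h t := by
    intro u v huv t ht hft
    refine hft.congr ?_
    filter_upwards [isOpen_Ioo.mem_nhds ht] with s hs using h3 s (huv s hs)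
  intro x
  have hsplit : 𝓝[≠] x = 𝓝[<] x ⊔ 𝓝[>] x := by
    rw [← nhdsWithin_union]; congr 1; ext y; simp [lt_or_lt_iff_ne]
  rw [hsplit, eventually_sup]
  have hle1 : 𝓝[<] x ≤ 𝓝[≠] x := nhdsWithin_mono _ (fun y hy => ne_of_lt hy)
  have hle2 : 𝓝[>] x ≤ 𝓝[≠] x := nhdsWithin_mono _ (fun y hy => ne_of_gt hy)
  constructor
  · obtain ⟨a, y, hy, hay⟩ := left_germ (isoCont f) hf x
    obtain ⟨b, z, hz, hbz⟩ := left_germ (isoCont g) hg x
    have hm : ∀ᶠ t in 𝓝[<] x, t ∈ Ioo (max y z) x := Ioo_mem_nhdsLT (max_lt hy hz)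
    have hlt : ∀ᶠ t in 𝓝[<] x, f t < g t ∨ g t < f t ∨ ∃ u v, t ∈ Ioo u v ∧ ∀ s ∈ Ioo u v, f s = g s := by
      rcases lt_trichotomy (f x) (g x) with h | h | h
      · have : ∀ᶠ s in 𝓝 x, f s < g s :=
          (isoCont f).continuousAt.eventually_lt (isoCont g).continuousAt h
        exact (this.filter_mono nhdsWithin_le_nhds).mono fun s hs => Or.inl hs
      · rcases lt_trichotomy a b with h' | h' | h'
        · filter_upwards [hm] with t ht
          right; left
          rw [hay t ⟨(le_max_left _ _).trans ht.1.le, ht.2.le⟩,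
            hbz t ⟨(le_max_right _ _).trans ht.1.le, ht.2.le⟩, h]
          have := ht.2
          nlinarith
        · filter_upwards [hm] with t ht
          right; right
          refine ⟨_, _, ht, fun s hs => ?_⟩
          rw [hay s ⟨(le_max_left _ _).trans hs.1.le, hs.2.le⟩,
            hbz s ⟨(le_max_right _ _).trans hs.1.le, hs.2.le⟩, h, h']
        · filter_upwards [hm] with t ht
          left
          rw [hay t ⟨(le_max_left _ _).trans ht.1.le, ht.2.le⟩,
            hbz t ⟨(le_max_right _ _).trans ht.1.le, ht.2.le⟩, h]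
          have := ht.2
          nlinarith
      · have : ∀ᶠ s in 𝓝 x, g s < f s :=
          (isoCont g).continuousAt.eventually_lt (isoCont f).continuousAt h
        exact (this.filter_mono nhdsWithin_le_nhds).mono fun s hs => Or.inr (Or.inl hs)
    filter_upwards [hlt, (hf x).filter_mono hle1, (hA x).filter_mono hle1,
      (hB x).filter_mono hle1] with t ht e1 e2 e3
    rcases ht with h | h | ⟨u, v, h, h'⟩
    · exact key1 t h e2
    · exact key2 t h e3
    · exact key3 u v h' t h e1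
  · obtain ⟨a, y, hy, hay⟩ := right_germ (isoCont f) hf x
    obtain ⟨b, z, hz, hbz⟩ := right_germ (isoCont g) hg x
    have hm : ∀ᶠ t in 𝓝[>] x, t ∈ Ioo x (min y z) := Ioo_mem_nhdsGT (lt_min hy hz)
    have hlt : ∀ᶠ t in 𝓝[>] x, f t < g t ∨ g t < f t ∨ ∃ u v, t ∈ Ioo u v ∧ ∀ s ∈ Ioo u v, f s = g s := by
      rcases lt_trichotomy (f x) (g x) with h | h | h
      · have : ∀ᶠ s in 𝓝 x, f s < g s :=
          (isoCont f).continuousAt.eventually_lt (isoCont g).continuousAt h
        exact (this.filter_mono nhdsWithin_le_nhds).mono fun s hs => Or.inl hs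
      · rcases lt_trichotomy a b with h' | h' | h'
        · filter_upwards [hm] with t ht
          left
          rw [hay t ⟨ht.1.le, ht.2.le.trans (min_le_left _ _)⟩,
            hbz t ⟨ht.1.le, ht.2.le.trans (min_le_right _ _)⟩, h]
          have := ht.1
          nlinarith
        · filter_upwards [hm] with t ht
          right; right
          refine ⟨_, _, ht, fun s hs => ?_⟩
          rw [hay s ⟨hs.1.le, hs.2.le.trans (min_le_left _ _)⟩,
            hbz s ⟨hs.1.le, hs.2.le.trans (min_le_right _ _)⟩, h, h']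
        · filter_upwards [hm] with t ht
          right; left
          rw [hay t ⟨ht.1.le, ht.2.le.trans (min_le_left _ _)⟩,
            hbz t ⟨ht.1.le, ht.2.le.trans (min_le_right _ _)⟩, h]
          have := ht.1
          nlinarith
      · have : ∀ᶠ s in 𝓝 x, g s < f s :=
          (isoCont g).continuousAt.eventually_lt (isoCont f).continuousAt h
        exact (this.filter_mono nhdsWithin_le_nhds).mono fun s hs => Or.inr (Or.inl hs)
    filter_upwards [hlt, (hf x).filter_mono hle2, (hA x).filter_mono hle2,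
      (hB x).filter_mono hle2] with t ht e1 e2 e3
    rcases ht with h | h | ⟨u, v, h, h'⟩
    · exact key1 t h e2
    · exact key2 t h e3
    · exact key3 u v h' t h e1

theorem minIso_plf {f g : ℝ ≃o ℝ} (hf : PLf f) (hg : PLf g) : PLf (minIso f g) :=
  pl_of_sel hf hg hf hg (fun _ h => min_eq_left h.le) (fun _ h => min_eq_right h.le)
    (fun _ h => min_eq_left h.le)

theorem maxIso_plf {f g : ℝ ≃o ℝ} (hf : PLf f) (hg : PLf g) : PLf (maxIso f g) :=
  pl_of_sel hf hg hg hf (fun _ h => max_eq_right h.le) (fun _ h => max_eq_left h.le)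
    (fun _ h => max_eq_left h.ge)

/-- reflection -/
noncomputable def nc (f : ℝ ≃o ℝ) : ℝ ≃o ℝ :=
  StrictMono.orderIsoOfSurjective (fun x => -f (-x))
    (fun x y hxy => neg_lt_neg (f.strictMono (neg_lt_neg hxy)))
    (fun y => ⟨-(f⁻¹ : ℝ ≃o ℝ) (-y), by simp⟩)

theorem nc_apply (f : ℝ ≃o ℝ) (x : ℝ) : nc f x = -f (-x) := rfl

theorem nc_mul (f g : ℝ ≃o ℝ) : nc (f * g) = nc f * nc g := by
  ext x; simp [nc_apply, mulapp]

theorem nc_one : nc 1 = 1 := by
  ext x; rw [nc_apply]; change -(-x) = x; ring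

theorem nc_inv (f : ℝ ≃o ℝ) : nc f⁻¹ = (nc f)⁻¹ := by
  have : nc f * nc f⁻¹ = 1 := by rw [← nc_mul, mul_inv_cancel, nc_one]
  exact (eq_inv_of_mul_eq_one_right this)

theorem nc_nc (f : ℝ ≃o ℝ) : nc (nc f) = f := by
  ext x; simp [nc_apply]

theorem nc_plf {f : ℝ ≃o ℝ} (hf : PLf f) : PLf (nc f) := by
  intro x
  have ht : Tendsto (fun y : ℝ => -y) (𝓝[≠] x) (𝓝[≠] (-x)) :=
    tendsto_nhdsWithin_of_tendsto_nhds_of_eventually_within _
      (continuous_neg.continuousAt.tendsto.mono_left nhdsWithin_le_nhds)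
      (by
        filter_upwards [self_mem_nhdsWithin] with y hy
        exact fun h => hy (neg_injective h))
  filter_upwards [ht.eventually (hf (-x))] with y hy
  obtain ⟨a, b, hab⟩ := hy
  refine ⟨a, -b, ?_⟩
  have h1 : ∀ᶠ t in 𝓝 y, f (-t) = a * (-t) + b :=
    (continuous_neg.continuousAt (x := y)).tendsto.eventually hab
  filter_upwards [h1] with t ht
  rw [nc_apply, ht]; ring

theorem Rev.nc {f : ℝ ≃o ℝ} (hf : Rev f) : Rev (nc f) := by
  obtain ⟨h, h1, h2⟩ := hf
  refine ⟨PL.nc h, nc_plf h1, ?_⟩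
  rw [← nc_inv, ← nc_mul, ← nc_mul, h2, nc_inv]

theorem Two.nc {g : ℝ ≃o ℝ} (hg : Two g) : Two (nc g) := by
  obtain ⟨r1, r2, h1, h2, h3, h4, rfl⟩ := hg
  exact ⟨PL.nc r1, PL.nc r2, nc_plf h1, nc_plf h2, h3.nc, h4.nc, nc_mul _ _⟩

end TH960.PL
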