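import Pool.Agent.TH960.PL.Limit
import Pool.Agent.TH960.PL.CompactTwo

/-! Starting configurations and the main theorem. -/

namespace TH960.PL

open Filter Topology Set

theorem start2 {g : ℝ ≃o ℝ} {M : ℝ} (hg : PLf g) (hR : ∀ N, ∃ y, N < y ∧ g y ≠ y)
    (hL : ∀ x ≤ M, g x = x) : Two g := by
  have hLi : ∀ x ≤ M, (g⁻¹ : ℝ ≃o ℝ) x = x := fun x hx => by
    conv_lhs => rw [← hL x hx, inv_apply]
  obtain ⟨p, hp⟩ : ∃ p, p = M - 1 := ⟨_, rfl⟩
  obtain ⟨a, ha⟩ : ∃ a, a = aff p p 2 two_pos * maxIso 1 g := ⟨_, rfl⟩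
  obtain ⟨b, hb⟩ : ∃ b, b = aff p p 2 two_pos * maxIso g⁻¹ 1 := ⟨_, rfl⟩
  have aa : ∀ x, a x = p + 2 * (max x (g x) - p) := fun x => by rw [ha]; rfl
  have bb : ∀ x, b x = p + 2 * (max ((g⁻¹ : ℝ ≃o ℝ) x) x - p) := fun x => by rw [hb]; rfl
  have apl : PLf a := by rw [ha]; exact (plf_aff _ _ _ _).mul (maxIso_plf PLf.one hg)
  have bpl : PLf b := by rw [hb]; exact (plf_aff _ _ _ _).mul (maxIso_plf hg.inv PLf.one)
  have hab : a = b * g := by
    ext x
    rw [mulapp, aa, bb, inv_apply]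
  refine two_of_start (a := a) (b := b) (p := p) (q := p) hg
    ⟨hab, apl, bpl, ?_, ?_, ?_, ?_⟩ (Or.inl hR)
    ⟨by rw [hab, nc_mul], nc_plf apl, nc_plf bpl, ?_, ?_, ?_, ?_⟩ (Or.inr ⟨rfl, ?_⟩)
  · intro x hx
    rw [aa]; linarith [le_max_left x (g x)]
  · intro x hx
    rw [bb]; linarith [le_max_right ((g⁻¹ : ℝ ≃o ℝ) x) x]
  · exact rep_of_double (e := M) (by linarith) (fun x _ hx2 => by
      rw [aa, hL x hx2, max_self])
  · exact rep_of_double (e := M) (by linarith) (fun x _ hx2 => by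
      rw [bb, hLi x hx2, max_self])
  · intro x hx
    rw [nc_apply, aa, hL (-x) (by linarith), max_self]; linarith
  · intro x hx
    rw [nc_apply, bb, hLi (-x) (by linarith), max_self]; linarith
  · exact rep_of_double (lt_add_one _) (fun x hx _ => by
      rw [nc_apply, aa, hL (-x) (by linarith), max_self]; ring)
  · exact rep_of_double (lt_add_one _) (fun x hx _ => by
      rw [nc_apply, bb, hLi (-x) (by linarith), max_self]; ring)
  · intro x hx
    rw [nc_apply, hL (-x) (by linarith)]; ring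

theorem start1 {g : ℝ ≃o ℝ} {p : ℝ} (hg : PLf g) (hR : ∀ N, ∃ y, N < y ∧ g y ≠ y)
    (hL : ∀ N, ∃ y, y < N ∧ g y ≠ y) (hp : p < g p) : Two g := by
  obtain ⟨s, y, hy, hgerm⟩ := right_germ (isoCont g) hg p
  -- choose x*
  have hex : ∃ xs, p < xs ∧ xs < y ∧ 2 * xs - p + g xs < 2 * g p := by
    have e1 : ∀ᶠ x in 𝓝[>] p, x < y := nhdsWithin_le_nhds (eventually_lt_nhds hy)
    have e2 : ∀ᶠ x in 𝓝[>] p, 2 * x - p + g x < 2 * g p := by
      have hc : Continuous (fun x => 2 * x - p + g x) := by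
        have := isoCont g
        fun_prop
      have : Tendsto (fun x => 2 * x - p + g x) (𝓝[>] p) (𝓝 (2 * p - p + g p)) :=
        (hc.tendsto p).mono_left nhdsWithin_le_nhds
      exact this.eventually (eventually_lt_nhds (by linarith))
    have e3 : ∀ᶠ x in 𝓝[>] p, p < x := eventually_mem_nhdsWithin
    obtain ⟨x, h1, h2, h3⟩ := (e3.and (e1.and e2)).exists
    exact ⟨x, h1, h2, h3⟩
  obtain ⟨xs, hpx, hxy, hcond⟩ := hex
  obtain ⟨q, hq⟩ : ∃ q, q = g xs := ⟨_, rfl⟩
  have hs : 0 < s := germ_slope_pos hy hgerm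
  obtain ⟨u, hu⟩ : ∃ u, u = aff p p 2 two_pos := ⟨_, rfl⟩
  obtain ⟨v, hv⟩ : ∃ v, v = aff q q 2 two_pos * g := ⟨_, rfl⟩
  have ua : ∀ x, u x = p + 2 * (x - p) := fun x => by rw [hu]; rfl
  have va : ∀ x, v x = q + 2 * (g x - q) := fun x => by rw [hv]; rfl
  have upl : PLf u := by rw [hu]; exact plf_aff _ _ _ _
  have vpl : PLf v := by rw [hv]; exact (plf_aff _ _ _ _).mul hg
  have huv : ∀ x, p ≤ x → x ≤ xs → u x < v x := by
    intro x hx hx2
    have := g.monotone hx
    rw [ua, va, hq]; linarith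
  obtain ⟨m1, hm1⟩ : ∃ m1, m1 = p + (xs - p) / 3 := ⟨_, rfl⟩
  obtain ⟨m2, hm2⟩ : ∃ m2, m2 = p + 2 * (xs - p) / 3 := ⟨_, rfl⟩
  have h01 : p < m1 := by rw [hm1]; linarith
  have h12 : m1 < m2 := by rw [hm1, hm2]; linarith
  have h2s : m2 < xs := by rw [hm2]; linarith
  have huvm : u m1 < v m2 := (u.strictMono h12).trans (huv m2 (by linarith) h2s.le)
  obtain ⟨κ, hκ0, hκ⟩ : ∃ κ : ℝ, 0 < κ ∧ κ * (m2 - m1) = v m2 - u m1 := by
    have : 0 < m2 - m1 := by linarith
    exact ⟨(v m2 - u m1) / (m2 - m1), div_pos (by linarith) this, by field_simp⟩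
  have e1 : (minIso u v) m1 = (aff m1 (u m1) κ hκ0) m1 := by
    rw [minIso_apply, aff_apply, min_eq_left (huv m1 h01.le (by linarith)).le]; ring
  have e2 : (glue (minIso u v) (aff m1 (u m1) κ hκ0) m1 e1) m2 = (maxIso u v) m2 := by
    rw [glue_ge e1 h12.le, maxIso_apply, aff_apply, hκ,
      max_eq_right (huv m2 (by linarith) h2s.le).le]; ring
  obtain ⟨a, ha⟩ : ∃ a, a = glue (glue (minIso u v) (aff m1 (u m1) κ hκ0) m1 e1)
    (maxIso u v) m2 e2 := ⟨_, rfl⟩
  have aL : ∀ x ≤ m1, a x = min (u x) (v x) := fun x hx => by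
    rw [ha, glue_le e2 (hx.trans h12.le), glue_le e1 hx, minIso_apply]
  have aM : ∀ x, m1 ≤ x → x ≤ m2 → a x = u m1 + κ * (x - m1) := fun x hx hx2 => by
    rw [ha, glue_le e2 hx2, glue_ge e1 hx, aff_apply]
  have aR : ∀ x, m2 ≤ x → a x = max (u x) (v x) := fun x hx => by
    rw [ha, glue_ge e2 hx, maxIso_apply]
  have apl : PLf a := by
    rw [ha]
    exact glue_plf _ (glue_plf _ (minIso_plf upl vpl) (plf_aff _ _ _ _)) (maxIso_plf upl vpl)
  obtain ⟨b, hb⟩ : ∃ b, b = a * g⁻¹ := ⟨_, rfl⟩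
  have bpl : PLf b := by rw [hb]; exact apl.mul hg.inv
  have hab : a = b * g := by rw [hb]; group
  have bg : ∀ x, b (g x) = a x := fun x => by rw [hab]; rfl
  have v1 : v m1 < g m1 := by
    have := g.strictMono (h12.trans h2s)
    rw [va, hq]; linarith
  have v2 : v m2 < g m2 := by
    have := g.strictMono h2s
    rw [va, hq]; linarith
  have u1 : u m1 < v m1 := huv m1 h01.le (by linarith)
  have hvs : v xs = q := by rw [va, hq]; ring
  -- a < g to the left of xs
  have hag : ∀ t, t < xs → a t < g t := by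
    intro t ht
    have hgt : g t < q := by rw [hq]; exact g.strictMono ht
    rcases le_total t m1 with h | h
    · rw [aL t h]
      refine (min_le_right _ _).trans_lt ?_
      rw [va]; linarith
    rcases le_total t m2 with h' | h'
    · rw [aM t h h']
      have g1 := hgerm t ⟨by linarith, by linarith⟩
      have g2 := hgerm m1 ⟨by linarith, by linarith⟩
      have g3 := hgerm m2 ⟨by linarith, by linarith⟩
      rcases le_total κ s with h3 | h3
      · have : κ * (t - m1) ≤ s * (t - m1) := mul_le_mul_of_nonneg_right h3 (by linarith)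
        rw [g1]; rw [g2] at v1; linarith
      · have : s * (m2 - t) ≤ κ * (m2 - t) := mul_le_mul_of_nonneg_right h3 (by linarith)
        rw [g1]; rw [g3] at v2
        have e3 : κ * (t - m1) = κ * (m2 - m1) - κ * (m2 - t) := by ring
        rw [e3, hκ]; linarith
    · rw [aR t h', max_eq_right (huv t (by linarith) ht.le).le, va]; linarith
  have hua : ∀ x, p < x → x < a x := by
    intro x hx
    rcases le_total x m1 with h | h
    · rw [aL x h, min_eq_left (huv x hx.le (by linarith)).le, ua]; linarith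
    rcases le_total x m2 with h' | h'
    · rw [aM x h h']
      have g2 : m1 < u m1 := by rw [ua]; linarith
      have g3 : m2 < v m2 := by
        have := huv m2 (by linarith) h2s.le
        rw [ua] at this; linarith
      rcases le_total 1 κ with h3 | h3
      · have : 1 * (x - m1) ≤ κ * (x - m1) := mul_le_mul_of_nonneg_right h3 (by linarith)
        linarith
      · have : κ * (m2 - x) ≤ 1 * (m2 - x) := mul_le_mul_of_nonneg_right h3 (by linarith)
        have e3 : κ * (x - m1) = κ * (m2 - m1) - κ * (m2 - x) := by ring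
        rw [e3, hκ]; linarith
    · rw [aR x h']
      refine lt_of_lt_of_le ?_ (le_max_left _ _)
      rw [ua]; linarith
  refine two_of_start (a := a) (b := b) (p := p) (q := q) hg
    ⟨hab, apl, bpl, hua, ?_, ?_, ?_⟩ (Or.inl hR)
    ⟨by rw [hab, nc_mul], nc_plf apl, nc_plf bpl, ?_, ?_, ?_, ?_⟩ (Or.inl ?_)
  · intro w hw
    obtain ⟨x, rfl⟩ : ∃ x, g x = w := ⟨_, apply_inv g w⟩
    rw [hq] at hw
    have hx : xs < x := g.lt_iff_lt.1 hw
    rw [bg, aR x (by linarith)]
    refine lt_of_lt_of_le ?_ (le_max_right _ _)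
    rw [va, hq]; linarith
  · exact rep_of_double h01 (fun x hx hx2 => by
      rw [aL x hx2, min_eq_left (huv x hx (by linarith)).le, ua])
  · -- germ of b at q, right
    have e3 : ∀ᶠ x in 𝓝[>] xs, u x < v x := by
      have := (isoCont u).continuousAt.eventually_lt (isoCont v).continuousAt
        (huv xs hpx.le le_rfl)
      exact this.filter_mono nhdsWithin_le_nhds
    obtain ⟨e, he, he2⟩ := (mem_nhdsGT_iff_exists_Ioo_subset).1 e3
    have he' : xs < e := he
    have hm : xs < (xs + e) / 2 := by linarith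
    refine rep_of_double (e := g ((xs + e) / 2)) (by rw [hq]; exact g.strictMono hm) ?_
    intro w hw hw2
    obtain ⟨x, rfl⟩ : ∃ x, g x = w := ⟨_, apply_inv g w⟩
    rw [hq] at hw
    have hx : xs ≤ x := g.le_iff_le.1 hw
    have hx2 : x ≤ (xs + e) / 2 := g.le_iff_le.1 hw2
    have h3 : u x ≤ v x := by
      rcases lt_or_eq_of_le hx with h | h
      · exact (he2 ⟨h, by linarith⟩ : u x < v x).le
      · rw [← h]; exact (huv xs hpx.le le_rfl).le
    rw [bg, aR x (by linarith), max_eq_right h3, va]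
  · intro x hx
    rw [nc_apply, aL (-x) (by linarith)]
    linarith [min_le_left (u (-x)) (v (-x)), ua (-x)]
  · intro x hx
    rw [nc_apply]
    obtain ⟨t, ht⟩ : ∃ t, g t = -x := ⟨_, apply_inv g (-x)⟩
    rw [← ht, bg]
    have h3 : t < xs := by
      apply g.lt_iff_lt.1
      rw [ht, ← hq]; linarith
    have := hag t h3
    rw [ht] at this
    linarith
  · -- germ of nc a at -p
    have e3 : ∀ᶠ x in 𝓝[<] p, u x < v x := by
      have := (isoCont u).continuousAt.eventually_lt (isoCont v).continuousAt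
        (huv p le_rfl hpx.le)
      exact this.filter_mono nhdsWithin_le_nhds
    obtain ⟨e, he, he2⟩ := (mem_nhdsLT_iff_exists_Ioo_subset).1 e3
    have he' : e < p := he
    refine rep_of_double (e := -((p + e) / 2)) (by linarith) ?_
    intro x hx hx2
    have h3 : u (-x) ≤ v (-x) := by
      rcases lt_or_eq_of_le (show -x ≤ p by linarith) with h | h
      · exact (he2 ⟨by linarith, h⟩ : u (-x) < v (-x)).le
      · rw [h]; exact (huv p le_rfl hpx.le).le
    rw [nc_apply, aL (-x) (by linarith), min_eq_left h3, ua]; ring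
  · -- germ of nc b at -q
    refine rep_of_double (e := -(g m2)) (by rw [hq]; linarith [g.strictMono h2s]) ?_
    intro x hx hx2
    obtain ⟨t, ht⟩ : ∃ t, g t = -x := ⟨_, apply_inv g (-x)⟩
    have h3 : m2 ≤ t := by
      apply g.le_iff_le.1
      rw [ht]; linarith
    have h4 : t ≤ xs := by
      apply g.le_iff_le.1
      rw [ht, ← hq]; linarith
    rw [nc_apply, ← ht, bg, aR t h3, max_eq_right (huv t (by linarith) h4).le, va, ht]; ring
  · intro N
    obtain ⟨w, hw, hw2⟩ := hL (-N)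
    refine ⟨-w, by linarith, ?_⟩
    rw [nc_apply, neg_neg]
    exact fun h => hw2 (neg_injective h)

theorem two_all {g : ℝ ≃o ℝ} (hg : PLf g) : Two g := by
  by_cases hR : ∀ N, ∃ y, N < y ∧ g y ≠ y
  · by_cases hL : ∀ N, ∃ y, y < N ∧ g y ≠ y
    · obtain ⟨y, -, hy⟩ := hR 0
      rcases lt_or_gt_of_ne hy with h | h
      · have h1 : y < (g⁻¹ : ℝ ≃o ℝ) y := by
          have := (g⁻¹ : ℝ ≃o ℝ).strictMono h
          rwa [inv_apply] at this
        have hiff : ∀ x, g x ≠ x → (g⁻¹ : ℝ ≃o ℝ) x ≠ x := by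
          intro x hx h2
          apply hx
          conv_lhs => rw [← h2, apply_inv]
        have h2 : Two g⁻¹ := start1 hg.inv
          (fun N => by obtain ⟨y, h3, h4⟩ := hR N; exact ⟨y, h3, hiff y h4⟩)
          (fun N => by obtain ⟨y, h3, h4⟩ := hL N; exact ⟨y, h3, hiff y h4⟩) h1
        have h3 := h2.inv
        rwa [inv_inv] at h3
      · exact start1 hg hR hL h
    · push Not at hL
      obtain ⟨N, hN⟩ := hL
      exact start2 (M := N - 1) hg hR (fun x hx => hN x (by linarith))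
  · push Not at hR
    obtain ⟨N, hN⟩ := hR
    by_cases hL : ∀ N, ∃ y, y < N ∧ g y ≠ y
    · have h1 : Two (nc g) := by
        refine start2 (M := -N - 1) (nc_plf hg) ?_ ?_
        · intro K
          obtain ⟨w, hw, hw2⟩ := hL (-K)
          refine ⟨-w, by linarith, ?_⟩
          rw [nc_apply, neg_neg]
          exact fun h => hw2 (neg_injective h)
        · intro x hx
          rw [nc_apply, hN (-x) (by linarith)]; ring
      have h2 := h1.nc
      rwa [nc_nc] at h2
    · push Not at hL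
      obtain ⟨K, hK⟩ := hL
      refine two_of_compact (R := max (N + 1) (-K + 1)) hg ?_ ?_
      · intro x hx
        exact hK x (by linarith [le_max_right (N + 1) (-K + 1)])
      · intro x hx
        exact hN x (by linarith [le_max_left (N + 1) (-K + 1)])

end TH960.PL
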