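import Pool.Agent.TH960.PL.Conj

/-! The contraction `c` and its linearization; counting breaks. -/

namespace TH960.PL

open Filter Topology Set

/-- Linearization of a contraction `c` at its fixed point `z`, valid on `[z, e]`. -/
theorem lin_contr {c : ℝ ≃o ℝ} (hc : PLf c) {z e mu y : ℝ} (hmu0 : 0 < mu) (hmu1 : mu < 1)
    (hzy : z < y) (hlin : ∀ x, z ≤ x → x ≤ y → c x = z + mu * (x - z))
    (hcx : ∀ x, z < x → x ≤ e → c x < x) (hze : z < e) :
    ∃ φ : ℝ ≃o ℝ, PLf φ ∧ (∀ x ≤ z + mu * (y - z), φ x = x - z) ∧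
      ∀ x, z ≤ x → x ≤ e → φ (c x) = mu * φ x := by
  have hcz : c z = z := by rw [hlin z le_rfl hzy.le]; ring
  have hcy : c y = z + mu * (y - z) := hlin y hzy.le le_rfl
  obtain ⟨φ, h1, h2, h3⟩ := linearize (f := c⁻¹) hc.inv (p := z) (x0 := c e)
    (y := z + mu * (y - z)) (lam := 1 / mu) (by rw [lt_div_iff₀ hmu0]; linarith)
    (by nlinarith)
    (by
      intro x hx hx2
      have h4 : (c⁻¹ : ℝ ≃o ℝ) x ≤ y := by
        rw [← inv_apply c y, hcy]; exact (c⁻¹ : ℝ ≃o ℝ).monotone hx2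
      have h5 : z ≤ (c⁻¹ : ℝ ≃o ℝ) x := by
        conv_lhs => rw [← inv_apply c z, hcz]
        exact (c⁻¹ : ℝ ≃o ℝ).monotone hx
      have h6 := hlin _ h5 h4
      rw [apply_inv] at h6
      field_simp
      linarith)
    (by
      intro x hx hx2
      have h4 : (c⁻¹ : ℝ ≃o ℝ) x ≤ e := by
        rw [← inv_apply c e]; exact (c⁻¹ : ℝ ≃o ℝ).monotone hx2
      have h5 : z < (c⁻¹ : ℝ ≃o ℝ) x := by
        conv_lhs => rw [← inv_apply c z, hcz]
        exact (c⁻¹ : ℝ ≃o ℝ).strictMono hx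
      have h6 := hcx _ h5 h4
      rwa [apply_inv] at h6)
  refine ⟨φ, h1, h2, fun x hx hx2 => ?_⟩
  have h4 := h3 (c x) (by rw [← hcz]; exact c.monotone hx) (c.monotone hx2)
  rw [inv_apply] at h4
  rw [h4]; field_simp

theorem contr_iter_mem {c : ℝ ≃o ℝ} {z e : ℝ} (hcz : c z = z)
    (hcx : ∀ x, z < x → x ≤ e → c x < x) {x : ℝ} (hx : z < x) (hx2 : x ≤ e) (k : ℕ) :
    z < c^[k] x ∧ c^[k] x ≤ x := by
  induction k with
  | zero => exact ⟨hx, le_rfl⟩
  | succ k ih =>
    rw [Function.iterate_succ_apply']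
    refine ⟨?_, ?_⟩
    · conv_lhs => rw [← hcz]
      exact c.strictMono ih.1
    · exact (hcx _ ih.1 (ih.2.trans hx2)).le.trans ih.2

theorem contr_tends {c : ℝ ≃o ℝ} {z e y : ℝ} (hcz : c z = z)
    (hcx : ∀ x, z < x → x ≤ e → c x < x) {x : ℝ} (hx : z < x) (hx2 : x ≤ e) (hy : z < y) :
    ∃ k : ℕ, c^[k] x < y := by
  -- use `iter_exceeds` for the inverse
  obtain ⟨n, hn⟩ := iter_exceeds (f := c⁻¹) (x1 := (z + y) / 2) (x0 := c x) (by
    intro t ht ht2
    have h4 : (c⁻¹ : ℝ ≃o ℝ) t ≤ x := by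
      rw [← inv_apply c x]; exact (c⁻¹ : ℝ ≃o ℝ).monotone ht2
    have h5 : z < (c⁻¹ : ℝ ≃o ℝ) t := by
      conv_lhs => rw [← inv_apply c z, hcz]
      exact (c⁻¹ : ℝ ≃o ℝ).strictMono (by linarith)
    have h6 := hcx _ h5 (h4.trans hx2)
    rwa [apply_inv] at h6)
  refine ⟨n + 1, ?_⟩
  have h1 : ∀ (n : ℕ) (t : ℝ), c^[n] ((c⁻¹ : ℝ ≃o ℝ)^[n] t) = t := by
    intro n
    induction n with
    | zero => intro t; rfl
    | succ n ih =>
      intro t
      rw [Function.iterate_succ_apply, Function.iterate_succ_apply', apply_inv]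
      exact ih t
  have h2 : c^[n] (c x) ≤ c^[n] ((c⁻¹ : ℝ ≃o ℝ)^[n] ((z + y) / 2)) := c.monotone.iterate n hn
  rw [h1] at h2
  rw [Function.iterate_succ_apply]
  linarith

/-- breaks of the linearization come from breaks of `c` along the orbit -/
theorem lin_locAff {c φ : ℝ ≃o ℝ} {z e mu y : ℝ} (hcz : c z = z) (hmu0 : 0 < mu)
    (hcx : ∀ x, z < x → x ≤ e → c x < x) (hy : z < y)
    (hφ : ∀ x ≤ y, φ x = x - z)
    (heq : ∀ x, z ≤ x → x ≤ e → φ (c x) = mu * φ x)
    {B : Set ℝ} (hB : ∀ x, z < x → x < e → x ∉ B → LocAff c x)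
    {x : ℝ} (hx : z < x) (hxe : x < e) (hk : ∀ k : ℕ, c^[k] x ∉ B) : LocAff φ x := by
  obtain ⟨k, hky⟩ := contr_tends hcz hcx hx hxe.le hy
  induction k generalizing x with
  | zero =>
    refine ⟨1, -z, ?_⟩
    filter_upwards [eventually_lt_nhds hky] with t ht
    rw [hφ t ht.le]; ring
  | succ k ih =>
    have h1 : z < c x := by
      conv_lhs => rw [← hcz]
      exact c.strictMono hx
    have h2 : c x < e := (hcx x hx hxe.le).trans hxe
    have h3 : LocAff φ (c x) := ih h1 h2 (fun j => by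
      rw [← Function.iterate_succ_apply]; exact hk (j + 1)) (by
      rw [← Function.iterate_succ_apply]; exact hky)
    have h4 : LocAff c x := hB x hx hxe (hk 0)
    obtain ⟨a, b, hab⟩ := h4.comp h3 (isoCont c).continuousAt
    refine ⟨a / mu, b / mu, ?_⟩
    filter_upwards [hab, eventually_gt_nhds hx, eventually_lt_nhds hxe] with t h5 h6 h7
    have h8 := heq t h6.le h7.le
    rw [h8] at h5
    field_simp
    linarith

/-- counting representatives in a fundamental domain -/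
theorem count_reps {c : ℝ ≃o ℝ} {z e zh p : ℝ} (hcz : c z = z)
    (hcx : ∀ x, z < x → x ≤ e → c x < x) (hzh : z < zh) (hpe : p ≤ e) (hcp : c p = zh)
    (T : Finset ℝ) (S : Set ℝ) (hS : ∀ x ∈ S, zh < x ∧ x ≤ p)
    (hST : ∀ x ∈ S, ∃ k : ℕ, c^[k] x ∈ T) :
    ∃ V : Finset ℝ, (V : Set ℝ) = S ∧ V.card ≤ T.card := by
  classical
  choose! k hk using hST
  have hlt : ∀ x ∈ S, ∀ x' ∈ S, ∀ j l : ℕ, c^[j] x = c^[l] x' → j < l → False := by
    intro x hx x' hx' j l hjl hlt
    obtain ⟨d, rfl⟩ := Nat.exists_eq_add_of_lt hlt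
    have h1 : c^[j] x = c^[j] (c^[d + 1] x') := by
      rw [hjl, ← Function.iterate_add_apply]; rfl
    have h2 : x = c^[d + 1] x' := (c.injective.iterate j) h1
    rw [Function.iterate_succ_apply] at h2
    have h3 : z < c x' := by
      conv_lhs => rw [← hcz]
      exact c.strictMono (hzh.trans (hS x' hx').1)
    have h4 : c x' ≤ zh := by rw [← hcp]; exact c.monotone (hS x' hx').2
    have hx'e : x' ≤ e := (hS x' hx').2.trans hpe
    have h5 : c x' ≤ e := (hcx x' (hzh.trans (hS x' hx').1) hx'e).le.trans hx'e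
    have h6 := (contr_iter_mem hcz hcx h3 h5 d).2
    have h7 := (hS x hx).1
    linarith
  have hinj : Set.InjOn (fun x => c^[k x] x) S := by
    intro x hx x' hx' h
    simp only at h
    rcases lt_trichotomy (k x) (k x') with h1 | h1 | h1
    · exact (hlt x hx x' hx' _ _ h h1).elim
    · rw [h1] at h
      exact (c.injective.iterate _) h
    · exact (hlt x' hx' x hx _ _ h.symm h1).elim
  have hmaps : Set.MapsTo (fun x => c^[k x] x) S (T : Set ℝ) := fun x hx => hk x hx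
  have hfin : S.Finite := Set.Finite.of_injOn hmaps hinj T.finite_toSet
  refine ⟨hfin.toFinset, by simp, ?_⟩
  apply Finset.card_le_card_of_injOn (fun x => c^[k x] x)
  · intro x hx
    have : x ∈ S := by simpa using hx
    exact hmaps this
  · intro x hx x' hx' h
    exact hinj (by simpa using hx) (by simpa using hx') h

end TH960.PL
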