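import Pool.Agent.TH960.PL.MinMax
import Pool.Agent.TH960.PL.Conj

/-! Standard bumps. -/

namespace TH960.PL

open Filter Topology Set

theorem psi_aux : (aff 0 0 2 two_pos) (1 / 3) = (aff 1 1 (1 / 2) one_half_pos) (1 / 3) := by
  rw [aff_apply, aff_apply]; norm_num

/-- the model bump on `[0,1]` -/
noncomputable def psi : ℝ ≃o ℝ :=
  glue (aff 0 0 2 two_pos) (aff 1 1 (1 / 2) one_half_pos) (1 / 3) psi_aux

theorem psi_le {x : ℝ} (hx : x ≤ 1 / 3) : psi x = 2 * x := by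
  rw [psi, glue_le _ hx, aff_apply]; ring

theorem psi_ge {x : ℝ} (hx : 1 / 3 ≤ x) : psi x = (1 + x) / 2 := by
  rw [psi, glue_ge _ hx, aff_apply]; ring

theorem psi_plf : PLf psi := glue_plf _ (plf_aff _ _ _ _) (plf_aff _ _ _ _)

theorem psi_zero : psi 0 = 0 := by rw [psi_le (by norm_num)]; ring
theorem psi_one : psi 1 = 1 := by rw [psi_ge (by norm_num)]; ring

/-- symmetry of the model bump -/
theorem psi_symm (t : ℝ) : psi (1 - psi t) = 1 - t := by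
  rcases le_total t (1 / 3) with h | h
  · rw [psi_le h, psi_ge (by linarith)]; ring
  · rw [psi_ge h, psi_le (by linarith)]; ring

def Std (f : ℝ ≃o ℝ) (p q : ℝ) : Prop :=
  p < q ∧ ∃ φ : ℝ ≃o ℝ, PLf φ ∧ φ p = 0 ∧ φ q = 1 ∧ ∀ x, p ≤ x → x ≤ q → φ (f x) = psi (φ x)

theorem Std.left {f : ℝ ≃o ℝ} {p q : ℝ} (h : Std f p q) : f p = p := by
  obtain ⟨h1, φ, -, h3, -, h5⟩ := h
  apply φ.injective
  rw [h5 p le_rfl h1.le, h3, psi_zero]

theorem Std.right {f : ℝ ≃o ℝ} {p q : ℝ} (h : Std f p q) : f q = q := by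
  obtain ⟨h1, φ, -, -, h4, h5⟩ := h
  apply φ.injective
  rw [h5 q h1.le le_rfl, h4, psi_one]

theorem Std.congr {f g : ℝ ≃o ℝ} {p q : ℝ} (h : Std f p q) (hfg : ∀ x, p ≤ x → x ≤ q → g x = f x) :
    Std g p q := by
  obtain ⟨h1, φ, h2, h3, h4, h5⟩ := h
  exact ⟨h1, φ, h2, h3, h4, fun x hx hx2 => by rw [hfg x hx hx2, h5 x hx hx2]⟩

theorem Std.conj {f k : ℝ ≃o ℝ} {p q : ℝ} (h : Std f p q) (hk : PLf k) :
    Std (k * f * k⁻¹) (k p) (k q) := by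
  obtain ⟨h1, φ, h2, h3, h4, h5⟩ := h
  refine ⟨k.strictMono h1, φ * k⁻¹, h2.mul hk.inv, ?_, ?_, ?_⟩
  · simp only [mulapp, inv_apply, h3]
  · simp only [mulapp, inv_apply, h4]
  · intro x hx hx2
    simp only [mulapp, inv_apply]
    apply h5
    · rw [← inv_apply k p]; exact (k⁻¹ : ℝ ≃o ℝ).monotone hx
    · rw [← inv_apply k q]; exact (k⁻¹ : ℝ ≃o ℝ).monotone hx2

/-- agreement of inverses on an interval with common fixed endpoints -/
theorem inv_congr {f g : ℝ ≃o ℝ} {p q : ℝ} (hp : f p = p) (hq : f q = q)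
    (hfg : ∀ x, p ≤ x → x ≤ q → g x = f x) :
    ∀ x, p ≤ x → x ≤ q → (g⁻¹ : ℝ ≃o ℝ) x = (f⁻¹ : ℝ ≃o ℝ) x := by
  intro x hx hx2
  have h1 : p ≤ (f⁻¹ : ℝ ≃o ℝ) x := by
    conv_lhs => rw [← inv_apply f p, hp]
    exact (f⁻¹ : ℝ ≃o ℝ).monotone hx
  have h2 : (f⁻¹ : ℝ ≃o ℝ) x ≤ q := by
    conv_rhs => rw [← inv_apply f q, hq]
    exact (f⁻¹ : ℝ ≃o ℝ).monotone hx2
  have h3 := hfg _ h1 h2
  rw [apply_inv] at h3
  conv_lhs => rw [← h3, inv_apply]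

theorem Std.refl {f : ℝ ≃o ℝ} {p q : ℝ} (h : Std (nc f) p q) : Std f⁻¹ (-q) (-p) := by
  obtain ⟨h1, φ, h2, h3, h4, h5⟩ := h
  refine ⟨by linarith, aff 0 1 1 one_pos * nc φ, (plf_aff _ _ _ _).mul (nc_plf h2), ?_, ?_, ?_⟩
  · simp only [mulapp, nc_apply, aff_apply, neg_neg, h4]; ring
  · simp only [mulapp, nc_apply, aff_apply, neg_neg, h3]; ring
  · intro x hx hx2
    simp only [mulapp, nc_apply, aff_apply]
    have hp : f (-p) = -p := by
      have := Std.left ⟨h1, φ, h2, h3, h4, h5⟩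
      rw [nc_apply] at this; linarith
    have hq : f (-q) = -q := by
      have := Std.right ⟨h1, φ, h2, h3, h4, h5⟩
      rw [nc_apply] at this; linarith
    set w := (f⁻¹ : ℝ ≃o ℝ) x with hw
    have hxw : x = f w := by rw [hw, apply_inv]
    have hw1 : -q ≤ w := by
      have := (f⁻¹ : ℝ ≃o ℝ).monotone hx
      rwa [← hw, show (f⁻¹ : ℝ ≃o ℝ) (-q) = -q by conv_lhs => rw [← hq, inv_apply]] at this
    have hw2 : w ≤ -p := by
      have := (f⁻¹ : ℝ ≃o ℝ).monotone hx2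
      rwa [← hw, show (f⁻¹ : ℝ ≃o ℝ) (-p) = -p by conv_lhs => rw [← hp, inv_apply]] at this
    have h6 := h5 (-w) (by linarith) (by linarith)
    rw [nc_apply, neg_neg, ← hxw] at h6
    -- φ (-x) = psi (φ (-w))
    have e1 : (1:ℝ) + 1 * (-φ (-x) - 0) = 1 - psi (φ (-w)) := by rw [h6]; ring
    have e2 : (1:ℝ) + 1 * (-φ (-w) - 0) = 1 - φ (-w) := by ring
    rw [e1, e2, psi_symm]

/-- a positive standard bump followed by a negative one -/
def DStd (f : ℝ ≃o ℝ) (p r : ℝ) : Prop := ∃ q, Std f p q ∧ Std f⁻¹ q r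

theorem DStd.refl {f : ℝ ≃o ℝ} {p r : ℝ} (h : DStd (nc f) p r) : DStd f (-r) (-p) := by
  obtain ⟨q, h1, h2⟩ := h
  refine ⟨-q, ?_, h1.refl⟩
  rw [← nc_inv] at h2
  have := h2.refl
  rwa [inv_inv] at this

theorem DStd.lt {f : ℝ ≃o ℝ} {p r : ℝ} (h : DStd f p r) : p < r := by
  obtain ⟨q, h1, h2⟩ := h
  exact h1.1.trans h2.1

theorem Std.congr_inv {f g : ℝ ≃o ℝ} {p q : ℝ} (h : Std f⁻¹ p q)
    (hfg : ∀ x, p ≤ x → x ≤ q → g x = f x) : Std g⁻¹ p q := by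
  apply h.congr
  have hp : f p = p := by
    have := h.left
    conv_lhs => rw [← this, apply_inv]
  have hq : f q = q := by
    have := h.right
    conv_lhs => rw [← this, apply_inv]
  exact inv_congr hp hq hfg

theorem DStd.congr {f g : ℝ ≃o ℝ} {p r : ℝ} (h : DStd f p r)
    (hfg : ∀ x, p ≤ x → x ≤ r → g x = f x) : DStd g p r := by
  obtain ⟨q, h1, h2⟩ := h
  exact ⟨q, h1.congr fun x hx hx2 => hfg x hx (hx2.trans h2.1.le),
    h2.congr_inv fun x hx hx2 => hfg x (h1.1.le.trans hx) hx2⟩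

/-- a bi-infinite chain of double standard bumps is reversible -/
theorem rev_of_chain {f : ℝ ≃o ℝ} (P : ℤ → ℝ) (hPtop : ∀ y, ∃ n, y < P n)
    (hPbot : ∀ y, ∃ n, P n ≤ y) (hD : ∀ n, DStd f (P n) (P (n + 1))) : Rev f := by
  have hP : StrictMono P := strictMono_int_of_lt_succ fun n => (hD n).lt
  choose M hM1 hM2 using hD
  choose hPM φ hφpl hφ0 hφ1 hφ using hM1
  choose hMP χ hχpl hχ0 hχ1 hχ using hM2
  have e1 : ∀ n, ((χ n)⁻¹ * φ n) (M n) = ((φ (n + 1))⁻¹ * χ n) (M n) := by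
    intro n
    simp only [mulapp]
    rw [hφ1, hχ0]
    have h1 : (χ n)⁻¹ 1 = P (n + 1) := by rw [← hχ1 n, inv_apply]
    have h2 : (φ (n + 1))⁻¹ 0 = P (n + 1) := by rw [← hφ0 (n + 1), inv_apply]
    rw [h1, h2]
  set F : ℤ → (ℝ ≃o ℝ) := fun n => glue ((χ n)⁻¹ * φ n) ((φ (n + 1))⁻¹ * χ n) (M n) (e1 n) with hF
  have FL : ∀ n x, x ≤ M n → F n x = (χ n)⁻¹ (φ n x) := fun n x hx => glue_le (e1 n) hx
  have FR : ∀ n x, M n ≤ x → F n x = (φ (n + 1))⁻¹ (χ n x) := fun n x hx => glue_ge (e1 n) hx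
  have hχ0' : ∀ n, (χ n)⁻¹ 0 = M n := fun n => by rw [← hχ0 n, inv_apply]
  have hχ1' : ∀ n, (χ n)⁻¹ 1 = P (n + 1) := fun n => by rw [← hχ1 n, inv_apply]
  have hφ1' : ∀ n, (φ n)⁻¹ 1 = M n := fun n => by rw [← hφ1 n, inv_apply]
  have hφ0' : ∀ n, (φ n)⁻¹ 0 = P n := fun n => by rw [← hφ0 n, inv_apply]
  have FP : ∀ n, F n (P n) = M n := by
    intro n; rw [FL n _ (hPM n).le, hφ0, hχ0']
  have FP1 : ∀ n, F n (P (n + 1)) = M (n + 1) := by
    intro n; rw [FR n _ (hMP n).le, hχ1, hφ1']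
  obtain ⟨h, hh1, hh2⟩ := zglue P hP hPtop hPbot F (fun n => by rw [FP1, FP])
    (fun y => by
      obtain ⟨n, hn⟩ := hPtop y
      exact ⟨n, by rw [FP]; exact hn.trans (hPM n)⟩)
    (fun y => by
      obtain ⟨n, hn⟩ := hPbot y
      refine ⟨n - 1, ?_⟩
      rw [FP]
      have := hMP (n - 1)
      rw [sub_add_cancel] at this
      linarith)
  have hhpl : PLf h := hh2 fun n => glue_plf _ ((hχpl n).inv.mul (hφpl n))
    ((hφpl (n + 1)).inv.mul (hχpl n))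
  have hfP : ∀ n, f (P n) = P n := fun n => Std.left ⟨hPM n, φ n, hφpl n, hφ0 n, hφ1 n, hφ n⟩
  have hfM : ∀ n, f (M n) = M n := fun n => Std.right ⟨hPM n, φ n, hφpl n, hφ0 n, hφ1 n, hφ n⟩
  apply rev_of_eq hhpl
  intro x
  obtain ⟨n, h1, h2⟩ := exists_index hP hPtop hPbot x
  rcases le_total x (M n) with h3 | h3
  · have h4 : P n ≤ f x := by rw [← hfP n]; exact f.monotone h1
    have h5 : f x ≤ M n := by rw [← hfM n]; exact f.monotone h3
    rw [hh1 n _ h4 (h5.trans (hMP n).le), FL n _ h5, hh1 n x h1 h2.le, FL n x h3, hφ n x h1 h3]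
    -- χ f⁻¹ w = psi χ w at w = χ⁻¹ φ x
    have h6 : M n ≤ (χ n)⁻¹ (φ n x) := by
      rw [← hχ0' n]; apply (χ n)⁻¹.monotone; rw [← hφ0 n]; exact (φ n).monotone h1
    have h7 : (χ n)⁻¹ (φ n x) ≤ P (n + 1) := by
      rw [← hχ1' n]; apply (χ n)⁻¹.monotone; rw [← hφ1 n]; exact (φ n).monotone h3
    have h8 := hχ n _ h6 h7
    rw [apply_inv] at h8
    rw [← h8, inv_apply, apply_inv]
  · have h4 : M n ≤ f x := by rw [← hfM n]; exact f.monotone h3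
    have h5 : f x ≤ P (n + 1) := by rw [← hfP (n + 1)]; exact f.monotone h2.le
    rw [hh1 n _ ((hPM n).le.trans h4) h5, FR n _ h4, hh1 n x h1 h2.le, FR n x h3]
    have h8 := hχ n (f x) h4 h5
    rw [inv_apply] at h8
    -- f acts at w = φ⁻¹ (χ (f x))
    have h6 : P (n + 1) ≤ (φ (n + 1))⁻¹ (χ n (f x)) := by
      rw [← hφ0' (n + 1)]; apply (φ (n + 1))⁻¹.monotone; rw [← hχ0 n]; exact (χ n).monotone h4
    have h7 : (φ (n + 1))⁻¹ (χ n (f x)) ≤ M (n + 1) := by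
      rw [← hφ1' (n + 1)]; apply (φ (n + 1))⁻¹.monotone; rw [← hχ1 n]; exact (χ n).monotone h5
    have h9 := hφ (n + 1) _ h6 h7
    rw [apply_inv, ← h8] at h9
    rw [← h9, inv_apply]

end TH960.PL
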