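import Pool.Agent.TH960.PL.Finish2

/-! The step and the base case of the induction. -/

namespace TH960.PL

open Filter Topology Set

theorem G_inv_neg {γ : ℝ} (h : 0 < γ) {y : ℝ} (hy : y ≤ 0) : ((G γ h)⁻¹ : ℝ ≃o ℝ) y = y / γ := by
  have h1 : G γ h (y / γ) = y := by
    rw [G_neg h (div_nonpos_of_nonpos_of_nonneg hy h.le)]; field_simp
  conv_lhs => rw [← h1, inv_apply]

theorem G_inv_pos {γ : ℝ} (h : 0 < γ) {y : ℝ} (hy : 0 ≤ y) : ((G γ h)⁻¹ : ℝ ≃o ℝ) y = y := by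
  have h1 : G γ h y = y := G_pos h hy
  conv_lhs => rw [← h1, inv_apply]

theorem affine_slope {f : ℝ ≃o ℝ} {z v s : ℝ} (hzv : z < v)
    (hloc : ∀ x ∈ Ioo z v, LocAff f x)
    (hsl : ∃ y, z < y ∧ ∀ x, z ≤ x → x ≤ y → f x = f z + s * (x - z)) :
    ∀ x, z ≤ x → x ≤ v → f x = f z + s * (x - z) := by
  obtain ⟨a, b, hab⟩ := affine_Icc (isoCont f) hloc hzv
  obtain ⟨y, hy, hys⟩ := hsl
  have hm : z < min y v := lt_min hy hzv
  have h1 := hab (min y v) ⟨hm.le, min_le_right _ _⟩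
  have h2 := hab z ⟨le_rfl, hzv.le⟩
  have h3 := hys (min y v) hm.le (min_le_left _ _)
  have h4 : (a - s) * (min y v - z) = 0 := by
    rw [h1, h2] at h3; linarith
  have h5 : a = s := by
    rcases mul_eq_zero.1 h4 with h | h
    · linarith
    · linarith
  intro x hx hx2
  rw [hab x ⟨hx, hx2⟩, h2, h5]; ring

theorem State.lin {γ p z lam s : ℝ} {Ψ : ℝ ≃o ℝ} {W : Finset ℝ} (S : State γ p z lam s Ψ W)
    {v : ℝ} (hzv : z < v) (hv : v ≤ γ * z) (hW : ∀ w ∈ W, v ≤ w) :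
    ∀ x, z ≤ x → x ≤ v → Ψ x = Ψ z + s * (x - z) := by
  apply affine_slope hzv _ S.slope
  intro x hx
  exact S.locaff x hx.1 (hx.2.le.trans hv) (fun h => absurd (hW x h) (not_le.2 hx.2))

theorem step {γ p z lam s : ℝ} {Ψ : ℝ ≃o ℝ} {W : Finset ℝ} (g0 : 0 < γ) (g1 : γ < 1)
    (S : State γ p z lam s Ψ W) {z1 v mu : ℝ} (hz1 : z < z1) (hz1v : z1 < v) (hz10 : z1 < 0)
    (hlin : ∀ x, z ≤ x → x ≤ v → Ψ x = Ψ z + s * (x - z))
    (mu0 : 0 < mu) (mu1 : mu < 1)
    (hc : ∀ x, z1 < x → x ≤ 0 → z1 + mu / s * (Ψ x - Ψ z1) < x) (T : Finset ℝ)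
    (hT : ∀ w ∈ W, w ∈ T ∨ ∃ w2 ∈ T, z1 + mu / s * (Ψ w2 - Ψ z1) = w ∧ w2 ≤ γ * z1)
    (IH : ∀ (zh sh : ℝ) (Ψh : ℝ ≃o ℝ) (V : Finset ℝ), State γ z1 zh (1 / mu) sh Ψh V →
      V.card ≤ T.card → Completable γ g0 z1 zh (1 / mu) Ψh) :
    Completable γ g0 p z lam Ψ := by
  have hs := S.hs
  have hlam := S.hlam
  have hΨz : 0 < Ψ z := by rw [← S.hp]; exact Ψ.strictMono S.hpz
  have hΨz1 : Ψ z1 = Ψ z + s * (z1 - z) := hlin z1 hz1.le hz1v.le
  have hΨz1' : 0 < Ψ z1 := hΨz.trans (Ψ.strictMono hz1)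
  have hden : 0 < (lam - 1) * Ψ z + (1 - mu) * Ψ z1 := by
    have := mul_pos (sub_pos.2 hlam) hΨz
    have := mul_pos (sub_pos.2 mu1) hΨz1'
    linarith
  set c0 := (1 - mu) * γ * (z1 - z) / ((lam - 1) * Ψ z + (1 - mu) * Ψ z1) with hc0
  have hc0pos : 0 < c0 := by
    apply div_pos _ hden
    exact mul_pos (mul_pos (sub_pos.2 mu1) g0) (sub_pos.2 hz1)
  have hc0E : c0 * ((lam - 1) * Ψ z + (1 - mu) * Ψ z1) = (1 - mu) * γ * (z1 - z) := by
    rw [hc0]; field_simp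
  have hD : 0 < lam - mu := by linarith
  set x1 := (z1 * (1 - mu) + z * (lam - 1)) / (lam - mu) with hx1
  have hx1E : x1 * (lam - mu) = z1 * (1 - mu) + z * (lam - 1) := by rw [hx1]; field_simp
  have hzx1 : z < x1 := by
    rw [hx1, lt_div_iff₀ hD]; nlinarith
  have hx1z1 : x1 < z1 := by
    rw [hx1, div_lt_iff₀ hD]; nlinarith
  have hΨx1 : Ψ x1 = Ψ z + s * (x1 - z) := hlin x1 hzx1.le (hx1z1.trans hz1v).le
  have hE1 : c0 * Ψ x1 = γ * (x1 - z) := by
    have h1 : (lam - mu) * (c0 * Ψ x1) = (lam - mu) * (γ * (x1 - z)) := by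
      have h2 : (lam - mu) * Ψ x1 = (lam - 1) * Ψ z + (1 - mu) * Ψ z1 := by
        rw [hΨx1, hΨz1]
        linear_combination s * hx1E
      calc (lam - mu) * (c0 * Ψ x1) = c0 * ((lam - mu) * Ψ x1) := by ring
        _ = (1 - mu) * γ * (z1 - z) := by rw [h2, hc0E]
        _ = (lam - mu) * (γ * (x1 - z)) := by linear_combination (-γ) * hx1E
    exact mul_left_cancel₀ hD.ne' h1
  set h0 : ℝ ≃o ℝ := aff 0 (γ * z) c0 hc0pos * Ψ with hh0
  have h0a : ∀ x, h0 x = γ * z + c0 * Ψ x := by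
    intro x; rw [hh0, mulapp, aff_apply]; ring
  have h0pl : PLf h0 := (plf_aff _ _ _ _).mul S.pl
  have hgb : (aff (γ * z) (γ * z) lam (by linarith)) (γ * x1)
      = (aff (γ * z1) (γ * z1) mu mu0) (γ * x1) := by
    rw [aff_apply, aff_apply]
    linear_combination γ * hx1E
  set b := glue (aff (γ * z) (γ * z) lam (by linarith)) (aff (γ * z1) (γ * z1) mu mu0)
    (γ * x1) hgb with hb
  have bpl : PLf b := glue_plf _ (plf_aff _ _ _ _) (plf_aff _ _ _ _)
  have bL : ∀ y, y ≤ γ * x1 → b y = γ * z + lam * (y - γ * z) := fun y hy => by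
    rw [hb, glue_le hgb hy, aff_apply]
  have bR : ∀ y, γ * x1 ≤ y → b y = γ * z1 + mu * (y - γ * z1) := fun y hy => by
    rw [hb, glue_ge hgb hy, aff_apply]
  have h0x1 : h0 x1 = γ * x1 := by rw [h0a, hE1]; ring
  have hclaim : ∀ x, z ≤ x → x ≤ z1 → h0 (b (γ * x)) = b (h0 x) := by
    intro x hx hx2
    have hΨx : Ψ x = Ψ z + s * (x - z) := hlin x hx (hx2.trans hz1v.le)
    rcases le_total x x1 with h1 | h1
    · have h2 : γ * x ≤ γ * x1 := mul_le_mul_of_nonneg_left h1 g0.le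
      have h3 : γ * z ≤ γ * x := mul_le_mul_of_nonneg_left hx g0.le
      have h4 : h0 x ≤ γ * x1 := by rw [← h0x1]; exact h0.monotone h1
      rw [bL _ h2, bL _ h4, h0a, h0a]
      rw [S.right _ (by nlinarith), S.hq, hΨx]
      field_simp
      ring
    · have h2 : γ * x1 ≤ γ * x := mul_le_mul_of_nonneg_left h1 g0.le
      have h4 : γ * x1 ≤ h0 x := by rw [← h0x1]; exact h0.monotone h1
      have h5 : γ * z ≤ γ * z1 + mu * (γ * x - γ * z1) := by
        have h6 : b (γ * x1) ≤ b (γ * x) := b.monotone h2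
        rw [bL _ le_rfl, bR _ h2] at h6
        have h7 : γ * z ≤ γ * x1 := mul_le_mul_of_nonneg_left hzx1.le g0.le
        nlinarith
      rw [bR _ h2, bR _ h4, h0a, h0a]
      rw [S.right _ h5, S.hq, hΨx]
      have h6 := hc0E
      rw [hΨz1] at h6
      field_simp
      linear_combination h6
  have h0z1 : γ * x1 ≤ h0 z1 := by rw [← h0x1]; exact h0.monotone hx1z1.le
  have F : Fin γ z1 mu (c0 * s) h0 b := by
    refine ⟨g0, g1, hz10, mu0, mu1, mul_pos hc0pos hs, h0pl, bpl, ?_, ?_, ?_, ?_, ?_, ?_⟩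
    · intro x hx
      have h1 : γ * z ≤ γ * z1 := mul_le_mul_of_nonneg_left hz1.le g0.le
      rw [h0a, h0a, S.right x (h1.trans hx), S.right (γ * z1) h1]
      ring
    · refine ⟨v, hz1v, fun x hx hx2 => ?_⟩
      rw [h0a, h0a, hlin x (hz1.le.trans hx) hx2, hΨz1]; ring
    · intro y hy
      exact bR y (h0z1.trans hy)
    · have h1 := hclaim z1 hz1.le le_rfl
      rw [bR (γ * z1) (mul_le_mul_of_nonneg_left hx1z1.le g0.le)] at h1
      rw [← h1]; congr 1; ring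
    · rw [h0a]
      have h1 : (1 - mu) * (c0 * Ψ z1) < (1 - mu) * (γ * (z1 - z)) := by
        have h2 : 0 < c0 * ((lam - 1) * Ψ z) :=
          mul_pos hc0pos (mul_pos (sub_pos.2 hlam) hΨz)
        nlinarith
      have h2 := lt_of_mul_lt_mul_left h1 (sub_pos.2 mu1).le
      linarith
    · intro x hx hx2
      have h1 := hc x hx hx2
      have h2 : mu / (c0 * s) * (h0 x - h0 z1) = mu / s * (Ψ x - Ψ z1) := by
        rw [h0a, h0a]; field_simp; ring
      rw [h2]; exact h1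
  have hcF : ∀ x, F.c x = z1 + mu / s * (Ψ x - Ψ z1) := by
    intro x
    rw [F.c_apply, h0a, h0a]; field_simp; ring
  obtain ⟨sh, Ψh, V, hSt, hcard, hΨh⟩ := F.exists_state W T (by
      intro x hx hx2 hxW
      have h1 : LocAff Ψ x := by
        rcases le_or_gt x (γ * z) with h2 | h2
        · exact S.locaff x (hz1.trans hx) h2 hxW
        · refine ⟨s / γ, Ψ (γ * z) - s / γ * (γ * z), ?_⟩
          filter_upwards [eventually_gt_nhds h2] with t ht
          rw [S.right t ht.le]; ring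
      exact h1.comp (f := aff 0 (γ * z) c0 hc0pos) (locAff_aff _ _ _ _ _)
        (isoCont Ψ).continuousAt) (by
      intro w hw
      rcases hT w hw with h | ⟨w2, h1, h2, h3⟩
      · exact Or.inl h
      · exact Or.inr ⟨w2, h1, by rw [hcF, h2], h3⟩)
  have hC := IH _ _ _ _ hSt hcard
  obtain ⟨Q, a, h, hQ, hapl, hhpl, haQ, hhQ, hA, hH, hR⟩ := F.transfer hSt hΨh hC
  have hpp : p ≤ F.p' := (S.hpz.trans (hz1.trans (F.zlt.trans F.p_gt))).le
  have hz1p : z1 ≤ F.p' := (F.zlt.trans F.p_gt).le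
  refine ⟨Q, a, h, hQ, hapl, hhpl, haQ, ?_, hhQ, ?_, ?_⟩
  · rw [hH p hpp, h0a, S.hp]; ring
  · intro x hx hx2
    have h1 := hA x (hx2.trans (hz1.le.trans hz1p))
    have h2 : h0 x ≤ γ * x1 := by rw [← h0x1]; exact h0.monotone (hx2.trans hzx1.le)
    rw [bL _ h2, h0a, h0a] at h1
    have h3 : c0 * Ψ (a x) = c0 * (lam * Ψ x) := by linear_combination h1
    exact mul_left_cancel₀ hc0pos.ne' h3
  · intro x hx hxQ
    rcases le_total x F.p' with h1 | h1
    · have hax : a x ≤ F.p' := by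
        have h2 : h0 (a x) ≤ h0 F.p' := by
          rw [hA x h1, F.h0p]
          have h3 : b (h0 x) ≤ b (h0 F.p') := b.monotone (h0.monotone h1)
          rw [F.h0p, F.hb _ F.hlt.le] at h3
          linarith
        exact h0.le_iff_le.1 h2
      rw [hH _ hax, hA x h1, hH x h1]
      have hy1 : γ * z ≤ h0 x := by
        rw [h0a]
        have : 0 ≤ Ψ x := by rw [← S.hp]; exact Ψ.monotone hx
        have := mul_nonneg hc0pos.le this
        linarith
      have hy2 : h0 x ≤ γ * z1 := by rw [← F.h0p]; exact h0.monotone h1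
      rw [G_inv_neg g0 (hy2.trans F.gz_neg.le)]
      have ht1 : z ≤ h0 x / γ := by rw [le_div_iff₀ g0]; linarith
      have ht2 : h0 x / γ ≤ z1 := by rw [div_le_iff₀ g0]; linarith
      have h4 := hclaim _ ht1 ht2
      have h5 := hA (h0 x / γ) (ht2.trans hz1p)
      rw [← h4] at h5
      have h6 := h0.injective h5
      rw [h6]
      congr 1
      field_simp
    · exact hR x h1 hxQ

end TH960.PL
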