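import Pool.Agent.TH960.PL.Up

/-! The steps for unbounded support. -/

namespace TH960.PL

open Filter Topology Set

theorem stepA {g a b : ℝ ≃o ℝ} {p q y0 N : ℝ} (hg : PLf g) (U : Up g a b p q) (hy : y0 < g y0)
    (h1 : a (max N p) < y0) (h2 : b (max N q) < y0) (hN : N < y0) :
    ∃ (a' b' : ℝ ≃o ℝ) (p' q' : ℝ), Down g a' b' p' q' ∧ Std a' p p' ∧ Std b' q q' ∧
      N < p' ∧ N < q' ∧ (∀ x ≤ N, a' x = a x) ∧ (∀ x ≤ N, b' x = b x) := by
  obtain ⟨x0, hx0⟩ : ∃ x0, a x0 = y0 := ⟨_, apply_inv a y0⟩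
  have hx0N : max N p < x0 := by rw [← hx0] at h1; exact a.lt_iff_lt.1 h1
  obtain ⟨z0, hz0⟩ : ∃ z0, z0 = g x0 := ⟨_, rfl⟩
  have hbz0 : b z0 = y0 := by rw [hz0, ← hx0, U.hab]; rfl
  have hz0N : max N q < z0 := by rw [← hbz0] at h2; exact b.lt_iff_lt.1 h2
  have hpx0 : p < x0 := (le_max_right _ _).trans_lt hx0N
  have hqz0 : q < z0 := (le_max_right _ _).trans_lt hz0N
  have hx0y : x0 < y0 := by rw [← hx0]; exact U.ha x0 hpx0
  obtain ⟨q', hq'⟩ : ∃ q', q' = (y0 + g y0) / 2 := ⟨_, rfl⟩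
  have hq'1 : y0 < q' := by rw [hq']; linarith
  have hq'2 : q' < g y0 := by rw [hq']; linarith
  obtain ⟨b1, b1pl, b1L, b1S, b1R⟩ := finishB (p' := q') U.plb U.rb hqz0
    (fun x hx _ => U.hb x hx) (by rw [hbz0]; exact hq'1)
  obtain ⟨a1, ha1⟩ : ∃ a1, a1 = b1 * g := ⟨_, rfl⟩
  have a1pl : PLf a1 := by rw [ha1]; exact b1pl.mul hg
  have a1a : ∀ x, a1 x = b1 (g x) := fun x => by rw [ha1]; rfl
  have a1L : ∀ x ≤ x0, a1 x = a x := by
    intro x hx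
    rw [a1a, b1L _ (by rw [hz0]; exact g.monotone hx), U.hab]; rfl
  have a1id : ∀ x, p < x → x ≤ y0 → x < a1 x := by
    intro x hx hx2
    rcases le_or_gt x x0 with h | h
    · rw [a1L x h]; exact U.ha x hx
    · have h3 : z0 < g x := by rw [hz0]; exact g.strictMono h
      have h4 : b1 z0 < b1 (g x) := b1.strictMono h3
      rw [b1L z0 le_rfl, hbz0] at h4
      rw [a1a]; linarith
  have a1rep : RepGerm a1 p := U.ra.congr hpx0 (fun x _ hx2 => a1L x hx2)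
  have hpy0 : p < y0 := hpx0.trans hx0y
  have ha1y : a1 y0 = (q' + g y0) / 2 := by rw [a1a, b1R _ hq'2.le]
  obtain ⟨p', hp'⟩ : ∃ p', p' = (a1 y0 + g y0) / 2 := ⟨_, rfl⟩
  have hp'1 : a1 y0 < p' := by rw [hp', ha1y]; linarith
  have hp'2 : p' < g y0 := by rw [hp', ha1y]; linarith
  have hy0p' : y0 < p' := (a1id y0 hpy0 le_rfl).trans hp'1
  obtain ⟨a2, a2pl, a2L, a2S, -⟩ := finishB (p' := p') a1pl a1rep hpy0 a1id hp'1
  have hgp' : p' < g p' := hp'2.trans (g.strictMono hy0p')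
  have a2p' : a2 p' = p' := a2S.right
  have hg1 : a2 p' = (aff p' p' (1 / 2) one_half_pos * minIso 1 g) p' := by
    simp only [mulapp, minIso_apply, aff_apply]
    rw [a2p', min_eq_left (by exact hgp'.le)]
    change p' = p' + 1 / 2 * (p' - p')
    ring
  obtain ⟨a3, ha3⟩ : ∃ a3, a3 = glue a2 (aff p' p' (1 / 2) one_half_pos * minIso 1 g) p' hg1 :=
    ⟨_, rfl⟩
  have a3pl : PLf a3 := by
    rw [ha3]; exact glue_plf _ a2pl ((plf_aff _ _ _ _).mul (minIso_plf PLf.one hg))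
  have a3L : ∀ x ≤ p', a3 x = a2 x := fun x hx => by rw [ha3, glue_le hg1 hx]
  have a3R : ∀ x, p' ≤ x → a3 x = (p' + min x (g x)) / 2 := by
    intro x hx
    rw [ha3, glue_ge hg1 hx]; simp only [mulapp, minIso_apply, aff_apply]
    change p' + 1 / 2 * (min x (g x) - p') = _
    ring
  obtain ⟨b3, hb3⟩ : ∃ b3, b3 = a3 * g⁻¹ := ⟨_, rfl⟩
  have b3a : ∀ y, b3 y = a3 ((g⁻¹ : ℝ ≃o ℝ) y) := fun y => by rw [hb3]; rfl
  have b3L : ∀ y ≤ g y0, b3 y = b1 y := by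
    intro y hy
    have h3 : (g⁻¹ : ℝ ≃o ℝ) y ≤ y0 := by
      rw [← inv_apply g y0]; exact (g⁻¹ : ℝ ≃o ℝ).monotone hy
    rw [b3a, a3L _ (by linarith), a2L _ h3, a1a, apply_inv]
  have hNx0 : N < x0 := (le_max_left _ _).trans_lt hx0N
  have hNz0 : N < z0 := (le_max_left _ _).trans_lt hz0N
  refine ⟨a3, b3, p', q', ⟨by rw [hb3]; group, a3pl, by rw [hb3]; exact a3pl.mul hg.inv,
    ?_, ?_, ?_, ?_⟩, ?_, ?_, by linarith, by linarith, ?_, ?_⟩
  · intro x hx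
    rw [a3R x hx.le]
    have := min_le_left x (g x)
    linarith
  · intro y hy
    rcases le_or_gt y (g y0) with h | h
    · rw [b3L y h, b1R y hy.le]; linarith
    · rw [b3a]
      obtain ⟨x, hx⟩ : ∃ x, g x = y := ⟨_, apply_inv g y⟩
      rw [← hx, inv_apply]
      rcases le_total x p' with h3 | h3
      · have h4 : a3 x ≤ p' := by
          rw [a3L x h3]
          conv_rhs => rw [← a2p']
          exact a2.monotone h3
        rw [← hx] at h; linarith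
      · rw [a3R x h3]
        have := min_le_right x (g x)
        rw [← hx] at h; linarith
  · -- germ at p'
    have h3 : ∀ᶠ x in 𝓝[>] p', x < g x := by
      have := (isoCont (1 : ℝ ≃o ℝ)).continuousAt.eventually_lt (isoCont g).continuousAt
        (show (1 : ℝ ≃o ℝ) p' < g p' from hgp')
      exact this.filter_mono nhdsWithin_le_nhds
    obtain ⟨e, he, he2⟩ := (mem_nhdsGT_iff_exists_Ioo_subset).1 h3
    have he' : p' < e := he
    refine rep_inv_of_half (e := (p' + e) / 2) (by linarith) ?_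
    intro x hx hx2
    rw [a3R x hx]
    rcases lt_or_eq_of_le hx with h4 | h4
    · have h5 : x < g x := he2 ⟨h4, by linarith⟩
      rw [min_eq_left h5.le]
    · rw [← h4, min_eq_left hgp'.le]
  · exact rep_inv_of_half (e := g y0) hq'2 (fun x hx hx2 => by rw [b3L x hx2, b1R x hx])
  · exact a2S.congr (fun x _ hx2 => a3L x hx2)
  · exact b1S.congr (fun x _ hx2 => b3L x (hx2.trans hq'2.le))
  · intro x hx
    rw [a3L x (by linarith), a2L x (by linarith), a1L x (by linarith)]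
  · intro x hx
    rw [b3L x (by linarith), b1L x (by linarith)]

def Mode (g : ℝ ≃o ℝ) (p q : ℝ) : Prop :=
  (∀ N, ∃ y, N < y ∧ g y ≠ y) ∨ (p = q ∧ ∀ x, p ≤ x → g x = x)

theorem stepC {g a b : ℝ ≃o ℝ} {p N : ℝ} (hg : PLf g) (U : Up g a b p p)
    (hid : ∀ x, p ≤ x → g x = x) :
    ∃ (a' b' : ℝ ≃o ℝ) (p' : ℝ), Down g a' b' p' p' ∧ Std a' p p' ∧ Std b' p p' ∧
      N < p' ∧ (∀ x ≤ N, a' x = a x) ∧ (∀ x ≤ N, b' x = b x) := by
  have hid' : ∀ x, p ≤ x → (g⁻¹ : ℝ ≃o ℝ) x = x := fun x hx => by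
    conv_lhs => rw [← hid x hx, inv_apply]
  have hab : ∀ x, a x = b (g x) := fun x => by rw [U.hab]; rfl
  obtain ⟨x0, hx0⟩ : ∃ x0, x0 = max N p + 1 := ⟨_, rfl⟩
  have h1 : p < x0 := by rw [hx0]; linarith [le_max_right N p]
  have h2 : N < x0 := by rw [hx0]; linarith [le_max_left N p]
  have h3 : x0 < a x0 := U.ha x0 h1
  obtain ⟨a1, a1pl, a1L, a1S, a1R⟩ := finishB (p' := a x0 + 1) U.pla U.ra h1
    (fun x hx _ => U.ha x hx) (by linarith)
  obtain ⟨b1, hb1⟩ : ∃ b1, b1 = a1 * g⁻¹ := ⟨_, rfl⟩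
  have b1a : ∀ y, b1 y = a1 ((g⁻¹ : ℝ ≃o ℝ) y) := fun y => by rw [hb1]; rfl
  have b1R : ∀ y, p ≤ y → b1 y = a1 y := fun y hy => by rw [b1a, hid' y hy]
  refine ⟨a1, b1, a x0 + 1, ⟨by rw [hb1]; group, a1pl, by rw [hb1]; exact a1pl.mul hg.inv,
    ?_, ?_, ?_, ?_⟩, a1S, a1S.congr (fun x hx _ => b1R x hx), by linarith,
    fun x hx => a1L x (by linarith), ?_⟩
  · intro x hx; rw [a1R x hx.le]; linarith
  · intro x hx; rw [b1R x (by linarith), a1R x hx.le]; linarith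
  · exact rep_inv_of_half (e := a x0 + 2) (by linarith) (fun x hx _ => a1R x hx)
  · exact rep_inv_of_half (e := a x0 + 2) (by linarith)
      (fun x hx _ => by rw [b1R x (by linarith), a1R x hx])
  · intro x hx
    rcases le_total x p with h | h
    · have h4 : (g⁻¹ : ℝ ≃o ℝ) x ≤ p := by
        rw [← hid' p le_rfl]; exact (g⁻¹ : ℝ ≃o ℝ).monotone h
      rw [b1a, a1L _ (by linarith), hab, apply_inv]
    · rw [b1R x h, a1L x (by linarith), hab, hid x h]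

theorem up_step {g a b : ℝ ≃o ℝ} {p q : ℝ} (N : ℝ) (hg : PLf g) (U : Up g a b p q)
    (hm : Mode g p q) :
    ∃ (a' b' : ℝ ≃o ℝ) (p' q' : ℝ), Down g a' b' p' q' ∧ Std a' p p' ∧ Std b' q q' ∧
      N < p' ∧ N < q' ∧ (∀ x ≤ N, a' x = a x) ∧ (∀ x ≤ N, b' x = b x) ∧
      Mode g ((g⁻¹ : ℝ ≃o ℝ) q') p' := by
  rcases hm with hm | ⟨rfl, hid⟩
  · obtain ⟨y0, hy0, hne⟩ := hm (max N (max (a (max N p)) (b (max N q))))
    have h1 : N < y0 := (le_max_left _ _).trans_lt hy0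
    have h2 : a (max N p) < y0 := ((le_max_left _ _).trans (le_max_right _ _)).trans_lt hy0
    have h3 : b (max N q) < y0 := ((le_max_right _ _).trans (le_max_right _ _)).trans_lt hy0
    rcases lt_or_gt_of_ne hne with h | h
    · have h4 : y0 < (g⁻¹ : ℝ ≃o ℝ) y0 := by
        have := (g⁻¹ : ℝ ≃o ℝ).strictMono h
        rwa [inv_apply] at this
      obtain ⟨b', a', q', p', e1, e2, e3, e4, e5, e6, e7⟩ := stepA hg.inv U.swap h4 h3 h2 h1
      exact ⟨a', b', p', q', e1.swap, e3, e2, e5, e4, e7, e6, Or.inl hm⟩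
    · obtain ⟨a', b', p', q', e1, e2, e3, e4, e5, e6, e7⟩ := stepA hg U h h2 h3 h1
      exact ⟨a', b', p', q', e1, e2, e3, e4, e5, e6, e7, Or.inl hm⟩
  · obtain ⟨a', b', p', e1, e2, e3, e4, e5, e6⟩ := stepC (N := N) hg U hid
    have hpp : p < p' := e2.1
    have hid' : ∀ x, p ≤ x → (g⁻¹ : ℝ ≃o ℝ) x = x := fun x hx => by
      conv_lhs => rw [← hid x hx, inv_apply]
    refine ⟨a', b', p', p', e1, e2, e3, e4, e4, e5, e6, Or.inr ⟨hid' p' hpp.le, ?_⟩⟩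
    intro x hx
    rw [hid' p' hpp.le] at hx
    exact hid x (hpp.le.trans hx)

theorem macro_step {g a b : ℝ ≃o ℝ} {p q : ℝ} (N : ℝ) (hg : PLf g) (U : Up g a b p q)
    (hm : Mode g p q) :
    ∃ (a' b' : ℝ ≃o ℝ) (p' q' : ℝ), Up g a' b' p' q' ∧ Mode g p' q' ∧
      DStd a' p p' ∧ DStd b' q q' ∧ N < p' ∧ N < q' ∧
      (∀ x ≤ N, a' x = a x) ∧ (∀ x ≤ N, b' x = b x) := by
  obtain ⟨a1, b1, p1, q1, D1, S1, T1, hp1, hq1, A1, B1, M1⟩ := up_step N hg U hm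
  obtain ⟨a2, b2, p2, q2, D2, S2, T2, -, -, A2, B2, M2⟩ :=
    up_step (max (a1 (max N p1)) ((g⁻¹ : ℝ ≃o ℝ) (b1 (max N q1)))) hg (D1.hat hg) M1
  -- new maps
  have hU : Up g (g * (g⁻¹ * b2⁻¹ * g) * g⁻¹) (g * a2⁻¹ * g⁻¹) (g ((g⁻¹ : ℝ ≃o ℝ) q2)) (g p2) :=
    (D2.hat hg).conj hg
  have e1 : g * (g⁻¹ * b2⁻¹ * g) * g⁻¹ = b2⁻¹ := by group
  rw [e1, apply_inv] at hU
  -- agreement
  have agA : ∀ x ≤ max N p1, (b2⁻¹ : ℝ ≃o ℝ) x = a1 x := by
    intro x hx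
    have h1 : b2 (a1 x) = (a1⁻¹ : ℝ ≃o ℝ) (a1 x) :=
      B2 _ ((a1.monotone hx).trans (le_max_left _ _))
    rw [inv_apply] at h1
    conv_lhs => rw [← h1, inv_apply]
  have agB : ∀ x ≤ max N q1, (g * a2⁻¹ * g⁻¹) x = b1 x := by
    intro x hx
    simp only [mulapp]
    have h1 : a2 ((g⁻¹ : ℝ ≃o ℝ) (b1 x)) = (g⁻¹ * b1⁻¹ * g) ((g⁻¹ : ℝ ≃o ℝ) (b1 x)) :=
      A2 _ (((g⁻¹ : ℝ ≃o ℝ).monotone (b1.monotone hx)).trans (le_max_right _ _))
    simp only [mulapp, apply_inv, inv_apply] at h1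
    rw [← h1, inv_apply, apply_inv]
  refine ⟨b2⁻¹, g * a2⁻¹ * g⁻¹, q2, g p2, hU, ?_, ⟨p1, ?_, ?_⟩, ⟨q1, ?_, ?_⟩, ?_, ?_, ?_, ?_⟩
  · -- mode
    rcases M2 with h | ⟨h, h'⟩
    · exact Or.inl h
    · refine Or.inr ⟨?_, ?_⟩
      · rw [← h, apply_inv]
      · intro x hx
        have h3 := h' ((g⁻¹ : ℝ ≃o ℝ) q2) le_rfl
        rw [apply_inv] at h3
        exact h' x (by rw [← h3]; exact hx)
  · exact S1.congr (fun x _ hx2 => agA x (hx2.trans (le_max_right _ _)))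
  · rw [inv_inv]; exact T2
  · exact T1.congr (fun x _ hx2 => agB x (hx2.trans (le_max_right _ _)))
  · have h1 := S2.conj hg
    rw [apply_inv] at h1
    have h2 : (g * a2⁻¹ * g⁻¹)⁻¹ = g * a2 * g⁻¹ := by group
    rw [h2]; exact h1
  · exact hp1.trans T2.1
  · have h1 := (S2.conj hg).1
    rw [apply_inv] at h1
    exact hq1.trans h1
  · intro x hx
    rw [agA x (hx.trans (le_max_left _ _)), A1 x hx]
  · intro x hx
    rw [agB x (hx.trans (le_max_left _ _)), B1 x hx]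

end TH960.PL
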