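import Pool.Agent.TH960.PL.Std

/-! Up states and one step. -/

namespace TH960.PL

open Filter Topology Set

def RepGerm (f : ℝ ≃o ℝ) (p : ℝ) : Prop :=
  ∃ (φ : ℝ ≃o ℝ) (y : ℝ), PLf φ ∧ φ p = 0 ∧ p < y ∧ ∀ x, p ≤ x → x ≤ y → φ (f x) = 2 * φ x

theorem RepGerm.fix {f : ℝ ≃o ℝ} {p : ℝ} (h : RepGerm f p) : f p = p := by
  obtain ⟨φ, y, -, h2, h3, h4⟩ := h
  apply φ.injective
  rw [h4 p le_rfl h3.le, h2]; ring

theorem RepGerm.conj {f k : ℝ ≃o ℝ} {p : ℝ} (h : RepGerm f p) (hk : PLf k) :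
    RepGerm (k * f * k⁻¹) (k p) := by
  obtain ⟨φ, y, h1, h2, h3, h4⟩ := h
  refine ⟨φ * k⁻¹, k y, h1.mul hk.inv, ?_, k.strictMono h3, ?_⟩
  · simp only [mulapp, inv_apply, h2]
  · intro x hx hx2
    simp only [mulapp, inv_apply]
    apply h4
    · rw [← inv_apply k p]; exact (k⁻¹ : ℝ ≃o ℝ).monotone hx
    · rw [← inv_apply k y]; exact (k⁻¹ : ℝ ≃o ℝ).monotone hx2

theorem RepGerm.congr {f g : ℝ ≃o ℝ} {p e : ℝ} (h : RepGerm f p) (hpe : p < e)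
    (hfg : ∀ x, p ≤ x → x ≤ e → g x = f x) : RepGerm g p := by
  obtain ⟨φ, y, h1, h2, h3, h4⟩ := h
  refine ⟨φ, min y e, h1, h2, lt_min h3 hpe, fun x hx hx2 => ?_⟩
  rw [hfg x hx (hx2.trans (min_le_right _ _)), h4 x hx (hx2.trans (min_le_left _ _))]

theorem rep_inv_of_half {f : ℝ ≃o ℝ} {p e : ℝ} (hpe : p < e)
    (hf : ∀ x, p ≤ x → x ≤ e → f x = (p + x) / 2) : RepGerm f⁻¹ p := by
  refine ⟨aff p 0 1 one_pos, (p + e) / 2, plf_aff _ _ _ _, by rw [aff_apply]; ring, by linarith,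
    fun x hx hx2 => ?_⟩
  have h1 : f (2 * x - p) = x := by rw [hf _ (by linarith) (by linarith)]; ring
  have h2 : (f⁻¹ : ℝ ≃o ℝ) x = 2 * x - p := by conv_lhs => rw [← h1, inv_apply]
  rw [h2, aff_apply, aff_apply]; ring

theorem rep_of_double {f : ℝ ≃o ℝ} {p e : ℝ} (hpe : p < e)
    (hf : ∀ x, p ≤ x → x ≤ e → f x = p + 2 * (x - p)) : RepGerm f p := by
  refine ⟨aff p 0 1 one_pos, e, plf_aff _ _ _ _, by rw [aff_apply]; ring, hpe,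
    fun x hx hx2 => ?_⟩
  rw [hf x hx hx2, aff_apply, aff_apply]; ring

theorem lin_of_rep {f : ℝ ≃o ℝ} {p x0 : ℝ} (hf : PLf f) (hr : RepGerm f p)
    (hfx : ∀ x, p < x → x ≤ x0 → x < f x) :
    ∃ φ : ℝ ≃o ℝ, PLf φ ∧ φ p = 0 ∧ ∀ x, p ≤ x → x ≤ x0 → φ (f x) = 2 * φ x := by
  obtain ⟨φ0, y, h1, h2, h3, h4⟩ := hr
  have hy : y ≤ f y := by
    have h5 := h4 y h3.le le_rfl
    have h6 : 0 < φ0 y := by rw [← h2]; exact φ0.strictMono h3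
    have h7 : φ0 y ≤ φ0 (f y) := by rw [h5]; linarith
    exact φ0.le_iff_le.1 h7
  obtain ⟨φ, e1, e2, e3⟩ := conj_extend (x0 := x0) hf (plf_aff 0 0 2 two_pos) h1 h3.le hy
    (fun x hx hx2 => hfx x (h3.trans_le hx) hx2)
    (by intro x hx hx2; rw [h4 x hx hx2, aff_apply]; ring)
  refine ⟨φ, e1, by rw [e2 p h3.le, h2], fun x hx hx2 => ?_⟩
  rw [e3 x hx hx2, aff_apply]; ring

theorem finishB {f : ℝ ≃o ℝ} {p x0 p' : ℝ} (hf : PLf f) (hr : RepGerm f p) (hpx : p < x0)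
    (hfx : ∀ x, p < x → x ≤ x0 → x < f x) (hp' : f x0 < p') :
    ∃ f' : ℝ ≃o ℝ, PLf f' ∧ (∀ x ≤ x0, f' x = f x) ∧ Std f' p p' ∧
      ∀ x, p' ≤ x → f' x = (p' + x) / 2 := by
  obtain ⟨φ, hφ, hφp, hφe⟩ := lin_of_rep hf hr hfx
  have hφx0 : 0 < φ x0 := by rw [← hφp]; exact φ.strictMono hpx
  obtain ⟨c, hc0, hc⟩ : ∃ c : ℝ, 0 < c ∧ c * φ x0 = 1 / 3 :=
    ⟨1 / 3 / φ x0, by positivity, by field_simp⟩
  obtain ⟨κ, hκ0, hκ⟩ : ∃ κ : ℝ, 0 < κ ∧ κ * (p' - f x0) = 1 / 3 := by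
    have : 0 < p' - f x0 := by linarith
    exact ⟨1 / 3 / (p' - f x0), by positivity, by field_simp⟩
  have hx0f : x0 < f x0 := hfx x0 hpx le_rfl
  have hg1 : (aff 0 0 c hc0 * φ) (f x0) = (aff p' 1 κ hκ0) (f x0) := by
    simp only [mulapp, aff_apply]
    rw [hφe x0 hpx.le le_rfl]
    linear_combination 2 * hc + hκ
  obtain ⟨φ1, hφ1⟩ : ∃ φ1, φ1 = glue (aff 0 0 c hc0 * φ) (aff p' 1 κ hκ0) (f x0) hg1 := ⟨_, rfl⟩
  have φ1L : ∀ x, x ≤ f x0 → φ1 x = c * φ x := by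
    intro x hx
    rw [hφ1, glue_le hg1 hx]; simp only [mulapp, aff_apply]; ring
  have φ1R : ∀ x, f x0 ≤ x → φ1 x = 1 + κ * (x - p') := by
    intro x hx
    rw [hφ1, glue_ge hg1 hx, aff_apply]
  have φ1pl : PLf φ1 := by
    rw [hφ1]; exact glue_plf _ ((plf_aff _ _ _ _).mul hφ) (plf_aff _ _ _ _)
  have e0 : φ1 x0 = 1 / 3 := by rw [φ1L x0 hx0f.le, hc]
  have hg2 : f x0 = (φ1⁻¹ * psi * φ1) x0 := by
    simp only [mulapp]
    have : psi (φ1 x0) = φ1 (f x0) := by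
      rw [e0, psi_le le_rfl, φ1L _ le_rfl, hφe x0 hpx.le le_rfl]
      linear_combination (-2) * hc
    rw [this, inv_apply]
  refine ⟨glue f (φ1⁻¹ * psi * φ1) x0 hg2,
    glue_plf _ hf ((φ1pl.inv.mul psi_plf).mul φ1pl), fun x hx => glue_le hg2 hx, ?_, ?_⟩
  · refine ⟨by linarith, φ1, φ1pl, ?_, ?_, ?_⟩
    · rw [φ1L p (hpx.le.trans hx0f.le), hφp]; ring
    · rw [φ1R p' hp'.le]; ring
    · intro x hx hx2
      rcases le_total x x0 with h | h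
      · rw [glue_le hg2 h, φ1L _ (f.monotone h), hφe x hx h, φ1L x (h.trans hx0f.le), psi_le]
        · ring
        · rw [← hc]
          exact mul_le_mul_of_nonneg_left (φ.monotone h) hc0.le
      · rw [glue_ge hg2 h]; simp only [mulapp, apply_inv]
  · intro x hx
    rw [glue_ge hg2 (by linarith)]
    simp only [mulapp]
    have h1 : psi (φ1 x) = φ1 ((p' + x) / 2) := by
      rw [φ1R x (by linarith), φ1R _ (by linarith), psi_ge]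
      · ring
      · have : 0 ≤ κ * (x - p') := mul_nonneg hκ0.le (by linarith)
        linarith
    rw [h1, inv_apply]

structure Up (g a b : ℝ ≃o ℝ) (p q : ℝ) : Prop where
  hab : a = b * g
  pla : PLf a
  plb : PLf b
  ha : ∀ x, p < x → x < a x
  hb : ∀ x, q < x → x < b x
  ra : RepGerm a p
  rb : RepGerm b q

structure Down (g a b : ℝ ≃o ℝ) (p q : ℝ) : Prop where
  hab : a = b * g
  pla : PLf a
  plb : PLf b
  ha : ∀ x, p < x → a x < x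
  hb : ∀ x, q < x → b x < x
  ra : RepGerm a⁻¹ p
  rb : RepGerm b⁻¹ q

theorem Up.swap {g a b : ℝ ≃o ℝ} {p q : ℝ} (U : Up g a b p q) : Up g⁻¹ b a q p :=
  ⟨by rw [U.hab]; group, U.plb, U.pla, U.hb, U.ha, U.rb, U.ra⟩

theorem Down.swap {g a b : ℝ ≃o ℝ} {p q : ℝ} (U : Down g⁻¹ b a q p) : Down g a b p q :=
  ⟨by rw [U.hab]; group, U.plb, U.pla, U.hb, U.ha, U.rb, U.ra⟩

theorem Up.conj {g a b : ℝ ≃o ℝ} {p q : ℝ} (hg : PLf g) (U : Up g a b p q) :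
    Up g (g * a * g⁻¹) (g * b * g⁻¹) (g p) (g q) := by
  refine ⟨by rw [U.hab]; group, (hg.mul U.pla).mul hg.inv, (hg.mul U.plb).mul hg.inv, ?_, ?_,
    U.ra.conj hg, U.rb.conj hg⟩
  · intro x hx
    simp only [mulapp]
    have h1 : p < (g⁻¹ : ℝ ≃o ℝ) x := by
      rw [← inv_apply g p]; exact (g⁻¹ : ℝ ≃o ℝ).strictMono hx
    have h2 := g.strictMono (U.ha _ h1)
    rwa [apply_inv] at h2
  · intro x hx
    simp only [mulapp]
    have h1 : q < (g⁻¹ : ℝ ≃o ℝ) x := by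
      rw [← inv_apply g q]; exact (g⁻¹ : ℝ ≃o ℝ).strictMono hx
    have h2 := g.strictMono (U.hb _ h1)
    rwa [apply_inv] at h2

theorem Down.hat {g a b : ℝ ≃o ℝ} {p q : ℝ} (hg : PLf g) (D : Down g a b p q) :
    Up g (g⁻¹ * b⁻¹ * g) a⁻¹ ((g⁻¹ : ℝ ≃o ℝ) q) p := by
  refine ⟨by rw [D.hab]; group, (hg.inv.mul D.plb.inv).mul hg, D.pla.inv, ?_, ?_, ?_, D.ra⟩
  · intro x hx
    simp only [mulapp]
    have hbq : (b⁻¹ : ℝ ≃o ℝ) q = q := D.rb.fix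
    have h1 : q < g x := by
      rw [← apply_inv g q]; exact g.strictMono hx
    have h2 : q < (b⁻¹ : ℝ ≃o ℝ) (g x) := by
      conv_lhs => rw [← hbq]
      exact (b⁻¹ : ℝ ≃o ℝ).strictMono h1
    have h3 := D.hb _ h2
    rw [apply_inv] at h3
    have h4 := (g⁻¹ : ℝ ≃o ℝ).strictMono h3
    rwa [inv_apply] at h4
  · intro x hx
    have hap : (a⁻¹ : ℝ ≃o ℝ) p = p := D.ra.fix
    have h2 : p < (a⁻¹ : ℝ ≃o ℝ) x := by
      conv_lhs => rw [← hap]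
      exact (a⁻¹ : ℝ ≃o ℝ).strictMono hx
    have h3 := D.ha _ h2
    rwa [apply_inv] at h3
  · have := D.rb.conj hg.inv
    rwa [inv_inv] at this

end TH960.PL
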